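import Pool.Agent.Y244.PC.Fkg
import Pool.Agent.H362P.Base

/-!
Translated events and independence of events in disjoint boxes.
-/

set_option autoImplicit false

namespace Pool.Agent.Y244.PC
open Finset H974 Pool.Agent.H160R2.CV Pool.Agent.H160R2.CV.Quad H362P

theorem indep_prod {E : Type*} [DecidableEq E] {p : E → ℝ} {U : Finset E} {ι : Type*}
    (I : Finset ι) (A : ι → Finset E → Prop) (S : ι → Finset E) (hS : ∀ i ∈ I, S i ⊆ U)
    (hd : ∀ i ∈ I, ∀ j ∈ I, i ≠ j → Disjoint (S i) (S j))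
    (hl : ∀ i ∈ I, ∀ F, A i F ↔ A i (F ∩ S i)) :
    Pr p U (fun F => ∀ i ∈ I, A i F) = ∏ i ∈ I, Pr p U (A i) := by
  classical
  induction I using Finset.induction_on with
  | empty =>
    rw [Finset.prod_empty, Pr_true]
    intro F _ i hi
    exact absurd hi (Finset.notMem_empty i)
  | insert a I ha ih =>
    rw [Finset.prod_insert ha, ← ih (fun i hi => hS i (Finset.mem_insert_of_mem hi))
      (fun i hi j hj => hd i (Finset.mem_insert_of_mem hi) j (Finset.mem_insert_of_mem hj))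
      (fun i hi => hl i (Finset.mem_insert_of_mem hi)),
      ← Pr_indep (S := S a) (T := I.biUnion S) (hS a (Finset.mem_insert_self _ _))]
    · apply Pr_congr
      intro F _
      rw [Finset.forall_mem_insert]
    · intro e he
      rw [Finset.mem_biUnion] at he
      obtain ⟨i, hi, he⟩ := he
      exact hS i (Finset.mem_insert_of_mem hi) he
    · rw [Finset.disjoint_biUnion_right]
      intro i hi
      apply hd a (Finset.mem_insert_self _ _) i (Finset.mem_insert_of_mem hi)
      rintro rfl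
      exact ha hi
    · intro F _
      exact hl a (Finset.mem_insert_self _ _) F
    · intro F _
      have : ∀ i ∈ I, (A i F ↔ A i (F ∩ I.biUnion S)) := by
        intro i hi
        rw [hl i (Finset.mem_insert_of_mem hi) F,
          hl i (Finset.mem_insert_of_mem hi) (F ∩ I.biUnion S)]
        have e : F ∩ I.biUnion S ∩ S i = F ∩ S i := by
          rw [Finset.inter_assoc]
          congr 1
          rw [Finset.inter_eq_right]
          exact Finset.subset_biUnion_of_mem S hi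
        rw [e]
      constructor
      · intro h i hi
        exact (this i hi).mp (h i hi)
      · intro h i hi
        exact (this i hi).mpr (h i hi)

/-- the configuration seen from `z` -/
noncomputable def sh (z : Vtx) (F : Finset Edg) : Finset Edg := (trl (-z.1) (-z.2)).mp F

theorem sh_mono {z : Vtx} {F G : Finset Edg} (h : F ⊆ G) : sh z F ⊆ sh z G := LSym.mp_mono _ h

theorem sh_bo (z : Vtx) (m : ℕ) : sh z (bo z m) = boxE m := trl_bo z m

theorem sh_inter (z : Vtx) (F G : Finset Edg) : sh z (F ∩ G) = sh z F ∩ sh z G :=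
  LSym.mp_inter _ F G

theorem sh_reach {z u v : Vtx} {F : Finset Edg} :
    Reach (↑(sh z F)) u v ↔ Reach (↑F) (u + z) (v + z) := by
  unfold sh
  rw [LSym.coe_mp]
  have h := (trl (-z.1) (-z.2)).reach_iff (F := (↑F : Set Edg)) (u := u + z) (v := v + z)
  rw [trl_neg, trl_neg, add_sub_cancel_right, add_sub_cancel_right] at h
  exact h

theorem sh_reach_box {z u v : Vtx} {F : Finset Edg} {m : ℕ} :
    Reach (↑(sh z F) ∩ ↑(boxE m)) u v ↔ Reach (↑F ∩ ↑(bo z m)) (u + z) (v + z) := by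
  rw [← Finset.coe_inter, ← Finset.coe_inter, ← sh_bo z m, ← sh_inter]
  exact sh_reach

theorem pr_sh (z : Vtx) (S : Finset Edg) (A : Finset Edg → Prop) :
    Pr P S (fun F => A (sh z F)) = Pr P (sh z S) A :=
  (LSym.pr (trl (-z.1) (-z.2)) (1 / 2) S A).symm

/-- a large cluster in the box of radius `m` around `z` -/
def BigAt (z : Vtx) (N : ℝ) (m : ℕ) (F : Finset Edg) : Prop := Big N m (sh z F)

theorem Big_local' {N : ℝ} {m : ℕ} {F S : Finset Edg} (hS : boxE m ⊆ S) :
    Big N m F ↔ Big N m (F ∩ S) := by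
  unfold Big
  rw [coe_inter_eq hS]

theorem Big_mono {N : ℝ} {m : ℕ} {F G : Finset Edg} (h : F ⊆ G) (hF : Big N m F) :
    Big N m G := by
  obtain ⟨v, hv, T, hT, hr⟩ := hF
  exact ⟨v, hv, T, hT, fun u hu => (hr u hu).mono
    (Set.inter_subset_inter_left _ (by exact_mod_cast h))⟩

theorem BigAt_local {z : Vtx} {N : ℝ} {m : ℕ} {F : Finset Edg} :
    BigAt z N m F ↔ BigAt z N m (F ∩ bo z m) := by
  unfold BigAt
  rw [sh_inter, sh_bo]
  exact Big_local' (Finset.Subset.refl _)

theorem BigAt_mono {z : Vtx} {N : ℝ} {m : ℕ} {F G : Finset Edg} (h : F ⊆ G)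
    (hF : BigAt z N m F) : BigAt z N m G := Big_mono (sh_mono h) hF

theorem pr_BigAt {z : Vtx} {N : ℝ} {m : ℕ} {S : Finset Edg} (hS : bo z m ⊆ S) :
    Pr P S (BigAt z N m) = Pr P (boxE m) (Big N m) := by
  have h1 : Pr P S (BigAt z N m) = Pr P (bo z m) (BigAt z N m) :=
    Pr_local hS (A := BigAt z N m) (fun F _ => BigAt_local (F := F))
  have h2 : Pr P (bo z m) (BigAt z N m) = Pr P (sh z (bo z m)) (Big N m) :=
    pr_sh z (bo z m) (Big N m)
  rw [h1, h2, sh_bo]

theorem BigAt_iff {z : Vtx} {N : ℝ} {m : ℕ} {F : Finset Edg} :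
    BigAt z N m F ↔ ∃ v : Vtx, nv (v - z) ≤ m ∧ ∃ T : Finset Vtx, N ≤ (T.card : ℝ) ∧
      ∀ u ∈ T, Reach (↑F ∩ ↑(bo z m)) v u := by
  unfold BigAt Big
  constructor
  · rintro ⟨v, hv, T, hT, hr⟩
    refine ⟨v + z, ?_, T.map (addRightEmbedding z), ?_, ?_⟩
    · rw [add_sub_cancel_right]
      exact VolAux.mem_bx.mp hv
    · rwa [Finset.card_map]
    · intro u hu
      rw [Finset.mem_map] at hu
      obtain ⟨w, hw, rfl⟩ := hu
      exact sh_reach_box.mp (hr w hw)
  · rintro ⟨v, hv, T, hT, hr⟩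
    refine ⟨v - z, VolAux.mem_bx.mpr hv, T.map (addRightEmbedding (-z)), ?_, ?_⟩
    · rwa [Finset.card_map]
    · intro u hu
      rw [Finset.mem_map] at hu
      obtain ⟨w, hw, rfl⟩ := hu
      rw [sh_reach_box]
      have e : addRightEmbedding (-z) w + z = w := by
        show w + -z + z = w
        rw [add_assoc, neg_add_cancel, add_zero]
      rw [e, sub_add_cancel]
      exact hr w hw

theorem bo_sub_boxE {z : Vtx} {m n : ℕ} (h1 : -(n : ℤ) ≤ z.1 - m) (h2 : z.1 + m ≤ n)
    (h3 : -(n : ℤ) ≤ z.2 - m) (h4 : z.2 + m ≤ n) : bo z m ⊆ boxE n := by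
  unfold bo boxE
  exact RE_subset h1 h2 h3 h4

theorem Big_of_BigAt {z : Vtx} {N : ℝ} {m n : ℕ} (h1 : -(n : ℤ) ≤ z.1 - m) (h2 : z.1 + m ≤ n)
    (h3 : -(n : ℤ) ≤ z.2 - m) (h4 : z.2 + m ≤ n) {F : Finset Edg} (h : BigAt z N m F) :
    Big N n F := by
  rw [BigAt_iff] at h
  obtain ⟨v, hv, T, hT, hr⟩ := h
  refine ⟨v, ?_, T, hT, fun u hu => (hr u hu).mono
    (Set.inter_subset_inter_right _ (by exact_mod_cast bo_sub_boxE h1 h2 h3 h4))⟩
  unfold nv at hv
  simp only [Prod.fst_sub, Prod.snd_sub] at hv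
  rw [w_mem_bx]
  omega

/-- two centres at distance at least `2m+1` -/
theorem bo_disj' {x y : Vtx} {m : ℕ} (h : 2 * m + 1 ≤ nv (x - y)) : Disjoint (bo x m) (bo y m) :=
  bo_disj (by omega)

end Pool.Agent.Y244.PC
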