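import Pool.Agent.H974R2.BK
import Pool.Agent.Y244.PC.Loc

/-!
Many disjoint large clusters: the van den Berg-Kesten inequality and an exponential bound.
-/

set_option autoImplicit false

namespace Pool.Agent.Y244.PC
open Finset H974 Pool.Agent.H160R2.CV Pool.Agent.H160R2.CV.Quad H362P

/-- union bound -/
theorem Pr_exists_le {E : Type*} [DecidableEq E] {p : E → ℝ} (hp : Ok p) (S : Finset E)
    {ι : Type*} (I : Finset ι) (A : ι → Finset E → Prop) :
    Pr p S (fun F => ∃ i ∈ I, A i F) ≤ ∑ i ∈ I, Pr p S (A i) := by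
  classical
  induction I using Finset.induction_on with
  | empty =>
    rw [Finset.sum_empty]
    apply le_of_eq
    have h := Pr_not (p := p) S (fun F => ¬ ∃ i ∈ (∅ : Finset ι), A i F)
    have h1 : Pr p S (fun F => ¬ ∃ i ∈ (∅ : Finset ι), A i F) = 1 :=
      Pr_true _ (fun F _ => by simp)
    rw [h1, sub_self] at h
    rw [← h]
    apply Pr_congr
    intro F _
    exact not_not.symm
  | insert a I ha ih =>
    rw [Finset.sum_insert ha]
    refine le_trans (le_of_eq ?_) ((Pr_or_le hp S (A a) (fun F => ∃ i ∈ I, A i F)).trans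
      (add_le_add_right ih _))
    apply Pr_congr
    intro F _
    rw [Finset.exists_mem_insert]

/-- the cluster of `v` has at least `V` vertices -/
def Av (v : Vtx) (V : ℝ) (K : Finset Edg) : Prop :=
  ∃ T : Finset Vtx, V ≤ (T.card : ℝ) ∧ ∀ u ∈ T, Reach (↑K) v u

theorem Av_mono {v : Vtx} {V : ℝ} {K L : Finset Edg} (h : K ⊆ L) (hK : Av v V K) : Av v V L := by
  obtain ⟨T, hT, hr⟩ := hK
  exact ⟨T, hT, fun u hu => (hr u hu).mono (by exact_mod_cast h)⟩

/-- `k` vertices of `B` whose large clusters are realised by disjoint sets of edges -/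
def MD (B : Finset Vtx) (V : ℝ) (k : ℕ) (F : Finset Edg) : Prop :=
  ∃ (R : Finset Vtx) (K : Vtx → Finset Edg), R ⊆ B ∧ R.card = k ∧
    (∀ v ∈ R, K v ⊆ F ∧ Av v V (K v)) ∧ ∀ u ∈ R, ∀ v ∈ R, u ≠ v → Disjoint (K u) (K v)

theorem MD_mono {B : Finset Vtx} {V : ℝ} {k : ℕ} {F G : Finset Edg} (h : F ⊆ G)
    (hF : MD B V k F) : MD B V k G := by
  obtain ⟨R, K, h1, h2, h3, h4⟩ := hF
  exact ⟨R, K, h1, h2, fun v hv => ⟨(h3 v hv).1.trans h, (h3 v hv).2⟩, h4⟩

theorem MD_incr (S : Finset Edg) (B : Finset Vtx) (V : ℝ) (k : ℕ) : IncrE S (MD B V k) :=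
  fun _ _ h _ hF => MD_mono h hF

theorem MD_one {B : Finset Vtx} {V : ℝ} {F : Finset Edg} :
    MD B V 1 F ↔ ∃ v ∈ B, Av v V F := by
  constructor
  · rintro ⟨R, K, h1, h2, h3, h4⟩
    obtain ⟨v, rfl⟩ := Finset.card_eq_one.mp h2
    have hv : v ∈ ({v} : Finset Vtx) := Finset.mem_singleton_self v
    exact ⟨v, h1 hv, Av_mono (h3 v hv).1 (h3 v hv).2⟩
  · rintro ⟨v, hv, hA⟩
    refine ⟨{v}, fun _ => F, by simpa using hv, Finset.card_singleton v, ?_, ?_⟩
    · intro u hu
      rw [Finset.mem_singleton] at hu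
      rw [hu]
      exact ⟨Finset.Subset.refl _, hA⟩
    · intro u hu w hw hne
      rw [Finset.mem_singleton] at hu hw
      exact absurd (hu.trans hw.symm) hne

/-- splitting a family of disjoint clusters -/
theorem MD_split {B B1 B2 : Finset Vtx} (hB : B ⊆ B1 ∪ B2) {V : ℝ} {k : ℕ} {F : Finset Edg}
    (h : MD B V k F) : ∃ j ∈ range (k + 1), DisjOcc (MD B1 V j) (MD B2 V (k - j)) F := by
  classical
  obtain ⟨R, K, h1, h2, h3, h4⟩ := h
  set R1 := R.filter (fun v => v ∈ B1) with hR1
  set R2 := R.filter (fun v => v ∉ B1) with hR2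
  have hcard : R1.card + R2.card = k := by
    rw [← h2]
    exact Finset.card_filter_add_card_filter_not (fun v => v ∈ B1)
  have hs1 : R1 ⊆ R := Finset.filter_subset _ _
  have hs2 : R2 ⊆ R := Finset.filter_subset _ _
  refine ⟨R1.card, by rw [Finset.mem_range]; omega, R1.biUnion K, R2.biUnion K, ?_, ?_, ?_, ?_, ?_⟩
  · intro e he
    rw [Finset.mem_biUnion] at he
    obtain ⟨v, hv, he⟩ := he
    exact (h3 v (hs1 hv)).1 he
  · intro e he
    rw [Finset.mem_biUnion] at he
    obtain ⟨v, hv, he⟩ := he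
    exact (h3 v (hs2 hv)).1 he
  · rw [Finset.disjoint_biUnion_left]
    intro u hu
    rw [Finset.disjoint_biUnion_right]
    intro v hv
    apply h4 u (hs1 hu) v (hs2 hv)
    rintro rfl
    rw [hR1, Finset.mem_filter] at hu
    rw [hR2, Finset.mem_filter] at hv
    exact hv.2 hu.2
  · refine ⟨R1, K, ?_, rfl, fun v hv => ⟨Finset.subset_biUnion_of_mem K hv, (h3 v (hs1 hv)).2⟩,
      fun u hu v hv => h4 u (hs1 hu) v (hs1 hv)⟩
    intro v hv
    rw [hR1, Finset.mem_filter] at hv
    exact hv.2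
  · refine ⟨R2, K, ?_, by omega, fun v hv => ⟨Finset.subset_biUnion_of_mem K hv,
      (h3 v (hs2 hv)).2⟩, fun u hu v hv => h4 u (hs2 hu) v (hs2 hv)⟩
    intro v hv
    rw [hR2, Finset.mem_filter] at hv
    have := hB (h1 hv.1)
    rw [Finset.mem_union] at this
    exact this.resolve_left hv.2

theorem MD_succ {B : Finset Vtx} {V : ℝ} {k : ℕ} {F : Finset Edg}
    (h : MD B V (k + 1) F) : DisjOcc (MD B V 1) (MD B V k) F := by
  classical
  obtain ⟨R, K, h1, h2, h3, h4⟩ := h
  obtain ⟨a, ha⟩ : R.Nonempty := by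
    rw [← Finset.card_pos]
    omega
  refine ⟨K a, (R.erase a).biUnion K, (h3 a ha).1, ?_, ?_, ?_, ?_⟩
  · intro e he
    rw [Finset.mem_biUnion] at he
    obtain ⟨v, hv, he⟩ := he
    exact (h3 v (Finset.mem_of_mem_erase hv)).1 he
  · rw [Finset.disjoint_biUnion_right]
    intro v hv
    exact h4 a ha v (Finset.mem_of_mem_erase hv) (Finset.ne_of_mem_erase hv).symm
  · rw [MD_one]
    exact ⟨a, h1 ha, (h3 a ha).2⟩
  · refine ⟨R.erase a, K, (Finset.erase_subset _ _).trans h1, ?_, fun v hv =>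
      ⟨Finset.subset_biUnion_of_mem K hv, (h3 v (Finset.mem_of_mem_erase hv)).2⟩, fun u hu v hv =>
      h4 u (Finset.mem_of_mem_erase hu) v (Finset.mem_of_mem_erase hv)⟩
    rw [Finset.card_erase_of_mem ha]
    omega

theorem MD_pow {S : Finset Edg} {B : Finset Vtx} {V q : ℝ} (hq : Pr P S (MD B V 1) ≤ q)
    (k : ℕ) : Pr P S (MD B V k) ≤ q ^ k := by
  have hq0 : 0 ≤ q := (Pr_nonneg w_ok _ _).trans hq
  induction k with
  | zero =>
    rw [pow_zero]
    exact Pr_le_one w_ok _ _
  | succ k ih =>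
    calc Pr P S (MD B V (k + 1)) ≤ Pr P S (DisjOcc (MD B V 1) (MD B V k)) :=
          Pr_mono w_ok (fun F _ h => MD_succ h)
      _ ≤ Pr P S (MD B V 1) * Pr P S (MD B V k) := bk w_ok (MD_incr _ _ _ _) (MD_incr _ _ _ _)
      _ ≤ q * q ^ k := mul_le_mul hq ih (Pr_nonneg w_ok _ _) hq0
      _ = q ^ (k + 1) := by ring

/-- many disjoint large clusters meeting a union of blocks -/
theorem MD_union {S : Finset Edg} {V q : ℝ} (hq0 : 0 < q) {ι : Type*} [DecidableEq ι]
    (B : ι → Finset Vtx) (I : Finset ι) (hq : ∀ i ∈ I, Pr P S (MD (B i) V 1) ≤ q) (k : ℕ) :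
    Pr P S (MD (I.biUnion B) V k) ≤ 2 ^ I.card * (2 * q) ^ k := by
  classical
  induction I using Finset.induction_on generalizing k with
  | empty =>
    rw [Finset.card_empty, pow_zero, one_mul]
    rcases Nat.eq_zero_or_pos k with rfl | hk
    · rw [pow_zero]
      exact Pr_le_one w_ok _ _
    · have h0 : Pr P S (MD ((∅ : Finset ι).biUnion B) V k) ≤ 0 := by
        have h := Pr_not (p := P) S (fun F => ¬ MD ((∅ : Finset ι).biUnion B) V k F)
        have h1 : Pr P S (fun F => ¬ MD ((∅ : Finset ι).biUnion B) V k F) = 1 := by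
          apply Pr_true
          rintro F _ ⟨R, K, h1, h2, -, -⟩
          rw [Finset.biUnion_empty, Finset.subset_empty] at h1
          rw [h1, Finset.card_empty] at h2
          omega
        rw [h1, sub_self] at h
        rw [← h]
        apply Pr_mono w_ok
        intro F _ h2 h3
        exact h3 h2
      exact h0.trans (by positivity)
  | insert a I ha ih =>
    have ih' := ih (fun i hi => hq i (Finset.mem_insert_of_mem hi))
    have hqa := hq a (Finset.mem_insert_self _ _)
    rw [Finset.card_insert_of_notMem ha]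
    calc Pr P S (MD ((insert a I).biUnion B) V k)
        ≤ Pr P S (fun F => ∃ j ∈ range (k + 1),
            DisjOcc (MD (B a) V j) (MD (I.biUnion B) V (k - j)) F) := by
          apply Pr_mono w_ok
          intro F _ h
          apply MD_split _ h
          rw [Finset.biUnion_insert]
      _ ≤ ∑ j ∈ range (k + 1), Pr P S (DisjOcc (MD (B a) V j) (MD (I.biUnion B) V (k - j))) :=
          Pr_exists_le w_ok _ _ _
      _ ≤ ∑ j ∈ range (k + 1), 2 ^ I.card * (2 * q) ^ k * (1 / 2) ^ j := by
          apply Finset.sum_le_sum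
          intro j hj
          rw [Finset.mem_range] at hj
          refine (bk w_ok (MD_incr _ _ _ _) (MD_incr _ _ _ _)).trans ?_
          calc Pr P S (MD (B a) V j) * Pr P S (MD (I.biUnion B) V (k - j))
              ≤ q ^ j * (2 ^ I.card * (2 * q) ^ (k - j)) :=
                mul_le_mul (MD_pow hqa j) (ih' _) (Pr_nonneg w_ok _ _) (by positivity)
            _ = 2 ^ I.card * (2 * q) ^ k * (1 / 2) ^ j := by
                have e : (2 * q) ^ k = (2 * q) ^ (k - j) * (2 * q) ^ j := by
                  rw [← pow_add]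
                  congr 1
                  omega
                rw [e, mul_pow 2 q j]
                have e2 : (2 : ℝ) ^ j * (1 / 2) ^ j = 1 := by
                  rw [← mul_pow]
                  norm_num
                calc q ^ j * (2 ^ I.card * (2 * q) ^ (k - j))
                    = 2 ^ I.card * (2 * q) ^ (k - j) * q ^ j * 1 := by ring
                  _ = 2 ^ I.card * (2 * q) ^ (k - j) * q ^ j * ((2 : ℝ) ^ j * (1 / 2) ^ j) := by
                      rw [e2]
                  _ = _ := by ring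
      _ = 2 ^ I.card * (2 * q) ^ k * ∑ j ∈ range (k + 1), (1 / 2 : ℝ) ^ j := by
          rw [Finset.mul_sum]
      _ ≤ 2 ^ I.card * (2 * q) ^ k * 2 := by
          apply mul_le_mul_of_nonneg_left _ (by positivity)
          exact sum_geometric_two_le (k + 1)
      _ = 2 ^ (I.card + 1) * (2 * q) ^ k := by ring

end Pool.Agent.Y244.PC
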