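import Pool.Agent.Y244.PC.Loc

/-!
The lower tail of the largest cluster, lower bound: strips without crossings confine the clusters.
-/

set_option autoImplicit false

namespace Pool.Agent.Y244.PC
open Finset H974 Pool.Agent.H160R2.CV Pool.Agent.H160R2.CV.Quad H362P

/-- start of the `i`-th strip -/
def sx (n m : ℕ) (i : ℕ) : ℤ := -(n : ℤ) + 3 * m * i

/-- centre of the cell -/
def ce (n m : ℕ) (i j : ℕ) : Vtx := (sx n m i + 3 * m, sx n m j + 3 * m)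

theorem sx_succ (n m i : ℕ) : sx n m (i + 1) = sx n m i + 3 * m := by
  unfold sx; push_cast; ring

theorem sx_ge (n m i : ℕ) : -(n : ℤ) ≤ sx n m i := by
  unfold sx
  have : (0 : ℤ) ≤ 3 * m * i := by positivity
  omega

theorem sx_le {n m K i : ℕ} (hK : 3 * m * K ≤ 2 * n + 3 * m) (hi : i ≤ K) :
    sx n m i ≤ n + 3 * m := by
  unfold sx
  have h1 : 3 * m * i ≤ 3 * m * K := Nat.mul_le_mul_left _ hi
  have h2 : (3 * (m : ℤ) * i) ≤ 3 * m * K := by exact_mod_cast h1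
  have h3 : (3 * (m : ℤ) * K) ≤ 2 * n + 3 * m := by exact_mod_cast hK
  omega

theorem mem_RE_iff {a b c d : ℤ} {e : Edg} :
    e ∈ RE a b c d ↔ inR a b c d (src e) ∧ inR a b c d (tgt e) := by
  obtain ⟨x, y, _ | _⟩ := e
  · simp only [mem_RE_false, inR, src_mk, tgt_false]
    omega
  · simp only [mem_RE_true, inR, src_mk, tgt_true]
    omega

/-- location of a coordinate -/
theorem locate {n m K : ℕ} (hm : 1 ≤ m) (hK : 2 * n + 1 ≤ 3 * m * K) {a : ℤ} (h1 : -(n : ℤ) ≤ a)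
    (h2 : a ≤ n) : ∃ i : ℕ, i < K ∧ sx n m i ≤ a ∧ a < sx n m (i + 1) := by
  have hm' : (0 : ℤ) < 3 * m := by
    have : (1 : ℤ) ≤ m := by exact_mod_cast hm
    omega
  have hK' : 2 * (n : ℤ) + 1 ≤ 3 * m * K := by exact_mod_cast hK
  obtain ⟨t, ht⟩ : ∃ t : ℕ, (t : ℤ) = (a + n) / (3 * m) := by
    have : 0 ≤ (a + n) / (3 * (m : ℤ)) := Int.ediv_nonneg (by omega) hm'.le
    exact ⟨((a + n) / (3 * (m : ℤ))).toNat, Int.toNat_of_nonneg this⟩
  have h3 : 3 * (m : ℤ) * t ≤ a + n := by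
    rw [ht]
    exact Int.mul_ediv_self_le hm'.ne'
  have h4 : a + n < 3 * (m : ℤ) * (t + 1) := by
    rw [ht]
    have := Int.lt_ediv_add_one_mul_self (a + n) hm'
    linarith
  refine ⟨t, ?_, ?_, ?_⟩
  · have h5 : 3 * (m : ℤ) * t < 3 * m * K := by omega
    have h6 : (t : ℤ) < K := lt_of_mul_lt_mul_left h5 hm'.le
    exact_mod_cast h6
  · unfold sx
    omega
  · unfold sx
    push_cast
    omega

/-- the coordinates of a cluster which does not cross the strips -/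
theorem confine {n m K : ℕ} (hm : 1 ≤ m) (hK : 2 * n + 1 ≤ 3 * m * K) {C : Finset Vtx}
    (hne : C.Nonempty) (hC : C ⊆ bx n) (f : Vtx → ℤ) (hf : ∀ u ∈ bx n, -(n : ℤ) ≤ f u ∧ f u ≤ n)
    (hno : ∀ i ≤ K, ∀ u ∈ C, ∀ v ∈ C, f u ≤ sx n m i → sx n m i + 3 * m ≤ f v → False) :
    ∃ i < K, ∀ u ∈ C, sx n m i ≤ f u ∧ f u ≤ sx n m i + 6 * m := by
  obtain ⟨u0, hu0, hmin⟩ := Finset.exists_min_image C f hne
  obtain ⟨i, hi, h1, h2⟩ := locate hm hK (hf u0 (hC hu0)).1 (hf u0 (hC hu0)).2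
  have h3 := sx_succ n m i
  refine ⟨i, hi, fun u hu => ⟨h1.trans (hmin u hu), ?_⟩⟩
  by_contra hlt
  exact hno (i + 1) hi u0 hu0 u hu h2.le (by omega)

theorem conf_det {n m K : ℕ} (hm : 1 ≤ m) (hK : 2 * n + 1 ≤ 3 * m * K) {F : Finset Edg} {N : ℝ}
    (hV : ∀ i ∈ range (K + 1), ¬ LRc (sx n m i) (sx n m i + 3 * m) (-(n : ℤ)) n F)
    (hH : ∀ i ∈ range (K + 1), ¬ TBc (-(n : ℤ)) n (sx n m i) (sx n m i + 3 * m) F)
    (hE : ∀ q ∈ range K ×ˢ range K, ¬ BigAt (ce n m q.1 q.2) N (3 * m) F) : ¬ Big N n F := by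
  classical
  rintro ⟨v, hv, T, hT, hr⟩
  have hm' : (1 : ℤ) ≤ m := by exact_mod_cast hm
  set C : Finset Vtx := (bx n).filter (fun u => Reach (↑F ∩ ↑(boxE n)) v u) with hC
  have hvC : v ∈ C := by
    rw [hC, Finset.mem_filter]
    exact ⟨hv, Reach.refl _ _⟩
  have hCb : C ⊆ bx n := Finset.filter_subset _ _
  have hCC : ∀ u ∈ C, ∀ w ∈ C, Reach (↑F ∩ ↑(boxE n)) u w := by
    intro u hu w hw
    rw [hC, Finset.mem_filter] at hu hw
    exact hu.2.symm.trans hw.2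
  have hbE : ∀ {x y : ℤ} {b : Bool}, ((x, y, b) : Edg) ∈ (↑F ∩ ↑(boxE n) : Set Edg) →
      -(n : ℤ) ≤ x ∧ x ≤ n ∧ -(n : ℤ) ≤ y ∧ y ≤ n ∧ (b = true → x < n) ∧ (b = false → y < n) := by
    rintro x y b ⟨-, h⟩
    rw [Finset.mem_coe] at h
    unfold boxE at h
    cases b
    · rw [mem_RE_false] at h
      refine ⟨h.1, h.2.1, h.2.2.1, h.2.2.2.le, fun h' => by simp at h', fun _ => h.2.2.2⟩
    · rw [mem_RE_true] at h
      refine ⟨h.1, h.2.1.le, h.2.2.1, h.2.2.2, fun _ => h.2.1, fun h' => by simp at h'⟩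
  obtain ⟨i, hi, hi2⟩ := confine hm hK ⟨v, hvC⟩ hCb (fun u => u.1)
    (fun u hu => (w_mem_bx.mp hu).1) (by
    intro i hi u hu w hw h1 h2
    obtain ⟨y1, y2, k1, k2, k3, -⟩ := sub_LR (a := sx n m i) (b := sx n m i + 3 * m)
      (c := -(n : ℤ)) (d := n) (by omega)
      (by
        intro x y hxy _ _
        have := hbE hxy
        exact ⟨this.2.2.1, this.2.2.2.1⟩)
      (by
        intro x y hxy _ _
        have := hbE hxy
        exact ⟨this.2.2.1, this.2.2.2.2.2 rfl⟩) (hCC u hu w hw) h1 h2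
    refine hV i (by rw [Finset.mem_range]; omega) ⟨y1, y2, k1, k2, k3.mono ?_⟩
    rintro e ⟨⟨h7, -⟩, h8⟩
    exact ⟨h7, h8⟩)
  obtain ⟨j, hj, hj2⟩ := confine hm hK ⟨v, hvC⟩ hCb (fun u => u.2)
    (fun u hu => (w_mem_bx.mp hu).2) (by
    intro i hi u hu w hw h1 h2
    obtain ⟨y1, y2, k1, k2, k3, -⟩ := sub_TB (a := -(n : ℤ)) (b := n)
      (c := sx n m i) (d := sx n m i + 3 * m) (by omega)
      (by
        intro x y hxy _ _
        have := hbE hxy
        exact ⟨this.1, this.2.1⟩)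
      (by
        intro x y hxy _ _
        have := hbE hxy
        exact ⟨this.1, this.2.2.2.2.1 rfl⟩) (hCC u hu w hw) h1 h2
    refine hH i (by rw [Finset.mem_range]; omega) ⟨y1, y2, k1, k2, k3.mono ?_⟩
    rintro e ⟨⟨h7, -⟩, h8⟩
    exact ⟨h7, h8⟩)
  have hCe : ∀ u ∈ C, inR (sx n m i) (sx n m i + 6 * m) (sx n m j) (sx n m j + 6 * m) u :=
    fun u hu => ⟨hi2 u hu, hj2 u hu⟩
  have hbo : bo (ce n m i j) (3 * m) =
      RE (sx n m i) (sx n m i + 6 * m) (sx n m j) (sx n m j + 6 * m) := by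
    unfold bo ce
    congr 1 <;> push_cast <;> ring
  apply hE (i, j) (by rw [Finset.mem_product, Finset.mem_range, Finset.mem_range]; exact ⟨hi, hj⟩)
  rw [BigAt_iff]
  refine ⟨v, ?_, T, hT, fun u hu => ?_⟩
  · have := hCe v hvC
    unfold inR at this
    unfold nv ce
    simp only [Prod.fst_sub, Prod.snd_sub]
    omega
  · have key : ∀ w, Reach (↑F ∩ ↑(boxE n)) v w →
        Reach (↑F ∩ ↑(bo (ce n m i j) (3 * m))) v w := by
      intro w hw
      induction hw with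
      | refl => exact Reach.refl _ _
      | @tail w w' hw hs ih =>
        refine ih.trans (Adj.reach ?_)
        have hwC : w ∈ C := by
          rw [hC, Finset.mem_filter]
          exact ⟨w_reach_bx hv hw, hw⟩
        have hw'C : w' ∈ C := by
          have h9 : Reach (↑F ∩ ↑(boxE n)) v w' := Relation.ReflTransGen.tail hw hs
          rw [hC, Finset.mem_filter]
          exact ⟨w_reach_bx hv h9, h9⟩
        obtain ⟨e, ⟨heF, -⟩, hcase⟩ := hs
        refine ⟨e, ⟨heF, ?_⟩, hcase⟩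
        rw [Finset.mem_coe, hbo, mem_RE_iff]
        rcases hcase with ⟨h1, h2⟩ | ⟨h1, h2⟩
        · rw [h1, h2]
          exact ⟨hCe w hwC, hCe w' hw'C⟩
        · rw [h1, h2]
          exact ⟨hCe w' hw'C, hCe w hwC⟩
    exact key u (hr u hu)

theorem strip_noLR {n m K i : ℕ} (hK : 3 * m * K ≤ 2 * n + 3 * m) (hi : i ≤ K) :
    Pr P (boxE (n + 6 * m)) (fun F => ¬ LRc (sx n m i) (sx n m i + 3 * m) (-(n : ℤ)) n F) =
      1 - hh (1 / 2) (3 * (m : ℤ)) (2 * n) := by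
  have a1 := sx_ge n m i
  have a3 := sx_le hK hi
  have h1 : LRE (sx n m i) (sx n m i + 3 * m) (-(n : ℤ)) n ⊆ boxE (n + 6 * m) := by
    refine LRE_subset_RE.trans ?_
    unfold boxE
    apply RE_subset <;> push_cast <;> omega
  have h2 : Pr P (boxE (n + 6 * m)) (LRc (sx n m i) (sx n m i + 3 * m) (-(n : ℤ)) n) =
    hh (1 / 2) (sx n m i + 3 * m - sx n m i) ((n : ℤ) - -(n : ℤ)) := pr_LRc (1 / 2) h1
  rw [Pr_not, h2]
  congr 2 <;> ring

theorem strip_noTB {n m K i : ℕ} (hK : 3 * m * K ≤ 2 * n + 3 * m) (hi : i ≤ K) :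
    Pr P (boxE (n + 6 * m)) (fun F => ¬ TBc (-(n : ℤ)) n (sx n m i) (sx n m i + 3 * m) F) =
      1 - hh (1 / 2) (3 * (m : ℤ)) (2 * n) := by
  have a1 := sx_ge n m i
  have a3 := sx_le hK hi
  have h1 : TBE (-(n : ℤ)) n (sx n m i) (sx n m i + 3 * m) ⊆ boxE (n + 6 * m) := by
    refine TBE_subset_RE.trans ?_
    unfold boxE
    apply RE_subset <;> push_cast <;> omega
  have h2 : Pr P (boxE (n + 6 * m)) (TBc (-(n : ℤ)) n (sx n m i) (sx n m i + 3 * m)) =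
    hh (1 / 2) (sx n m i + 3 * m - sx n m i) ((n : ℤ) - -(n : ℤ)) := pr_TBc (1 / 2) h1
  rw [Pr_not, h2]
  congr 2 <;> ring

theorem ce_bo {n m K i j : ℕ} (hK : 3 * m * K ≤ 2 * n + 3 * m) (hi : i < K) (hj : j < K) :
    bo (ce n m i j) (3 * m) ⊆ boxE (n + 6 * m) := by
  have a1 := sx_ge n m i
  have a2 := sx_ge n m j
  have a3 := sx_le hK (show i + 1 ≤ K from hi)
  have a4 := sx_le hK (show j + 1 ≤ K from hj)
  have b1 := sx_succ n m i
  have b2 := sx_succ n m j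
  unfold bo boxE ce
  apply RE_subset <;> push_cast <;> omega

theorem decr_not {E : Type*} {S : Finset E} {A : Finset E → Prop} (h : IncrE S A) :
    DecrE S (fun F => ¬ A F) :=
  fun F G hFG hG h1 h2 => h1 (fun h3 => h2 (h F G hFG hG h3))

/-- all the decreasing events at once -/
theorem fkg_all_decr {n m K : ℕ} {S : Finset Edg} {N c q0 : ℝ} (hc : 0 ≤ c) (hq : 0 ≤ q0)
    (hL : ∀ i ∈ range (K + 1), q0 ≤ Pr P S
      (fun F => ¬ LRc (sx n m i) (sx n m i + 3 * m) (-(n : ℤ)) n F))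
    (hT : ∀ i ∈ range (K + 1), q0 ≤ Pr P S
      (fun F => ¬ TBc (-(n : ℤ)) n (sx n m i) (sx n m i + 3 * m) F))
    (hCt : ∀ q ∈ range K ×ˢ range K, c ≤ Pr P S
      (fun F => ¬ BigAt (ce n m q.1 q.2) N (3 * m) F)) :
    q0 ^ (K + 1) * q0 ^ (K + 1) * c ^ (K * K) ≤ Pr P S (fun F =>
      ((∀ i ∈ range (K + 1), ¬ LRc (sx n m i) (sx n m i + 3 * m) (-(n : ℤ)) n F) ∧
      (∀ i ∈ range (K + 1), ¬ TBc (-(n : ℤ)) n (sx n m i) (sx n m i + 3 * m) F)) ∧
      ∀ q ∈ range K ×ˢ range K, ¬ BigAt (ce n m q.1 q.2) N (3 * m) F) := by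
  have d1 : ∀ i, DecrE S (fun F => ¬ LRc (sx n m i) (sx n m i + 3 * m) (-(n : ℤ)) n F) :=
    fun i => decr_not (LRc_incr _ _ _ _ _)
  have d2 : ∀ i, DecrE S (fun F => ¬ TBc (-(n : ℤ)) n (sx n m i) (sx n m i + 3 * m) F) :=
    fun i => decr_not (TBc_incr _ _ _ _ _)
  have d3 : ∀ q : ℕ × ℕ, DecrE S (fun F => ¬ BigAt (ce n m q.1 q.2) N (3 * m) F) :=
    fun q => decr_not (fun F G h _ hF => BigAt_mono h hF)
  have f1 := fkg_decr w_ok (S := S) (range (K + 1))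
    (fun i F => ¬ LRc (sx n m i) (sx n m i + 3 * m) (-(n : ℤ)) n F) (fun i _ => d1 i)
  have f2 := fkg_decr w_ok (S := S) (range (K + 1))
    (fun i F => ¬ TBc (-(n : ℤ)) n (sx n m i) (sx n m i + 3 * m) F) (fun i _ => d2 i)
  have f3 := fkg_decr w_ok (S := S) (range K ×ˢ range K)
    (fun q F => ¬ BigAt (ce n m q.1 q.2) N (3 * m) F) (fun q _ => d3 q)
  have g1 := (pow_card_le_prod (range (K + 1)) _ hq hL).trans f1
  have g2 := (pow_card_le_prod (range (K + 1)) _ hq hT).trans f2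
  have g3 := (pow_card_le_prod (range K ×ˢ range K) _ hc hCt).trans f3
  rw [Finset.card_range] at g1 g2
  rw [Finset.card_product, Finset.card_range] at g3
  have hall : ∀ {ι : Type} (I : Finset ι) (A : ι → Finset Edg → Prop), (∀ i, DecrE S (A i)) →
      DecrE S (fun F => ∀ i ∈ I, A i F) := by
    intro ι I A hA F G hFG hG h h'
    apply h
    intro i hi
    by_contra h4
    exact hA i F G hFG hG h4 (h' i hi)
  have i1 := hall (range (K + 1))
    (fun i F => ¬ LRc (sx n m i) (sx n m i + 3 * m) (-(n : ℤ)) n F) d1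
  have i2 := hall (range (K + 1))
    (fun i F => ¬ TBc (-(n : ℤ)) n (sx n m i) (sx n m i + 3 * m) F) d2
  have i3 := hall (range K ×ˢ range K) (fun q F => ¬ BigAt (ce n m q.1 q.2) N (3 * m) F) d3
  have j1 := harris_dec2 w_ok i1 i2
  have i12 : DecrE S (fun F =>
      (∀ i ∈ range (K + 1), ¬ LRc (sx n m i) (sx n m i + 3 * m) (-(n : ℤ)) n F) ∧
      (∀ i ∈ range (K + 1), ¬ TBc (-(n : ℤ)) n (sx n m i) (sx n m i + 3 * m) F)) := by
    intro F G hFG hG h h'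
    apply h
    constructor
    · by_contra h4
      exact i1 F G hFG hG h4 h'.1
    · by_contra h4
      exact i2 F G hFG hG h4 h'.2
  have j2 := harris_dec2 w_ok i12 i3
  have p1 : 0 ≤ q0 ^ (K + 1) := pow_nonneg hq _
  have p3 : 0 ≤ c ^ (K * K) := pow_nonneg hc _
  have k1 := (mul_le_mul g1 g2 p1 (p1.trans g1)).trans j1
  exact (mul_le_mul k1 g3 p3 ((mul_nonneg p1 p1).trans k1)).trans j2

/-- small clusters with not too small probability -/
theorem conf_prob : ∃ a c : ℝ, 0 < a ∧ 0 < c ∧ c < 1 ∧ ∀ n m K : ℕ, 1 ≤ m → 1 ≤ K →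
    2 * n + 1 ≤ 3 * m * K → 3 * m * K ≤ 2 * n + 3 * m →
    c ^ (K ^ 2) ≤ Pr P (boxE n)
      (fun F => ¬ Big (a * (((3 * m : ℕ) : ℝ) ^ 2 * ar (3 * m))) n F) := by
  obtain ⟨C, hC, hmax⟩ := max_upper
  obtain ⟨b, hb⟩ : ∃ b : ℝ, b = 1 / 2 := ⟨_, rfl⟩
  have hb0 : 0 < b := by rw [hb]; norm_num
  have hb1 : b < 1 := by rw [hb]; norm_num
  have hbp : 0 < b ^ 1316 := pow_pos hb0 _
  have hbp1 : b ^ 1316 < 1 := pow_lt_one₀ hb0.le hb1 (by norm_num)
  obtain ⟨d, hd⟩ : ∃ d : ℝ, d = b ^ 1316 := ⟨_, rfl⟩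
  rw [← hd] at hbp hbp1
  set a : ℝ := Real.sqrt (2 * C) with ha
  have ha0 : 0 < a := Real.sqrt_pos.mpr (by positivity)
  have ha2 : a ^ 2 = 2 * C := Real.sq_sqrt (by positivity)
  refine ⟨a, b * d, ha0, mul_pos hb0 hbp, by nlinarith, ?_⟩
  intro n m K hm hK1 hK hK2
  set N : ℝ := a * (((3 * m : ℕ) : ℝ) ^ 2 * ar (3 * m)) with hN
  have hsub : boxE n ⊆ boxE (n + 6 * m) := boxE_mono (by omega)
  have e0 : Pr P (boxE (n + 6 * m)) (fun F => ¬ Big N n F) =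
      Pr P (boxE n) (fun F => ¬ Big N n F) :=
    Pr_local hsub (A := fun F => ¬ Big N n F)
      (fun F _ => not_congr (Big_local' (Finset.Subset.refl _)))
  rw [← e0]
  obtain ⟨q0, hq0⟩ : ∃ q0 : ℝ, q0 = b ^ (141 * (2 * K) + 47) := ⟨_, rfl⟩
  have hq00 : 0 ≤ q0 := by rw [hq0]; exact pow_nonneg hb0.le _
  have hm' : (1 : ℤ) ≤ m := by exact_mod_cast hm
  have hstrip : q0 ≤ 1 - hh (1 / 2) (3 * (m : ℤ)) (2 * n) := by
    rw [hq0, hb]
    apply no_cross (m := m) (by omega) (2 * K) (by omega) (by omega)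
    push_cast
    have : (2 * (n : ℤ) + 1) ≤ 3 * m * K := by exact_mod_cast hK
    have h2 : (0 : ℤ) ≤ m * K := by positivity
    linarith
  have hbig : b ≤ 1 - Pr P (boxE (3 * m)) (Big N (3 * m)) := by
    have h1 := hmax (3 * m) (by omega) a ha0
    rw [ha2] at h1
    have h2 : C / (2 * C) = 1 / 2 := by field_simp
    rw [h2] at h1
    rw [hb]
    linarith
  have hall := fkg_all_decr (n := n) (m := m) (K := K) (S := boxE (n + 6 * m)) (N := N) hb0.le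
    hq00
    (fun i hi => by
      rw [strip_noLR hK2 (by rw [Finset.mem_range] at hi; omega)]
      exact hstrip)
    (fun i hi => by
      rw [strip_noTB hK2 (by rw [Finset.mem_range] at hi; omega)]
      exact hstrip)
    (fun q hq => by
      rw [Finset.mem_product, Finset.mem_range, Finset.mem_range] at hq
      rw [Pr_not, pr_BigAt (ce_bo hK2 hq.1 hq.2)]
      exact hbig)
  have k3 : d ^ (K ^ 2) ≤ q0 ^ (K + 1) * q0 ^ (K + 1) := by
    rw [hd, hq0, ← pow_mul, ← pow_mul, ← pow_add]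
    apply pow_le_pow_of_le_one hb0.le hb1.le
    nlinarith
  have hfin : Pr P (boxE (n + 6 * m)) (fun F =>
      ((∀ i ∈ range (K + 1), ¬ LRc (sx n m i) (sx n m i + 3 * m) (-(n : ℤ)) n F) ∧
      (∀ i ∈ range (K + 1), ¬ TBc (-(n : ℤ)) n (sx n m i) (sx n m i + 3 * m) F)) ∧
      ∀ q ∈ range K ×ˢ range K, ¬ BigAt (ce n m q.1 q.2) N (3 * m) F) ≤
      Pr P (boxE (n + 6 * m)) (fun F => ¬ Big N n F) :=
    Pr_mono w_ok (fun F _ hF => conf_det hm hK hF.1.1 hF.1.2 hF.2)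
  refine le_trans ?_ (hall.trans hfin)
  calc (b * d) ^ (K ^ 2) = d ^ (K ^ 2) * b ^ (K * K) := by rw [mul_pow, mul_comm, sq K]
    _ ≤ q0 ^ (K + 1) * q0 ^ (K + 1) * b ^ (K * K) :=
        mul_le_mul_of_nonneg_right k3 (pow_nonneg hb0.le _)

end Pool.Agent.Y244.PC
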