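import Pool.Agent.Y244.PC.Loc

/-!
The number of vertices of a box connected far away is of order `m ^ 2 ar m` with positive
probability.
-/

set_option autoImplicit false

namespace Pool.Agent.Y244.PC
open Finset H974 Pool.Agent.H160R2.CV Pool.Agent.H160R2.CV.Quad H362P

/-- the number of vertices of the box with a far connection -/
noncomputable def Yc (m : ℕ) (F : Finset Edg) : ℝ := ∑ x ∈ bx m, ind (Far x (4 * m) F)

theorem Yc_mono {m : ℕ} {F G : Finset Edg} (h : F ⊆ G) : Yc m F ≤ Yc m G :=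
  Finset.sum_le_sum fun _ _ => ind_mono (Far.mono_F h)

theorem Yc_nonneg (m : ℕ) (F : Finset Edg) : 0 ≤ Yc m F := Finset.sum_nonneg fun _ _ => ind_nonneg _

theorem count_lower : ∃ a c : ℝ, 0 < a ∧ 0 < c ∧ ∀ m : ℕ, 1 ≤ m → ∀ S : Finset Edg,
    boxE (5 * m) ⊆ S → c ≤ Pr P S (fun F => a * ((m : ℝ) ^ 2 * ar m) ≤ Yc m F) := by
  classical
  obtain ⟨C2, hC2, h2⟩ := second_moment
  obtain ⟨C4, hC4, h4⟩ := ar_ratio 4
  set c1 : ℝ := 4 / C4 with hc1
  have hc10 : 0 < c1 := by positivity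
  set a : ℝ := c1 / 2 with ha
  have ha0 : 0 < a := by positivity
  refine ⟨a, c1 ^ 2 / (4 * C2), ha0, by positivity, fun r hr1 S hS => ?_⟩
  have hr1' : (1 : ℝ) ≤ r := by exact_mod_cast hr1
  have harr := ar_pos r
  set A : ℝ := (r : ℝ) ^ 2 * ar r with hA
  have hA0 : 0 < A := by positivity
  set Y : Finset Edg → ℝ := Yc r with hY
  have hY0 : ∀ F, 0 ≤ Y F := Yc_nonneg r
  -- first moment
  have hEY : c1 * A ≤ Ex P S Y := by
    have e0 : Ex P S Y = ∑ x ∈ bx r, Ex P S (fun F => ind (Far x (4 * r) F)) := by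
      rw [hY]
      unfold Yc
      rw [Ex_sum]
    rw [e0]
    have h5 : ∀ x ∈ bx r, ar (4 * r) ≤ Ex P S (fun F => ind (Far x (4 * r) F)) := by
      intro x hx
      refine far_ge (n := r) (r := 4 * r) ?_ hx
      refine Finset.Subset.trans ?_ hS
      exact boxE_mono (by omega)
    have h6 : ar r / C4 ≤ ar (4 * r) := by
      rw [div_le_iff₀ hC4, mul_comm]
      exact h4 r (4 * r) (by omega) (by omega)
    calc c1 * A = (4 * (r : ℝ) ^ 2) * (ar r / C4) := by rw [hA, hc1]; ring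
      _ ≤ (2 * (r : ℝ) + 1) ^ 2 * (ar r / C4) := by
          apply mul_le_mul_of_nonneg_right _ (by positivity)
          nlinarith
      _ ≤ (2 * (r : ℝ) + 1) ^ 2 * ar (4 * r) := by
          apply mul_le_mul_of_nonneg_left h6 (by positivity)
      _ = ∑ x ∈ bx r, ar (4 * r) := by rw [Finset.sum_const, nsmul_eq_mul, w_card_bx]
      _ ≤ _ := Finset.sum_le_sum h5
  -- second moment
  have hEY2 : Ex P S (fun F => Y F ^ 2) ≤ C2 * A ^ 2 := by
    have h8 : ∀ F, Y F ^ 2 = ∑ x ∈ bx r, ∑ y ∈ bx r, ind (Far x (4 * r) F ∧ Far y (4 * r) F) := by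
      intro F
      rw [hY, sq]
      unfold Yc
      rw [Finset.sum_mul_sum]
      apply Finset.sum_congr rfl
      intro x _
      apply Finset.sum_congr rfl
      intro y _
      rw [ind_and]
    have h9 : Ex P S (fun F => Y F ^ 2) = ∑ x ∈ bx r, ∑ y ∈ bx r,
        Pr P S (fun F => Far x (4 * r) F ∧ Far y (4 * r) F) := by
      rw [Ex_congr (g := fun F => ∑ x ∈ bx r, ∑ y ∈ bx r,
        ind (Far x (4 * r) F ∧ Far y (4 * r) F)) (fun F _ => h8 F), Ex_sum]
      apply Finset.sum_congr rfl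
      intro x _
      rw [Ex_sum]
      rfl
    rw [h9]
    refine le_trans ?_ (h2 r hr1 S)
    apply Finset.sum_le_sum
    intro x _
    apply Finset.sum_le_sum
    intro y _
    apply Pr_mono w_ok
    rintro F _ ⟨k1, k2⟩
    exact ⟨k1.mono_r (by omega), k2.mono_r (by omega)⟩
  -- the good event
  set Gd : Finset Edg → Prop := fun F => a * A ≤ Y F with hGd
  set s : ℝ := 2 * C2 * A / c1 with hs
  have hs0 : 0 < s := by positivity
  have hpt : ∀ F, Y F ≤ a * A + (1 / (2 * s) * Y F ^ 2 + s / 2 * ind (Gd F)) := by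
    intro F
    by_cases hy : a * A ≤ Y F
    · rw [ind_of (show Gd F from hy), mul_one]
      have h10 : Y F ≤ 1 / (2 * s) * Y F ^ 2 + s / 2 := by
        rw [← sub_nonneg]
        have : 1 / (2 * s) * Y F ^ 2 + s / 2 - Y F = 1 / (2 * s) * (Y F - s) ^ 2 := by
          field_simp
          ring
        rw [this]
        positivity
      have : 0 < a * A := by positivity
      linarith
    · push Not at hy
      have h11 := ind_nonneg (Gd F)
      have : 0 ≤ 1 / (2 * s) * Y F ^ 2 + s / 2 * ind (Gd F) := by positivity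
      linarith
  have hint : Ex P S Y ≤
      a * A + (1 / (2 * s) * Ex P S (fun F => Y F ^ 2) + s / 2 * Pr P S Gd) := by
    refine (Ex_mono w_ok (fun F _ => hpt F)).trans (le_of_eq ?_)
    rw [Ex_add, Ex_const, Ex_add, Ex_mul_left, Ex_mul_left]
    rfl
  have h12 : c1 * A ≤ a * A + (1 / (2 * s) * (C2 * A ^ 2) + s / 2 * Pr P S Gd) := by
    refine hEY.trans (hint.trans ?_)
    have : 1 / (2 * s) * Ex P S (fun F => Y F ^ 2) ≤ 1 / (2 * s) * (C2 * A ^ 2) :=
      mul_le_mul_of_nonneg_left hEY2 (by positivity)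
    linarith
  have h13 : 1 / (2 * s) * (C2 * A ^ 2) = c1 * A / 4 := by
    rw [hs]; field_simp; ring
  rw [h13, ha] at h12
  have h14 : c1 * A / 4 ≤ s / 2 * Pr P S Gd := by linarith
  have h15 : s / 2 = C2 * A / c1 := by rw [hs]; ring
  rw [h15] at h14
  have h16 : c1 / 4 ≤ C2 / c1 * Pr P S Gd := by
    have h17 : (c1 / 4) * A ≤ (C2 / c1 * Pr P S Gd) * A := by
      calc (c1 / 4) * A = c1 * A / 4 := by ring
        _ ≤ _ := h14
        _ = _ := by ring
    exact le_of_mul_le_mul_right h17 hA0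
  rw [div_le_iff₀ (by positivity)]
  have h18 : c1 / 4 * c1 ≤ C2 / c1 * Pr P S Gd * c1 := mul_le_mul_of_nonneg_right h16 hc10.le
  have h19 : C2 / c1 * Pr P S Gd * c1 = C2 * Pr P S Gd := by field_simp
  rw [h19] at h18
  nlinarith

/-- the count event at `z` -/
def CtAt (z : Vtx) (a : ℝ) (m : ℕ) (F : Finset Edg) : Prop :=
  a * ((m : ℝ) ^ 2 * ar m) ≤ Yc m (sh z F)

theorem CtAt_incr (S : Finset Edg) (z : Vtx) (a : ℝ) (m : ℕ) : IncrE S (CtAt z a m) :=
  fun _ _ h _ hF => le_trans hF (Yc_mono (sh_mono h))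

theorem pr_CtAt {a c : ℝ} {m : ℕ} (h : ∀ S : Finset Edg,
    boxE (5 * m) ⊆ S → c ≤ Pr P S (fun F => a * ((m : ℝ) ^ 2 * ar m) ≤ Yc m F))
    {z : Vtx} {S : Finset Edg} (hS : bo z (5 * m) ⊆ S) : c ≤ Pr P S (CtAt z a m) := by
  have h1 := pr_sh z S (fun F => a * ((m : ℝ) ^ 2 * ar m) ≤ Yc m F)
  have h2 : Pr P S (CtAt z a m) = Pr P (sh z S) (fun F => a * ((m : ℝ) ^ 2 * ar m) ≤ Yc m F) := h1
  rw [h2]
  apply h
  rw [← sh_bo z (5 * m)]
  exact sh_mono hS

/-- the vertices produced by the count event -/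
theorem CtAt_set {z : Vtx} {a : ℝ} {m : ℕ} {F : Finset Edg} (h : CtAt z a m F) :
    ∃ T : Finset Vtx, a * ((m : ℝ) ^ 2 * ar m) ≤ (T.card : ℝ) ∧
      ∀ u ∈ T, nv (u - z) ≤ m ∧ Far u (4 * m) F := by
  classical
  unfold CtAt Yc at h
  rw [w_sum_ind] at h
  refine ⟨((bx m).filter (fun x => Far x (4 * m) (sh z F))).map (addRightEmbedding z), ?_, ?_⟩
  · rwa [Finset.card_map]
  · intro u hu
    rw [Finset.mem_map] at hu
    obtain ⟨w, hw, rfl⟩ := hu
    rw [Finset.mem_filter] at hw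
    obtain ⟨hw, v, hv, hr⟩ := hw
    refine ⟨?_, v + z, ?_, ?_⟩
    · show nv (w + z - z) ≤ m
      rw [add_sub_cancel_right]
      exact VolAux.mem_bx.mp hw
    · show 4 * m ≤ nv (v + z - (w + z))
      rw [add_sub_add_right_eq_sub]
      exact hv
    · exact sh_reach.mp hr

end Pool.Agent.Y244.PC
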