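import Pool.Agent.H160R2.CV.Sharp

/-!
Critical percolation in long strips: products of increasing / decreasing events, crossings of
long strips, absence of crossings of thin strips.
-/

set_option autoImplicit false

namespace Pool.Agent.Y244.PC
open Finset H974 Pool.Agent.H160R2.CV

/-- Decreasing events. -/
def DecrE {E : Type*} (S : Finset E) (A : Finset E → Prop) : Prop :=
  IncrE S (fun F => ¬ A F)

theorem fkg_incr {E : Type*} [DecidableEq E] {p : E → ℝ} (hp : Ok p) {S : Finset E}
    {ι : Type*} (I : Finset ι) (A : ι → Finset E → Prop) (hA : ∀ i ∈ I, IncrE S (A i)) :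
    ∏ i ∈ I, Pr p S (A i) ≤ Pr p S (fun F => ∀ i ∈ I, A i F) := by
  classical
  induction I using Finset.induction_on with
  | empty =>
    rw [Finset.prod_empty, Pr_true]
    intro F _ i hi
    exact absurd hi (Finset.notMem_empty i)
  | insert a I ha ih =>
    rw [Finset.prod_insert ha]
    have h1 := ih (fun i hi => hA i (Finset.mem_insert_of_mem hi))
    have h2 : IncrE S (fun F => ∀ i ∈ I, A i F) := by
      intro F G hFG hG h i hi
      exact hA i (Finset.mem_insert_of_mem hi) F G hFG hG (h i hi)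
    have h3 := Pr_harris hp (hA a (Finset.mem_insert_self _ _)) h2
    refine (mul_le_mul_of_nonneg_left h1 (Pr_nonneg hp _ _)).trans (h3.trans (le_of_eq ?_))
    apply Pr_congr
    intro F _
    rw [Finset.forall_mem_insert]

theorem harris_dec2 {E : Type*} [DecidableEq E] {p : E → ℝ} (hp : Ok p) {S : Finset E}
    {A B : Finset E → Prop} (hA : DecrE S A) (hB : DecrE S B) :
    Pr p S A * Pr p S B ≤ Pr p S (fun F => A F ∧ B F) := by
  have h := Pr_harris_decr hp (A := fun F => ¬ A F) (B := B) hA hB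
  have h2 : Pr p S B = Pr p S (fun F => A F ∧ B F) + Pr p S (fun F => ¬ A F ∧ B F) := by
    unfold Pr
    rw [← Ex_add]
    apply Ex_congr
    intro F _
    rw [ind_and, ind_and, ind_not]
    ring
  rw [Pr_not] at h
  nlinarith [h, h2]

theorem fkg_decr {E : Type*} [DecidableEq E] {p : E → ℝ} (hp : Ok p) {S : Finset E}
    {ι : Type*} (I : Finset ι) (A : ι → Finset E → Prop) (hA : ∀ i ∈ I, DecrE S (A i)) :
    ∏ i ∈ I, Pr p S (A i) ≤ Pr p S (fun F => ∀ i ∈ I, A i F) := by
  classical
  induction I using Finset.induction_on with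
  | empty =>
    rw [Finset.prod_empty, Pr_true]
    intro F _ i hi
    exact absurd hi (Finset.notMem_empty i)
  | insert a I ha ih =>
    rw [Finset.prod_insert ha]
    have h1 := ih (fun i hi => hA i (Finset.mem_insert_of_mem hi))
    have h2 : DecrE S (fun F => ∀ i ∈ I, A i F) := by
      intro F G hFG hG h h'
      apply h
      intro i hi
      by_contra h4
      exact hA i (Finset.mem_insert_of_mem hi) F G hFG hG h4 (h' i hi)
    have h3 := harris_dec2 hp (hA a (Finset.mem_insert_self _ _)) h2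
    refine (mul_le_mul_of_nonneg_left h1 (Pr_nonneg hp _ _)).trans (h3.trans (le_of_eq ?_))
    apply Pr_congr
    intro F _
    rw [Finset.forall_mem_insert]

/-- powers: lower bound of a product by the power of a common lower bound -/
theorem pow_card_le_prod {ι : Type*} (I : Finset ι) (f : ι → ℝ) {c : ℝ} (hc : 0 ≤ c)
    (h : ∀ i ∈ I, c ≤ f i) : c ^ I.card ≤ ∏ i ∈ I, f i := by
  rw [← Finset.prod_const]
  exact Finset.prod_le_prod (fun _ _ => hc) h

/-- crossing of a long strip -/
theorem hh_long {m : ℤ} (hm : 0 < m) (k : ℕ) {w h : ℤ} (hw : 0 < w) (hw8 : w ≤ 8 * m + 6 * m * k)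
    (hh2 : 2 * m ≤ h) : (1 / 2 : ℝ) ^ (141 * k + 47) ≤ hh (1 / 2) w h := by
  have key : ∀ k : ℕ, (1 / 2 : ℝ) ^ (141 * k + 47) ≤ hh (1 / 2) (8 * m + 6 * m * k) (2 * m) := by
    intro k
    induction k with
    | zero =>
      simpa using rsw hm (by omega : (0:ℤ) < 8 * m) le_rfl (le_refl (2 * m))
    | succ k ih =>
      have hk0 : (0 : ℤ) ≤ 6 * m * k := by positivity
      have h1 := hh_glue (q := 1 / 2) (by norm_num) (by norm_num) (w1 := 8 * m + 6 * m * k)
        (w2 := 8 * m) (v := 2 * m) (h := 2 * m) (by omega) (by omega) (by omega) (by omega)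
      have e1 : 8 * m + 6 * m * (k : ℤ) + 8 * m - 2 * m = 8 * m + 6 * m * ((k + 1 : ℕ) : ℤ) := by
        push_cast; ring
      rw [e1] at h1
      refine le_trans ?_ h1
      have h2 : (1 / 2 : ℝ) ^ 47 ≤ hh (1 / 2) (8 * m) (2 * m) := rsw hm (by omega) le_rfl le_rfl
      have h3 : (1 / 2 : ℝ) ^ 47 ≤ hh (1 / 2) (2 * m) (2 * m) :=
        rsw hm (by omega) (by omega) le_rfl
      have p0 : (0 : ℝ) ≤ (1 / 2) ^ 47 := by positivity
      have p1 : (0 : ℝ) ≤ (1 / 2) ^ (141 * k + 47) := by positivity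
      calc (1 / 2 : ℝ) ^ (141 * (k + 1) + 47)
          ≤ (1 / 2) ^ (141 * k + 47) * (1 / 2) ^ 47 * (1 / 2) ^ 47 := by
            rw [← pow_add, ← pow_add]
            apply pow_le_pow_of_le_one (by norm_num) (by norm_num)
            omega
        _ ≤ _ := mul_le_mul (mul_le_mul ih h2 p0 (p1.trans ih)) h3 p0
            (mul_nonneg (p1.trans ih) (p0.trans h2))
  exact (key k).trans (hh_mono (by norm_num) (by norm_num) hw hw8 hh2)

/-- no crossing of a thin strip in the short direction -/
theorem no_cross {m : ℤ} (hm : 0 < m) (k : ℕ) {w h : ℤ} (hw : 2 * m + 1 ≤ w)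
    (hh0 : 0 ≤ h) (hh8 : h + 1 ≤ 8 * m + 6 * m * k) :
    (1 / 2 : ℝ) ^ (141 * k + 47) ≤ 1 - hh (1 / 2) w h := by
  have h1 := hh_dual (q := 1 / 2) (w := w) (h := h) (by omega) hh0
  have h2 := hh_long hm k (w := h + 1) (h := w - 1) (by omega) hh8 (by omega)
  have e : (1 : ℝ) - 1 / 2 = 1 / 2 := by norm_num
  rw [e] at h1
  linarith

end Pool.Agent.Y244.PC
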