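import Pool.Agent.Y244.PC.Count

/-!
A grid of open crossings connects all the far-reaching vertices of the cells.
-/

set_option autoImplicit false

namespace Pool.Agent.Y244.PC
open Finset H974 Pool.Agent.H160R2.CV Pool.Agent.H160R2.CV.Quad H362P

/-- start of the `i`-th strip -/
def st (n m : ℕ) (i : ℕ) : ℤ := -(n : ℤ) + 4 * m * i

/-- centre of the cell `(i, j)` -/
def cen (n m : ℕ) (i j : ℕ) : Vtx := (st n m i + 3 * m, st n m j + 3 * m)

/-- crossings of all the strips -/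
def Grid (n m K : ℕ) (F : Finset Edg) : Prop :=
  (∀ i ∈ range (K + 1), LRc (-(n : ℤ)) n (st n m i) (st n m i + 2 * m) F) ∧
  (∀ i ∈ range (K + 1), TBc (st n m i) (st n m i + 2 * m) (-(n : ℤ)) n F)

theorem st_succ (n m i : ℕ) : st n m (i + 1) = st n m i + 4 * m := by
  unfold st; push_cast; ring

theorem st_ge (n m i : ℕ) : -(n : ℤ) ≤ st n m i := by
  unfold st
  have : (0 : ℤ) ≤ 4 * m * i := by positivity
  omega

theorem st_le {n m K i : ℕ} (hK : 4 * m * K + 2 * m ≤ 2 * n) (hi : i ≤ K) :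
    st n m i + 2 * m ≤ n := by
  unfold st
  have h1 : 4 * m * i ≤ 4 * m * K := Nat.mul_le_mul_left _ hi
  have h2 : (4 * (m : ℤ) * i) ≤ 4 * m * K := by exact_mod_cast h1
  have h3 : (4 * (m : ℤ) * K) + 2 * m ≤ 2 * n := by exact_mod_cast hK
  omega

theorem grid_meet {n m K : ℕ} (hm : 1 ≤ m) (hK : 4 * m * K + 2 * m ≤ 2 * n) {F : Finset Edg}
    (hG : Grid n m K F) : ∃ z : Vtx, z ∈ bx n ∧ ∀ i j : ℕ, i < K → j < K → ∀ u : Vtx,
      nv (u - cen n m i j) ≤ m → Far u (4 * m) F → Reach (↑F ∩ ↑(boxE n)) u z := by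
  have hH : ∀ i, i ≤ K → ∃ h h' : ℤ, (st n m i ≤ h ∧ h ≤ st n m i + 2 * m) ∧
      Reach (↑F ∩ ↑(RE (-(n : ℤ)) n (st n m i) (st n m i + 2 * m))) (-(n : ℤ), h) (n, h') := by
    intro i hi
    obtain ⟨y, y', h1, h2, h3⟩ := hG.1 i (by rw [Finset.mem_range]; omega)
    exact ⟨y, y', h1, h3.mono (Set.inter_subset_inter_right _ (by exact_mod_cast LRE_subset_RE))⟩
  have hV : ∀ i, i ≤ K → ∃ h h' : ℤ, (st n m i ≤ h ∧ h ≤ st n m i + 2 * m) ∧
      Reach (↑F ∩ ↑(RE (st n m i) (st n m i + 2 * m) (-(n : ℤ)) n)) (h, -(n : ℤ)) (h', n) := by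
    intro i hi
    obtain ⟨y, y', h1, h2, h3⟩ := hG.2 i (by rw [Finset.mem_range]; omega)
    exact ⟨y, y', h1, h3.mono (Set.inter_subset_inter_right _ (by exact_mod_cast TBE_subset_RE))⟩
  choose! H H' hH1 hH2 using hH
  choose! V V' hV1 hV2 using hV
  have hm' : (1 : ℤ) ≤ m := by exact_mod_cast hm
  have hbig : ∀ {a b c d : ℤ}, -(n : ℤ) ≤ a → b ≤ n → -(n : ℤ) ≤ c → d ≤ n →
      (↑F ∩ ↑(RE a b c d) : Set Edg) ⊆ ↑F ∩ ↑(boxE n) := by
    intro a b c d h1 h2 h3 h4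
    refine Set.inter_subset_inter_right _ ?_
    unfold boxE
    exact_mod_cast RE_subset h1 h2 h3 h4
  have hHV : ∀ i j, i ≤ K → j ≤ K → Reach (↑F ∩ ↑(boxE n)) (-(n : ℤ), H i) (V j, -(n : ℤ)) := by
    intro i j hi hj
    have a1 := st_ge n m i
    have a2 := st_ge n m j
    have a3 := st_le hK hi
    have a4 := st_le hK hj
    exact cross_meet (A := -(n : ℤ)) (B := n) (C := -(n : ℤ)) (D := n) (a := st n m j)
      (b := st n m j + 2 * m) (c := st n m i) (d := st n m i + 2 * m) a2 (by omega) a4 a1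
      (by omega) a3 (hH2 i hi) a2 a4 (hV2 j hj) a1 a3
  refine ⟨(-(n : ℤ), H 0), ?_, ?_⟩
  · have a1 := st_ge n m 0
    have a3 := st_le hK (Nat.zero_le K)
    have a5 := hH1 0 (Nat.zero_le K)
    rw [w_mem_bx]
    simp only
    omega
  have hHz : ∀ i, i ≤ K → Reach (↑F ∩ ↑(boxE n)) (-(n : ℤ), H i) (-(n : ℤ), H 0) := by
    intro i hi
    exact (hHV i 0 hi (Nat.zero_le K)).trans (hHV 0 0 (Nat.zero_le K) (Nat.zero_le K)).symm
  have hVz : ∀ i, i ≤ K → Reach (↑F ∩ ↑(boxE n)) (V i, -(n : ℤ)) (-(n : ℤ), H 0) := by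
    intro i hi
    exact (hHV 0 i (Nat.zero_le K) hi).symm
  intro i j hi hj u hu hfar
  have a1 := st_ge n m i
  have a2 := st_ge n m j
  have a3 := st_le hK (show i + 1 ≤ K from hi)
  have a4 := st_le hK (show j + 1 ≤ K from hj)
  have b1 := st_succ n m i
  have b2 := st_succ n m j
  have hu' : (st n m i + 2 * m ≤ u.1 ∧ u.1 ≤ st n m i + 4 * m) ∧
      (st n m j + 2 * m ≤ u.2 ∧ u.2 ≤ st n m j + 4 * m) := by
    unfold nv cen at hu
    simp only [Prod.fst_sub, Prod.snd_sub] at hu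
    omega
  obtain ⟨v, hv, hr⟩ := hfar
  have hv' : v.1 ≤ st n m i ∨ st n m i + 6 * m ≤ v.1 ∨ v.2 ≤ st n m j ∨
      st n m j + 6 * m ≤ v.2 := by
    unfold nv at hv
    simp only [Prod.fst_sub, Prod.snd_sub] at hv
    omega
  obtain ⟨w, k1, k2, k3⟩ := first_exit (a := st n m i) (b := st n m i + 6 * m) (c := st n m j)
    (d := st n m j + 6 * m) (by unfold inR; omega) hr hv'
  unfold inR at k1
  have huw : Reach (↑F ∩ ↑(boxE n)) u w := k3.mono (hbig a1 (by omega) a2 (by omega))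
  rcases k2 with hw | hw | hw | hw
  · have h1 := cross_meet (A := st n m i) (B := st n m i + 6 * m) (C := -(n : ℤ)) (D := n)
      (a := st n m i) (b := st n m i + 2 * m) (c := st n m j) (d := st n m j + 6 * m) le_rfl
      (by omega) (by omega) a2 (by omega) (by omega) k3.symm hw.le hu'.1.1 (hV2 i (by omega))
      a2 (show st n m j + 6 * m ≤ (n : ℤ) by omega)
    exact huw.trans ((h1.mono (hbig a1 (by omega) le_rfl le_rfl)).trans (hVz i (by omega)))
  · have h1 := cross_meet (A := st n m i) (B := st n m i + 6 * m) (C := -(n : ℤ)) (D := n)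
      (a := st n m (i + 1)) (b := st n m (i + 1) + 2 * m) (c := st n m j)
      (d := st n m j + 6 * m) (by omega) (by omega) (by omega) a2 (by omega) (by omega) k3
      (by omega) (by omega) (hV2 (i + 1) (by omega)) a2
      (show st n m j + 6 * m ≤ (n : ℤ) by omega)
    exact (h1.mono (hbig a1 (by omega) le_rfl le_rfl)).trans (hVz (i + 1) (by omega))
  · have h1 := cross_meet (A := -(n : ℤ)) (B := n) (C := st n m j) (D := st n m j + 6 * m)
      (a := st n m i) (b := st n m i + 6 * m) (c := st n m j) (d := st n m j + 2 * m) a1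
      (by omega) (by omega) le_rfl (by omega) (by omega) (hH2 j (by omega)) a1
      (show st n m i + 6 * m ≤ (n : ℤ) by omega) k3.symm hw.le hu'.2.1
    exact huw.trans ((h1.mono (hbig le_rfl le_rfl a2 (by omega))).symm.trans (hHz j (by omega)))
  · have h1 := cross_meet (A := -(n : ℤ)) (B := n) (C := st n m j) (D := st n m j + 6 * m)
      (a := st n m i) (b := st n m i + 6 * m) (c := st n m (j + 1))
      (d := st n m (j + 1) + 2 * m) a1
      (by omega) (by omega) (by omega) (by omega) (by omega) (hH2 (j + 1) (by omega)) a1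
      (show st n m i + 6 * m ≤ (n : ℤ) by omega) k3 (by omega) (by omega)
    exact (h1.mono (hbig le_rfl le_rfl a2 (by omega))).symm.trans (hHz (j + 1) (by omega))

theorem cen_disj {n m i j i' j' : ℕ} (hm : 1 ≤ m) {u : Vtx} (h1 : nv (u - cen n m i j) ≤ m)
    (h2 : nv (u - cen n m i' j') ≤ m) : i = i' ∧ j = j' := by
  have hm' : (1 : ℤ) ≤ m := by exact_mod_cast hm
  have key : ∀ a b : ℕ, ∀ x : ℤ, |x - (st n m a + 3 * m)| ≤ m → |x - (st n m b + 3 * m)| ≤ m →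
      a = b := by
    intro a b x ha hb
    rw [abs_le] at ha hb
    unfold st at ha hb
    by_contra hne
    rcases Nat.lt_or_gt_of_ne hne with h | h
    · have : (4 * (m : ℤ) * a) + 4 * m ≤ 4 * m * b := by
        have : (a : ℤ) + 1 ≤ b := by exact_mod_cast h
        nlinarith
      omega
    · have : (4 * (m : ℤ) * b) + 4 * m ≤ 4 * m * a := by
        have : (b : ℤ) + 1 ≤ a := by exact_mod_cast h
        nlinarith
      omega
  unfold nv cen at h1 h2
  simp only [Prod.fst_sub, Prod.snd_sub] at h1 h2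
  constructor
  · apply key i i' u.1
    · rw [abs_le]; omega
    · rw [abs_le]; omega
  · apply key j j' u.2
    · rw [abs_le]; omega
    · rw [abs_le]; omega

/-- the grid and the counts produce a large cluster -/
theorem grid_big {n m K : ℕ} (hm : 1 ≤ m) (hK : 4 * m * K + 2 * m ≤ 2 * n) {F : Finset Edg}
    (hG : Grid n m K F) {a : ℝ}
    (hC : ∀ q ∈ range K ×ˢ range K, CtAt (cen n m q.1 q.2) a m F) :
    Big ((K : ℝ) ^ 2 * (a * ((m : ℝ) ^ 2 * ar m))) n F := by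
  classical
  obtain ⟨z, hz, hr⟩ := grid_meet hm hK hG
  have h1 : ∀ q : ℕ × ℕ, ∃ T : Finset Vtx, q ∈ range K ×ˢ range K →
      a * ((m : ℝ) ^ 2 * ar m) ≤ (T.card : ℝ) ∧
      ∀ u ∈ T, nv (u - cen n m q.1 q.2) ≤ m ∧ Far u (4 * m) F := by
    intro q
    by_cases hq : q ∈ range K ×ˢ range K
    · obtain ⟨T, h2, h3⟩ := CtAt_set (hC q hq)
      exact ⟨T, fun _ => ⟨h2, h3⟩⟩
    · exact ⟨∅, fun h => absurd h hq⟩
  choose T hT using h1
  refine ⟨z, hz, (range K ×ˢ range K).biUnion T, ?_, ?_⟩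
  · rw [Finset.card_biUnion]
    · push_cast
      calc (K : ℝ) ^ 2 * (a * ((m : ℝ) ^ 2 * ar m))
          = ∑ q ∈ range K ×ˢ range K, a * ((m : ℝ) ^ 2 * ar m) := by
            rw [Finset.sum_const, Finset.card_product, Finset.card_range, nsmul_eq_mul]
            push_cast
            ring
        _ ≤ _ := Finset.sum_le_sum fun q hq => (hT q hq).1
    · intro q hq q' hq' hne
      show Disjoint (T q) (T q')
      rw [Finset.disjoint_left]
      intro u hu hu'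
      have := cen_disj hm ((hT q hq).2 u hu).1 ((hT q' hq').2 u hu').1
      exact hne (Prod.ext this.1 this.2)
  · intro u hu
    rw [Finset.mem_biUnion] at hu
    obtain ⟨q, hq, hu⟩ := hu
    obtain ⟨h2, h3⟩ := (hT q hq).2 u hu
    rw [Finset.mem_product, Finset.mem_range, Finset.mem_range] at hq
    exact (hr q.1 q.2 hq.1 hq.2 u h2 h3).symm

theorem pow_bound {K : ℕ} (hK : 1 ≤ K) {b : ℝ} (hb0 : 0 ≤ b) (hb1 : b ≤ 1) :
    (b ^ 1316) ^ (K ^ 2) ≤ (b ^ (141 * (2 * K) + 47)) ^ (K + 1) *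
      (b ^ (141 * (2 * K) + 47)) ^ (K + 1) := by
  rw [← pow_mul, ← pow_mul, ← pow_add]
  apply pow_le_pow_of_le_one hb0 hb1
  nlinarith

theorem strip_LR {n m K i : ℕ} (hK : 4 * m * K + 2 * m ≤ 2 * n) (hi : i ≤ K) {S : Finset Edg}
    (hS : boxE n ⊆ S) : Pr P S (LRc (-(n : ℤ)) n (st n m i) (st n m i + 2 * m)) =
      hh (1 / 2) (2 * (n : ℤ)) (2 * m) := by
  have a1 := st_ge n m i
  have a3 := st_le hK hi
  have h1 : LRE (-(n : ℤ)) n (st n m i) (st n m i + 2 * m) ⊆ S := by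
    refine LRE_subset_RE.trans (Finset.Subset.trans ?_ hS)
    unfold boxE
    exact RE_subset le_rfl le_rfl a1 a3
  have h2 : Pr P S (LRc (-(n : ℤ)) n (st n m i) (st n m i + 2 * m)) =
    hh (1 / 2) ((n : ℤ) - -(n : ℤ)) (st n m i + 2 * m - st n m i) := pr_LRc (1 / 2) h1
  rw [h2]
  congr 1 <;> ring

theorem strip_TB {n m K i : ℕ} (hK : 4 * m * K + 2 * m ≤ 2 * n) (hi : i ≤ K) {S : Finset Edg}
    (hS : boxE n ⊆ S) : Pr P S (TBc (st n m i) (st n m i + 2 * m) (-(n : ℤ)) n) =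
      hh (1 / 2) (2 * (n : ℤ)) (2 * m) := by
  have a1 := st_ge n m i
  have a3 := st_le hK hi
  have h1 : TBE (st n m i) (st n m i + 2 * m) (-(n : ℤ)) n ⊆ S := by
    refine TBE_subset_RE.trans (Finset.Subset.trans ?_ hS)
    unfold boxE
    exact RE_subset a1 a3 le_rfl le_rfl
  have h2 : Pr P S (TBc (st n m i) (st n m i + 2 * m) (-(n : ℤ)) n) =
    hh (1 / 2) ((n : ℤ) - -(n : ℤ)) (st n m i + 2 * m - st n m i) := pr_TBc (1 / 2) h1
  rw [h2]
  congr 1 <;> ring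

theorem cen_bo {n m K i j : ℕ} (hK : 4 * m * K + 2 * m ≤ 2 * n) (hi : i < K) (hj : j < K) :
    bo (cen n m i j) (5 * m) ⊆ boxE (n + 2 * m) := by
  have a1 := st_ge n m i
  have a2 := st_ge n m j
  have a3 := st_le hK (show i + 1 ≤ K from hi)
  have a4 := st_le hK (show j + 1 ≤ K from hj)
  have b1 := st_succ n m i
  have b2 := st_succ n m j
  unfold bo boxE cen
  apply RE_subset <;> push_cast <;> omega

/-- all the increasing events at once -/
theorem fkg_all {n m K : ℕ} {S : Finset Edg} {a c q0 : ℝ} (hc : 0 ≤ c) (hq : 0 ≤ q0)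
    (hL : ∀ i ∈ range (K + 1), q0 ≤ Pr P S (LRc (-(n : ℤ)) n (st n m i) (st n m i + 2 * m)))
    (hT : ∀ i ∈ range (K + 1), q0 ≤ Pr P S (TBc (st n m i) (st n m i + 2 * m) (-(n : ℤ)) n))
    (hCt : ∀ q ∈ range K ×ˢ range K, c ≤ Pr P S (CtAt (cen n m q.1 q.2) a m)) :
    q0 ^ (K + 1) * q0 ^ (K + 1) * c ^ (K * K) ≤ Pr P S (fun F => Grid n m K F ∧
      ∀ q ∈ range K ×ˢ range K, CtAt (cen n m q.1 q.2) a m F) := by
  have f1 := fkg_incr w_ok (S := S) (range (K + 1))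
    (fun i => LRc (-(n : ℤ)) n (st n m i) (st n m i + 2 * m)) (fun i _ => LRc_incr _ _ _ _ _)
  have f2 := fkg_incr w_ok (S := S) (range (K + 1))
    (fun i => TBc (st n m i) (st n m i + 2 * m) (-(n : ℤ)) n) (fun i _ => TBc_incr _ _ _ _ _)
  have f3 := fkg_incr w_ok (S := S) (range K ×ˢ range K)
    (fun q => CtAt (cen n m q.1 q.2) a m) (fun q _ => CtAt_incr _ _ _ _)
  have g1 := (pow_card_le_prod (range (K + 1)) _ hq hL).trans f1
  have g2 := (pow_card_le_prod (range (K + 1)) _ hq hT).trans f2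
  have g3 := (pow_card_le_prod (range K ×ˢ range K) _ hc hCt).trans f3
  rw [Finset.card_range] at g1 g2
  rw [Finset.card_product, Finset.card_range] at g3
  have i1 : IncrE S (fun F => ∀ i ∈ range (K + 1),
      LRc (-(n : ℤ)) n (st n m i) (st n m i + 2 * m) F) :=
    fun F G hFG hG h i hi => (h i hi).mono hFG
  have i2 : IncrE S (fun F => ∀ i ∈ range (K + 1),
      TBc (st n m i) (st n m i + 2 * m) (-(n : ℤ)) n F) :=
    fun F G hFG hG h i hi => (h i hi).mono hFG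
  have i3 : IncrE S (fun F => ∀ q ∈ range K ×ˢ range K, CtAt (cen n m q.1 q.2) a m F) :=
    fun F G hFG hG h q hq => CtAt_incr S _ _ _ F G hFG hG (h q hq)
  have j1 := Pr_harris w_ok i1 i2
  have i12 : IncrE S (Grid n m K) :=
    fun F G hFG hG h => ⟨i1 F G hFG hG h.1, i2 F G hFG hG h.2⟩
  have j2 := Pr_harris w_ok i12 i3
  have p1 : 0 ≤ q0 ^ (K + 1) := pow_nonneg hq _
  have p3 : 0 ≤ c ^ (K * K) := pow_nonneg hc _
  have k1 : q0 ^ (K + 1) * q0 ^ (K + 1) ≤ Pr P S (Grid n m K) :=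
    (mul_le_mul g1 g2 p1 (p1.trans g1)).trans j1
  exact (mul_le_mul k1 g3 p3 ((mul_nonneg p1 p1).trans k1)).trans j2

/-- lower bound for the probability of a very large cluster -/
theorem grid_prob : ∃ a c : ℝ, 0 < a ∧ 0 < c ∧ c < 1 ∧ ∀ n m K : ℕ, 1 ≤ m → 1 ≤ K →
    4 * m * K + 2 * m ≤ 2 * n → 2 * n ≤ 8 * m + 12 * m * K →
    c ^ (K ^ 2) ≤ Pr P (boxE n) (Big ((K : ℝ) ^ 2 * (a * ((m : ℝ) ^ 2 * ar m))) n) := by
  obtain ⟨a, c, ha, hc, h⟩ := count_lower
  have hc1 : c ≤ 1 := (h 1 le_rfl _ (Finset.Subset.refl _)).trans (Pr_le_one w_ok _ _)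
  obtain ⟨b, hb⟩ : ∃ b : ℝ, b = 1 / 2 := ⟨_, rfl⟩
  have hb0 : 0 < b := by rw [hb]; norm_num
  have hb1 : b < 1 := by rw [hb]; norm_num
  have hbp : 0 < b ^ 1316 := pow_pos hb0 _
  have hbp1 : b ^ 1316 < 1 := pow_lt_one₀ hb0.le hb1 (by norm_num)
  obtain ⟨d, hd⟩ : ∃ d : ℝ, d = b ^ 1316 := ⟨_, rfl⟩
  rw [← hd] at hbp hbp1
  refine ⟨a, c * d, ha, mul_pos hc hbp, by nlinarith, ?_⟩
  intro n m K hm hK1 hK hK2
  have hsub : boxE n ⊆ boxE (n + 2 * m) := boxE_mono (by omega)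
  have hn0 : 0 < n := by nlinarith
  have e0 : Pr P (boxE (n + 2 * m)) (Big ((K : ℝ) ^ 2 * (a * ((m : ℝ) ^ 2 * ar m))) n) =
      Pr P (boxE n) (Big ((K : ℝ) ^ 2 * (a * ((m : ℝ) ^ 2 * ar m))) n) :=
    Pr_local hsub (A := Big ((K : ℝ) ^ 2 * (a * ((m : ℝ) ^ 2 * ar m))) n)
      (fun F _ => Big_local' (Finset.Subset.refl _))
  rw [← e0]
  obtain ⟨q0, hq0⟩ : ∃ q0 : ℝ, q0 = b ^ (141 * (2 * K) + 47) := ⟨_, rfl⟩
  have hq00 : 0 ≤ q0 := by rw [hq0]; exact pow_nonneg hb0.le _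
  have hstrip : q0 ≤ hh (1 / 2) (2 * (n : ℤ)) (2 * m) := by
    rw [hq0, hb]
    apply hh_long (m := m) (by exact_mod_cast hm) (2 * K) (by omega) _ le_rfl
    push_cast
    have : (2 * (n : ℤ)) ≤ 8 * m + 12 * m * K := by exact_mod_cast hK2
    linarith
  have hall := fkg_all (n := n) (m := m) (K := K) (S := boxE (n + 2 * m)) (a := a) hc.le hq00
    (fun i hi => by
      rw [strip_LR hK (by rw [Finset.mem_range] at hi; omega) hsub]
      exact hstrip)
    (fun i hi => by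
      rw [strip_TB hK (by rw [Finset.mem_range] at hi; omega) hsub]
      exact hstrip)
    (fun q hq => by
      rw [Finset.mem_product, Finset.mem_range, Finset.mem_range] at hq
      exact pr_CtAt (h m hm) (cen_bo hK hq.1 hq.2))
  have k3 := pow_bound hK1 hb0.le hb1.le
  rw [← hd, ← hq0] at k3
  have hfin : Pr P (boxE (n + 2 * m)) (fun F => Grid n m K F ∧
      ∀ q ∈ range K ×ˢ range K, CtAt (cen n m q.1 q.2) a m F) ≤
      Pr P (boxE (n + 2 * m)) (Big ((K : ℝ) ^ 2 * (a * ((m : ℝ) ^ 2 * ar m))) n) :=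
    Pr_mono w_ok (fun F _ hF => grid_big hm hK hF.1 hF.2)
  refine le_trans ?_ (hall.trans hfin)
  calc (c * d) ^ (K ^ 2) = d ^ (K ^ 2) * c ^ (K * K) := by rw [mul_pow, mul_comm, sq K]
    _ ≤ q0 ^ (K + 1) * q0 ^ (K + 1) * c ^ (K * K) :=
        mul_le_mul_of_nonneg_right k3 (pow_nonneg hc.le _)

end Pool.Agent.Y244.PC
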