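import Pool.Agent.H160R2.CV.InfMax

/-!
The law of the size of the largest cluster in terms of finite volume probabilities.
-/

set_option autoImplicit false

namespace Pool.Agent.Y244.PC
open Finset H974 Pool.Agent.H160R2.CV

theorem le_maxCl_real (n : ℕ) (y : ℝ) (ω : sqLattice.edgeSet → Bool) :
    y ≤ (maxCl n ω : ℝ) ↔ Big y n (FF (boxE n) ω) := by
  have h2 : y ≤ (maxCl n ω : ℝ) ↔ ⌈y⌉₊ ≤ maxCl n ω := Nat.ceil_le.symm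
  rw [h2, InfMax.le_maxCl_iff]
  constructor
  · rintro ⟨v, hv, T, hT, hr⟩
    exact ⟨v, hv, T, (Nat.le_ceil y).trans hT, hr⟩
  · rintro ⟨v, hv, T, hT, hr⟩
    exact ⟨v, hv, T, by exact_mod_cast Nat.ceil_le.mpr hT, hr⟩

theorem maxCl_ge (n : ℕ) (y : ℝ) :
    (bondLaw hlf).real {ω | y ≤ (maxCl n ω : ℝ)} = Pr P (boxE n) (Big y n) := by
  have h1 : {ω : sqLattice.edgeSet → Bool | y ≤ (maxCl n ω : ℝ)} =
      {ω | Big y n (FF (boxE n) ω)} := by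
    ext ω
    exact le_maxCl_real n y ω
  rw [h1, law_event]
  rfl

theorem maxCl_le (n : ℕ) {y : ℝ} (hy : 0 ≤ y) :
    (bondLaw hlf).real {ω | (maxCl n ω : ℝ) ≤ y} =
      Pr P (boxE n) (fun F => ¬ Big ((⌊y⌋₊ : ℝ) + 1) n F) := by
  have h1 : {ω : sqLattice.edgeSet → Bool | (maxCl n ω : ℝ) ≤ y} =
      {ω | ¬ Big ((⌊y⌋₊ : ℝ) + 1) n (FF (boxE n) ω)} := by
    ext ω
    show (maxCl n ω : ℝ) ≤ y ↔ ¬ Big ((⌊y⌋₊ : ℝ) + 1) n (FF (boxE n) ω)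
    have h3 : ((⌊y⌋₊ : ℝ) + 1) = ((⌊y⌋₊ + 1 : ℕ) : ℝ) := by push_cast; ring
    rw [h3, ← InfMax.le_maxCl_iff, not_le, Nat.lt_succ_iff]
    exact (Nat.le_floor_iff hy).symm
  rw [h1, law_event hlf (boxE n) (fun F => ¬ Big ((⌊y⌋₊ : ℝ) + 1) n F)]
  rfl

end Pool.Agent.Y244.PC
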