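import Pool.Agent.Y244.PC.Loc

/-!
The lower tail of the largest cluster, upper bound: disjoint boxes are independent.
-/

set_option autoImplicit false

namespace Pool.Agent.Y244.PC
open Finset H974 Pool.Agent.H160R2.CV Pool.Agent.H160R2.CV.Quad H362P

/-- coordinate of the centre of a box -/
def ct (n m i : ℕ) : ℤ := -(n : ℤ) + (2 * m + 1) * i + m

theorem ct_ge (n m i : ℕ) : -(n : ℤ) ≤ ct n m i - m := by
  unfold ct
  have : (0 : ℤ) ≤ (2 * m + 1) * i := by positivity
  omega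

theorem ct_le {n m K i : ℕ} (hK : (2 * m + 1) * K ≤ 2 * n + 1) (hi : i < K) :
    ct n m i + m ≤ n := by
  unfold ct
  have h1 : (2 * m + 1) * (i + 1) ≤ 2 * n + 1 := (Nat.mul_le_mul_left _ hi).trans hK
  have h2 : (2 * (m : ℤ) + 1) * (i + 1) ≤ 2 * n + 1 := by exact_mod_cast h1
  linarith

theorem ct_sep {n m i j : ℕ} (h : i ≠ j) : 2 * m + 1 ≤ (ct n m i - ct n m j).natAbs := by
  have key : ∀ a b : ℕ, a < b → (2 * (m : ℤ) + 1) ≤ ct n m b - ct n m a := by
    intro a b hab
    unfold ct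
    have h1 : ((2 * m + 1) * (a + 1) : ℕ) ≤ (2 * m + 1) * b := Nat.mul_le_mul_left _ hab
    have h2 : (2 * (m : ℤ) + 1) * (a + 1) ≤ (2 * m + 1) * b := by exact_mod_cast h1
    linarith
  rcases Nat.lt_or_gt_of_ne h with h | h
  · have := key i j h
    omega
  · have := key j i h
    omega

theorem low_prob {n m K : ℕ} (hK : (2 * m + 1) * K ≤ 2 * n + 1) (N : ℝ) :
    Pr P (boxE n) (fun F => ¬ Big N n F) ≤ (1 - Pr P (boxE m) (Big N m)) ^ (K ^ 2) := by
  classical
  set I : Finset (ℕ × ℕ) := range K ×ˢ range K with hI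
  have hmem : ∀ q ∈ I, q.1 < K ∧ q.2 < K := by
    intro q hq
    rw [hI, Finset.mem_product, Finset.mem_range, Finset.mem_range] at hq
    exact hq
  have h1 : Pr P (boxE n) (fun F => ¬ Big N n F) ≤
      Pr P (boxE n) (fun F => ∀ q ∈ I, ¬ BigAt (ct n m q.1, ct n m q.2) N m F) := by
    apply Pr_mono w_ok
    intro F _ hF q hq hB
    obtain ⟨h1, h2⟩ := hmem q hq
    exact hF (Big_of_BigAt (ct_ge n m q.1) (ct_le hK h1) (ct_ge n m q.2) (ct_le hK h2) hB)
  have hsub : ∀ q ∈ I, bo (ct n m q.1, ct n m q.2) m ⊆ boxE n := by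
    intro q hq
    obtain ⟨h1, h2⟩ := hmem q hq
    exact bo_sub_boxE (ct_ge n m q.1) (ct_le hK h1) (ct_ge n m q.2) (ct_le hK h2)
  have h2 := indep_prod (p := P) (U := boxE n) I
    (fun q F => ¬ BigAt (ct n m q.1, ct n m q.2) N m F)
    (fun q => bo (ct n m q.1, ct n m q.2) m) hsub (by
      intro q _ q' _ hne
      apply bo_disj'
      unfold nv
      simp only [Prod.fst_sub, Prod.snd_sub]
      by_cases h : q.1 = q'.1
      · have h' : q.2 ≠ q'.2 := fun h'' => hne (Prod.ext h h'')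
        exact (ct_sep h').trans (le_max_right _ _)
      · exact (ct_sep h).trans (le_max_left _ _)) (by
      intro q _ F
      exact not_congr BigAt_local)
  rw [h2] at h1
  refine h1.trans (le_of_eq ?_)
  have h3 : ∀ q ∈ I, Pr P (boxE n) (fun F => ¬ BigAt (ct n m q.1, ct n m q.2) N m F) =
      1 - Pr P (boxE m) (Big N m) := by
    intro q hq
    rw [Pr_not, ← pr_BigAt (hsub q hq)]
  rw [Finset.prod_congr rfl h3, Finset.prod_const, hI, Finset.card_product, Finset.card_range, sq]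

end Pool.Agent.Y244.PC
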