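import Pool.Agent.Y244.PC.ManyLow
import Pool.Agent.Y244.PC.Law

/-!
The number of large clusters of a box and the ranked sizes of the clusters: law in terms of
finite volume probabilities.
-/

set_option autoImplicit false

namespace Pool.Agent.Y244.PC
open Finset H974 Pool.Agent.H160R2.CV

/-- the clusters of the box -/
def clusters (n : ℕ) (ω : sqLattice.edgeSet → Bool) : Set (Set (ℤ × ℤ)) :=
  {C | ∃ v ∈ bx n, C = {u | (boxGraph n ω).Reachable v u}}

/-- the number of clusters of the box with at least `V` vertices -/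
noncomputable def cnt (n : ℕ) (V : ℝ) (ω : sqLattice.edgeSet → Bool) : ℕ :=
  Set.ncard {C ∈ clusters n ω | V ≤ (C.ncard : ℝ)}

/-- the size of the `k`-th largest cluster of the box -/
noncomputable def rank (n k : ℕ) (ω : sqLattice.edgeSet → Bool) : ℕ :=
  sSup {m : ℕ | k ≤ cnt n m ω}

theorem clusters_finite (n : ℕ) (ω : sqLattice.edgeSet → Bool) : (clusters n ω).Finite := by
  have h : clusters n ω = (fun v => {u | (boxGraph n ω).Reachable v u}) '' ↑(bx n) := by
    ext C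
    constructor
    · rintro ⟨v, hv, rfl⟩
      exact ⟨v, by exact_mod_cast hv, rfl⟩
    · rintro ⟨v, hv, rfl⟩
      exact ⟨v, by exact_mod_cast hv, rfl⟩
  rw [h]
  exact (Finset.finite_toSet _).image _

theorem big_finite (n : ℕ) (V : ℝ) (ω : sqLattice.edgeSet → Bool) :
    {C ∈ clusters n ω | V ≤ (C.ncard : ℝ)}.Finite :=
  (clusters_finite n ω).subset (fun _ h => h.1)

theorem cl_fin (n : ℕ) (ω : sqLattice.edgeSet → Bool) (v : ℤ × ℤ) :
    {u | (boxGraph n ω).Reachable v u}.Finite := by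
  have h : {u | (boxGraph n ω).Reachable v u} = {u | Reach (opn ω ∩ ↑(boxE n)) v u} := by
    ext u
    exact InfMax.box_reach n ω v u
  rw [h]
  exact InfMax.fin_reach n ω v

theorem reach_FF (n : ℕ) (ω : sqLattice.edgeSet → Bool) (u v : ℤ × ℤ) :
    Reach (↑(FF (boxE n) ω) ∩ ↑(boxE n)) u v ↔ (boxGraph n ω).Reachable u v := by
  have hFF : (↑(FF (boxE n) ω) : Set Edg) ∩ ↑(boxE n) = opn ω ∩ ↑(boxE n) := by
    rw [FF_coe, Set.inter_assoc, Set.inter_self]
  rw [hFF]
  exact (InfMax.box_reach n ω u v).symm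

theorem cnt_iff (n : ℕ) (V : ℝ) (k : ℕ) (ω : sqLattice.edgeSet → Bool) :
    k ≤ cnt n V ω ↔ Many n V k (FF (boxE n) ω) := by
  classical
  unfold Many
  simp only [reach_FF]
  constructor
  · intro h
    unfold cnt at h
    rw [Set.ncard_eq_toFinset_card _ (big_finite n V ω)] at h
    obtain ⟨𝒞, h𝒞, hcard⟩ := Finset.exists_subset_card_eq h
    have hC : ∀ C ∈ 𝒞, (∃ v ∈ bx n, C = {u | (boxGraph n ω).Reachable v u}) ∧
        V ≤ (C.ncard : ℝ) := by
      intro C hC
      have := h𝒞 hC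
      rw [Set.Finite.mem_toFinset] at this
      exact this
    have hex : ∀ C : Set (ℤ × ℤ), ∃ v : ℤ × ℤ, C ∈ 𝒞 →
        v ∈ bx n ∧ C = {u | (boxGraph n ω).Reachable v u} := by
      intro C
      by_cases h1 : C ∈ 𝒞
      · obtain ⟨⟨v, hv, h2⟩, -⟩ := hC C h1
        exact ⟨v, fun _ => ⟨hv, h2⟩⟩
      · exact ⟨0, fun h => absurd h h1⟩
    choose f hf using hex
    have hinj : Set.InjOn f ↑𝒞 := by
      intro C h1 C' h2 heq
      rw [(hf C h1).2, (hf C' h2).2, heq]
    refine ⟨𝒞.image f, ?_, ?_, ?_, ?_⟩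
    · intro v hv
      rw [Finset.mem_image] at hv
      obtain ⟨C, h1, rfl⟩ := hv
      exact (hf C h1).1
    · rw [Finset.card_image_of_injOn hinj, hcard]
    · intro u hu v hv hne hr
      rw [Finset.mem_image] at hu hv
      obtain ⟨C, h1, rfl⟩ := hu
      obtain ⟨C', h2, rfl⟩ := hv
      apply hne
      congr 1
      rw [(hf C h1).2, (hf C' h2).2]
      ext w
      exact ⟨fun h => hr.symm.trans h, fun h => hr.trans h⟩
    · intro v hv
      rw [Finset.mem_image] at hv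
      obtain ⟨C, h1, rfl⟩ := hv
      refine ⟨(cl_fin n ω (f C)).toFinset, ?_, fun u hu => ?_⟩
      · rw [← Set.ncard_eq_toFinset_card _ (cl_fin n ω (f C))]
        have := (hC C h1).2
        rw [(hf C h1).2] at this
        exact this
      · rw [Set.Finite.mem_toFinset] at hu
        exact hu
  · rintro ⟨R, h1, h2, h3, h4⟩
    unfold cnt
    have hinj : Set.InjOn (fun v => {u | (boxGraph n ω).Reachable v u}) ↑R := by
      intro u hu v hv heq
      by_contra hne
      apply h3 u hu v hv hne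
      have : v ∈ {w | (boxGraph n ω).Reachable u w} := by
        have h5 : {w | (boxGraph n ω).Reachable u w} = {w | (boxGraph n ω).Reachable v w} := heq
        rw [h5]
        exact SimpleGraph.Reachable.refl v
      exact this
    rw [← h2, ← Finset.card_image_of_injOn hinj, ← Set.ncard_coe_finset]
    apply Set.ncard_le_ncard _ (big_finite n V ω)
    intro C hC
    rw [Finset.mem_coe, Finset.mem_image] at hC
    obtain ⟨v, hv, rfl⟩ := hC
    refine ⟨⟨v, h1 hv, rfl⟩, ?_⟩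
    obtain ⟨T, hT, hr⟩ := h4 v hv
    refine hT.trans ?_
    rw [← Set.ncard_coe_finset]
    exact_mod_cast Set.ncard_le_ncard (fun u hu => hr u hu) (cl_fin n ω v)

theorem law_cnt (n : ℕ) (V : ℝ) (k : ℕ) :
    (bondLaw hlf).real {ω | k ≤ cnt n V ω} = Pr P (boxE n) (Many n V k) := by
  have h1 : {ω | k ≤ cnt n V ω} = {ω | Many n V k (FF (boxE n) ω)} := by
    ext ω
    exact cnt_iff n V k ω
  rw [h1, law_event]
  rfl

theorem law_cnt_lt (n : ℕ) (V : ℝ) (k : ℕ) :
    (bondLaw hlf).real {ω | cnt n V ω < k} = Pr P (boxE n) (fun F => ¬ Many n V k F) := by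
  have h1 : {ω | cnt n V ω < k} = {ω | ¬ Many n V k (FF (boxE n) ω)} := by
    ext ω
    show cnt n V ω < k ↔ ¬ Many n V k (FF (boxE n) ω)
    rw [← cnt_iff, not_le]
  rw [h1, law_event hlf (boxE n) (fun F => ¬ Many n V k F)]
  rfl

theorem cnt_le (n : ℕ) (V : ℝ) (ω : sqLattice.edgeSet → Bool) : cnt n V ω ≤ (2 * n + 1) ^ 2 :=
  Many_card ((cnt_iff n V _ ω).mp le_rfl)

theorem cnt_anti {n : ℕ} {V V' : ℝ} (h : V ≤ V') (ω : sqLattice.edgeSet → Bool) :
    cnt n V' ω ≤ cnt n V ω :=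
  (cnt_iff n V _ ω).mpr (Many_mono h le_rfl ((cnt_iff n V' _ ω).mp le_rfl))

theorem cnt_ceil (n : ℕ) (y : ℝ) (ω : sqLattice.edgeSet → Bool) :
    cnt n (⌈y⌉₊ : ℝ) ω = cnt n y ω := by
  unfold cnt
  congr 1
  ext C
  constructor
  · rintro ⟨h1, h2⟩
    exact ⟨h1, (Nat.le_ceil y).trans h2⟩
  · rintro ⟨h1, h2⟩
    exact ⟨h1, by exact_mod_cast Nat.ceil_le.mpr h2⟩

/-- no cluster is larger than the box -/
theorem cnt_zero {n : ℕ} {V : ℝ} (hV : (2 * (n : ℝ) + 1) ^ 2 < V) (ω : sqLattice.edgeSet → Bool) :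
    cnt n V ω = 0 := by
  have h1 : ¬ 1 ≤ cnt n V ω := by
    rw [cnt_iff]
    rintro ⟨R, h1, h2, -, h4⟩
    obtain ⟨v, rfl⟩ := Finset.card_eq_one.mp h2
    have hv : v ∈ ({v} : Finset Vtx) := Finset.mem_singleton_self v
    obtain ⟨T, hT, hr⟩ := h4 v hv
    have hsub : T ⊆ bx n := fun u hu => w_reach_bx (h1 hv) (hr u hu)
    have h5 : (T.card : ℝ) ≤ ((bx n).card : ℝ) := by exact_mod_cast Finset.card_le_card hsub
    rw [w_card_bx] at h5
    linarith
  omega

theorem le_rank {n k : ℕ} (hk : 1 ≤ k) {m : ℕ} (hm : 1 ≤ m) (ω : sqLattice.edgeSet → Bool) :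
    m ≤ rank n k ω ↔ k ≤ cnt n m ω := by
  have hbdd : BddAbove {m : ℕ | k ≤ cnt n m ω} := by
    refine ⟨(2 * n + 1) ^ 2, fun m' hm' => ?_⟩
    by_contra hlt
    push Not at hlt
    have h1 : cnt n m' ω = 0 := by
      apply cnt_zero
      have : (((2 * n + 1) ^ 2 : ℕ) : ℝ) < m' := by exact_mod_cast hlt
      push_cast at this
      exact this
    have h2 : k ≤ cnt n m' ω := hm'
    omega
  constructor
  · intro h
    have hne : {m : ℕ | k ≤ cnt n m ω}.Nonempty := by
      by_contra hemp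
      rw [Set.not_nonempty_iff_eq_empty] at hemp
      unfold rank at h
      rw [hemp, csSup_empty, bot_eq_zero] at h
      omega
    have h1 : k ≤ cnt n (rank n k ω : ℕ) ω := Nat.sSup_mem hne hbdd
    exact h1.trans (cnt_anti (by exact_mod_cast h) ω)
  · intro h
    exact le_csSup hbdd h

theorem le_rank_real {n k : ℕ} (hk : 1 ≤ k) {y : ℝ} (hy : 0 < y) (ω : sqLattice.edgeSet → Bool) :
    y ≤ (rank n k ω : ℝ) ↔ k ≤ cnt n y ω := by
  rw [← Nat.ceil_le, le_rank hk (Nat.one_le_ceil_iff.mpr hy), cnt_ceil]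

theorem rank_anti {n k k' : ℕ} (hk : 1 ≤ k) (h : k ≤ k') (ω : sqLattice.edgeSet → Bool) :
    rank n k' ω ≤ rank n k ω := by
  rcases Nat.eq_zero_or_pos (rank n k' ω) with h0 | h0
  · omega
  · rw [le_rank hk h0]
    exact h.trans ((le_rank (by omega) h0 ω).mp le_rfl)

theorem rank_one (n : ℕ) (ω : sqLattice.edgeSet → Bool) {y : ℝ} (hy : 0 < y) :
    y ≤ (rank n 1 ω : ℝ) ↔ y ≤ (maxCl n ω : ℝ) := by
  rw [le_rank_real le_rfl hy, cnt_iff, le_maxCl_real]
  constructor
  · rintro ⟨R, h1, h2, -, h4⟩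
    obtain ⟨v, rfl⟩ := Finset.card_eq_one.mp h2
    have hv : v ∈ ({v} : Finset Vtx) := Finset.mem_singleton_self v
    obtain ⟨T, hT, hr⟩ := h4 v hv
    exact ⟨v, h1 hv, T, hT, hr⟩
  · rintro ⟨v, hv, T, hT, hr⟩
    refine ⟨{v}, by simpa using hv, Finset.card_singleton v, ?_, ?_⟩
    · intro u hu w hw hne
      rw [Finset.mem_singleton] at hu hw
      exact absurd (hu.trans hw.symm) hne
    · intro u hu
      rw [Finset.mem_singleton] at hu
      rw [hu]
      exact ⟨T, hT, hr⟩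

end Pool.Agent.Y244.PC
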