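import Pool.Agent.Y244.PC.ManyUp
import Pool.Agent.Y244.PC.Low

/-!
The number of large clusters of a box: lower bound.
-/

set_option autoImplicit false

namespace Pool.Agent.Y244.PC
open Finset H974 Pool.Agent.H160R2.CV Pool.Agent.H160R2.CV.Quad H362P Pool.Agent.H389R2.CD

theorem Ex_indep_prod {E : Type*} [DecidableEq E] {p : E → ℝ} {U : Finset E} {ι : Type*}
    (I : Finset ι) (f : ι → Finset E → ℝ) (S : ι → Finset E) (hS : ∀ i ∈ I, S i ⊆ U)
    (hd : ∀ i ∈ I, ∀ j ∈ I, i ≠ j → Disjoint (S i) (S j))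
    (hl : ∀ i ∈ I, ∀ F, f i F = f i (F ∩ S i)) :
    Ex p U (fun F => ∏ i ∈ I, f i F) = ∏ i ∈ I, Ex p U (f i) := by
  classical
  induction I using Finset.induction_on with
  | empty =>
    simp only [Finset.prod_empty]
    exact Ex_const p U 1
  | insert a I ha ih =>
    rw [Finset.prod_insert ha, ← ih (fun i hi => hS i (Finset.mem_insert_of_mem hi))
      (fun i hi j hj => hd i (Finset.mem_insert_of_mem hi) j (Finset.mem_insert_of_mem hj))
      (fun i hi => hl i (Finset.mem_insert_of_mem hi)),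
      ← Ex_mul_indep (S := S a) (T := I.biUnion S) (hS a (Finset.mem_insert_self _ _))]
    · apply Ex_congr
      intro F _
      rw [Finset.prod_insert ha]
    · intro e he
      rw [Finset.mem_biUnion] at he
      obtain ⟨i, hi, he⟩ := he
      exact hS i (Finset.mem_insert_of_mem hi) he
    · rw [Finset.disjoint_biUnion_right]
      intro i hi
      apply hd a (Finset.mem_insert_self _ _) i (Finset.mem_insert_of_mem hi)
      rintro rfl
      exact ha hi
    · intro F _
      exact hl a (Finset.mem_insert_self _ _) F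
    · intro F _
      apply Finset.prod_congr rfl
      intro i hi
      rw [hl i (Finset.mem_insert_of_mem hi) F,
        hl i (Finset.mem_insert_of_mem hi) (F ∩ I.biUnion S)]
      have e : F ∩ I.biUnion S ∩ S i = F ∩ S i := by
        rw [Finset.inter_assoc]
        congr 1
        rw [Finset.inter_eq_right]
        exact Finset.subset_biUnion_of_mem S hi
      rw [e]

/-- a simple Chernoff bound -/
theorem chernoff {E : Type*} [DecidableEq E] {p : E → ℝ} (hp : Ok p) {U : Finset E} {ι : Type*}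
    (I : Finset ι) (A : ι → Finset E → Prop) (S : ι → Finset E) (hS : ∀ i ∈ I, S i ⊆ U)
    (hd : ∀ i ∈ I, ∀ j ∈ I, i ≠ j → Disjoint (S i) (S j))
    (hl : ∀ i ∈ I, ∀ F, A i F ↔ A i (F ∩ S i)) {c : ℝ} (hc : 0 ≤ c)
    (hA : ∀ i ∈ I, c ≤ Pr p U (A i)) :
    Pr p U (fun F => ∑ i ∈ I, ind (A i F) ≤ c / 4 * I.card) ≤ Real.exp (-(c / 4 * I.card)) := by
  have h1 : ∀ F, ind (∑ i ∈ I, ind (A i F) ≤ c / 4 * I.card) ≤
      Real.exp (c / 4 * I.card) * ∏ i ∈ I, (1 - 1 / 2 * ind (A i F)) := by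
    intro F
    have hterm : ∀ i ∈ I, Real.exp (-ind (A i F)) ≤ 1 - 1 / 2 * ind (A i F) := by
      intro i _
      by_cases h : A i F
      · rw [ind_of h]
        have h3 : Real.exp (-1) = 1 / Real.exp 1 := by rw [Real.exp_neg, one_div]
        rw [h3]
        have h4 : 1 / Real.exp 1 ≤ 1 / 2 := by
          apply one_div_le_one_div_of_le (by norm_num)
          have := Real.add_one_le_exp (1 : ℝ)
          linarith
        linarith
      · rw [ind_not_of h]
        simp
    have hprod : Real.exp (-∑ i ∈ I, ind (A i F)) ≤ ∏ i ∈ I, (1 - 1 / 2 * ind (A i F)) := by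
      rw [← Finset.sum_neg_distrib, Real.exp_sum]
      exact Finset.prod_le_prod (fun i _ => (Real.exp_pos _).le) hterm
    by_cases h : ∑ i ∈ I, ind (A i F) ≤ c / 4 * I.card
    · rw [ind_of h]
      calc (1 : ℝ) ≤ Real.exp (c / 4 * I.card) * Real.exp (-∑ i ∈ I, ind (A i F)) := by
            rw [← Real.exp_add]
            apply Real.one_le_exp
            linarith
        _ ≤ _ := mul_le_mul_of_nonneg_left hprod (Real.exp_pos _).le
    · rw [ind_not_of h]
      exact mul_nonneg (Real.exp_pos _).le ((Real.exp_pos _).le.trans hprod)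
  have h2 : Pr p U (fun F => ∑ i ∈ I, ind (A i F) ≤ c / 4 * I.card) ≤
      Real.exp (c / 4 * I.card) * ∏ i ∈ I, Ex p U (fun F => 1 - 1 / 2 * ind (A i F)) := by
    unfold Pr
    refine (Ex_mono hp (fun F _ => h1 F)).trans (le_of_eq ?_)
    rw [Ex_mul_left, Ex_indep_prod I (fun i F => 1 - 1 / 2 * ind (A i F)) S hS hd]
    intro i hi F
    show 1 - 1 / 2 * ind (A i F) = 1 - 1 / 2 * ind (A i (F ∩ S i))
    rw [ind_congr (hl i hi F)]
  have h3 : ∀ i ∈ I, Ex p U (fun F => 1 - 1 / 2 * ind (A i F)) ≤ Real.exp (-(c / 2)) := by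
    intro i hi
    rw [Ex_sub, Ex_const, Ex_mul_left]
    have h4 : Ex p U (fun F => ind (A i F)) = Pr p U (A i) := rfl
    rw [h4]
    have h5 := hA i hi
    have h6 := Real.add_one_le_exp (-(c / 2))
    linarith
  have h4 : ∀ i ∈ I, 0 ≤ Ex p U (fun F => 1 - 1 / 2 * ind (A i F)) := by
    intro i _
    apply Ex_nonneg hp
    intro F _
    have := ind_le_one (A i F)
    linarith
  calc Pr p U (fun F => ∑ i ∈ I, ind (A i F) ≤ c / 4 * I.card)
      ≤ Real.exp (c / 4 * I.card) * ∏ i ∈ I, Ex p U (fun F => 1 - 1 / 2 * ind (A i F)) := h2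
    _ ≤ Real.exp (c / 4 * I.card) * ∏ i ∈ I, Real.exp (-(c / 2)) := by
        apply mul_le_mul_of_nonneg_left _ (Real.exp_pos _).le
        exact Finset.prod_le_prod h4 h3
    _ = Real.exp (-(c / 4 * I.card)) := by
        rw [Finset.prod_const, ← Real.exp_nat_mul, ← Real.exp_add]
        congr 1
        ring

/-- a large cluster near `z` separated from the outside -/
def Is (z : Vtx) (V : ℝ) (m M : ℕ) (F : Finset Edg) : Prop :=
  BigAt z V m F ∧ ¬ Cr z m (M * m) F

theorem bo_mono {z : Vtx} {m n : ℕ} (h : m ≤ n) : bo z m ⊆ bo z n := by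
  unfold bo
  apply RE_subset <;> omega

theorem Is_local {z : Vtx} {V : ℝ} {m M : ℕ} (hM : 1 ≤ M) {F : Finset Edg} :
    Is z V m M F ↔ Is z V m M (F ∩ bo z (M * m)) := by
  have hsub : bo z m ⊆ bo z (M * m) := bo_mono (Nat.le_mul_of_pos_left m (by omega))
  unfold Is
  apply and_congr
  · rw [BigAt_local, BigAt_local (F := F ∩ bo z (M * m))]
    have e : F ∩ bo z (M * m) ∩ bo z m = F ∩ bo z m := by
      rw [Finset.inter_assoc, Finset.inter_eq_right.mpr hsub]
    rw [e]
  · apply not_congr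
    have h1 := Cr_loc (v := z) (r := m) (n := M * m) F
    have h2 := Cr_loc (v := z) (r := m) (n := M * m) (F ∩ bo z (M * m))
    rw [h1, h2]
    have e : F ∩ bo z (M * m) ∩ (bo z (M * m) \ bo z m) = F ∩ (bo z (M * m) \ bo z m) := by
      rw [Finset.inter_assoc, Finset.inter_eq_right.mpr Finset.sdiff_subset]
    rw [e]

theorem pr_Is {z : Vtx} {V : ℝ} {m M : ℕ} (hM : 1 ≤ M) {S : Finset Edg}
    (hS : bo z (M * m) ⊆ S) {ε : ℝ} (hε : Pr P S (Cr z m (M * m)) ≤ ε) :
    Pr P (boxE m) (Big V m) * (1 - ε) ≤ Pr P S (Is z V m M) := by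
  have hsub : bo z m ⊆ bo z (M * m) := bo_mono (Nat.le_mul_of_pos_left m (by omega))
  have h1 : Pr P S (Is z V m M) = Pr P S (BigAt z V m) * Pr P S (fun F => ¬ Cr z m (M * m) F) :=
    Pr_indep (S := bo z m) (T := bo z (M * m) \ bo z m) (hsub.trans hS)
      (Finset.sdiff_subset.trans hS) Finset.disjoint_sdiff (A := BigAt z V m)
      (B := fun F => ¬ Cr z m (M * m) F) (fun F _ => BigAt_local)
      (fun F _ => not_congr (Cr_loc F))
  rw [h1, pr_BigAt (hsub.trans hS), Pr_not]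
  apply mul_le_mul_of_nonneg_left _ (Pr_nonneg w_ok _ _)
  linarith

/-- separated large clusters are distinct large clusters of the box -/
theorem Is_many {n m M K : ℕ} (hm : 1 ≤ m) (hM : 1 ≤ M) (hK : (2 * (M * m) + 1) * K ≤ 2 * n + 1)
    {V : ℝ} {F : Finset Edg} {J : Finset (ℕ × ℕ)} (hJ : J ⊆ range K ×ˢ range K)
    (hIs : ∀ q ∈ J, Is (ct n (M * m) q.1, ct n (M * m) q.2) V m M F) :
    Many n V J.card F := by
  classical
  have hmem : ∀ q ∈ J, q.1 < K ∧ q.2 < K := by
    intro q hq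
    have := hJ hq
    rw [Finset.mem_product, Finset.mem_range, Finset.mem_range] at this
    exact this
  have hmM : m ≤ M * m := Nat.le_mul_of_pos_left m (by omega)
  have hex : ∀ q : ℕ × ℕ, ∃ v : Vtx, q ∈ J → (nv (v - (ct n (M * m) q.1, ct n (M * m) q.2)) ≤ m ∧
      ∃ T : Finset Vtx, V ≤ (T.card : ℝ) ∧
        ∀ u ∈ T, Reach (↑F ∩ ↑(bo (ct n (M * m) q.1, ct n (M * m) q.2) m)) v u) := by
    intro q
    by_cases hq : q ∈ J
    · obtain ⟨v, hv⟩ := BigAt_iff.mp (hIs q hq).1
      exact ⟨v, fun _ => hv⟩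
    · exact ⟨0, fun h => absurd h hq⟩
  choose v hv using hex
  -- the centres are far apart
  have hfar : ∀ q ∈ J, ∀ q' ∈ J, q ≠ q' →
      M * m ≤ nv (v q' - (ct n (M * m) q.1, ct n (M * m) q.2)) := by
    intro q hq q' hq' hne
    have h1 := (hv q' hq').1
    unfold nv at h1 ⊢
    simp only [Prod.fst_sub, Prod.snd_sub] at h1 ⊢
    by_cases h : q.1 = q'.1
    · have h' : q.2 ≠ q'.2 := fun h'' => hne (Prod.ext h h'')
      have := ct_sep (n := n) (m := M * m) h'
      omega
    · have := ct_sep (n := n) (m := M * m) h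
      omega
  have hnr : ∀ q ∈ J, ∀ q' ∈ J, q ≠ q' → ¬ Reach (↑F) (v q) (v q') := by
    intro q hq q' hq' hne hr
    exact (hIs q hq).2 (Cr_of_reach (hv q hq).1 hmM (hfar q hq q' hq' hne) hr)
  have hinj : Set.InjOn v ↑J := by
    intro q hq q' hq' heq
    by_contra hne
    apply hnr q hq q' hq' hne
    rw [heq]
    exact Reach.refl _ _
  refine ⟨J.image v, ?_, Finset.card_image_of_injOn hinj, ?_, ?_⟩
  · intro u hu
    rw [Finset.mem_image] at hu
    obtain ⟨q, hq, rfl⟩ := hu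
    have h1 := (hv q hq).1
    obtain ⟨h2, h3⟩ := hmem q hq
    have a1 := ct_ge n (M * m) q.1
    have a2 := ct_ge n (M * m) q.2
    have a3 := ct_le hK h2
    have a4 := ct_le hK h3
    have a5 : (m : ℤ) ≤ ((M * m : ℕ) : ℤ) := by exact_mod_cast hmM
    unfold nv at h1
    simp only [Prod.fst_sub, Prod.snd_sub] at h1
    rw [w_mem_bx]
    omega
  · intro u hu w hw hne hr
    rw [Finset.mem_image] at hu hw
    obtain ⟨q, hq, rfl⟩ := hu
    obtain ⟨q', hq', rfl⟩ := hw
    apply hnr q hq q' hq' _ (hr.mono Set.inter_subset_left)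
    rintro rfl
    exact hne rfl
  · intro u hu
    rw [Finset.mem_image] at hu
    obtain ⟨q, hq, rfl⟩ := hu
    obtain ⟨T, hT, hr⟩ := (hv q hq).2
    obtain ⟨h2, h3⟩ := hmem q hq
    have a1 := ct_ge n (M * m) q.1
    have a2 := ct_ge n (M * m) q.2
    have a3 := ct_le hK h2
    have a4 := ct_le hK h3
    have a5 : (m : ℤ) ≤ ((M * m : ℕ) : ℤ) := by exact_mod_cast hmM
    refine ⟨T, hT, fun u hu => (hr u hu).mono (Set.inter_subset_inter_right _ ?_)⟩
    have : bo (ct n (M * m) q.1, ct n (M * m) q.2) m ⊆ boxE n := by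
      apply bo_sub_boxE <;> simp only <;> omega
    exact_mod_cast this

theorem isol_count {n m M K : ℕ} (hm : 1 ≤ m) (hM : 1 ≤ M)
    (hK : (2 * (M * m) + 1) * K ≤ 2 * n + 1) {V c : ℝ} (hc : 0 ≤ c)
    (hp : ∀ q ∈ range K ×ˢ range K, c ≤ Pr P (boxE n)
      (Is (ct n (M * m) q.1, ct n (M * m) q.2) V m M)) {k : ℕ} (hk : (k : ℝ) ≤ c / 4 * K ^ 2 + 1) :
    Pr P (boxE n) (fun F => ¬ Many n V k F) ≤ Real.exp (-(c / 4 * K ^ 2)) := by
  classical
  set I : Finset (ℕ × ℕ) := range K ×ˢ range K with hI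
  have hcard : I.card = K ^ 2 := by
    rw [hI, Finset.card_product, Finset.card_range, pow_two]
  have hmem : ∀ q ∈ I, q.1 < K ∧ q.2 < K := by
    intro q hq
    rw [hI, Finset.mem_product, Finset.mem_range, Finset.mem_range] at hq
    exact hq
  have hch := chernoff w_ok (U := boxE n) I
    (fun q => Is (ct n (M * m) q.1, ct n (M * m) q.2) V m M)
    (fun q => bo (ct n (M * m) q.1, ct n (M * m) q.2) (M * m)) (by
      intro q hq
      obtain ⟨h1, h2⟩ := hmem q hq
      exact bo_sub_boxE (ct_ge n (M * m) q.1) (ct_le hK h1) (ct_ge n (M * m) q.2) (ct_le hK h2))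
    (by
      intro q _ q' _ hne
      apply bo_disj'
      unfold nv
      simp only [Prod.fst_sub, Prod.snd_sub]
      by_cases h : q.1 = q'.1
      · have h' : q.2 ≠ q'.2 := fun h'' => hne (Prod.ext h h'')
        exact (ct_sep h').trans (le_max_right _ _)
      · exact (ct_sep h).trans (le_max_left _ _))
    (fun q _ F => Is_local hM) hc hp
  rw [hcard] at hch
  push_cast at hch
  refine le_trans (Pr_mono w_ok ?_) hch
  intro F _ hF
  by_contra hlt
  push Not at hlt
  apply hF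
  set J := I.filter (fun q => Is (ct n (M * m) q.1, ct n (M * m) q.2) V m M F) with hJ
  have h1 : Many n V J.card F := by
    apply Is_many hm hM hK (Finset.filter_subset _ _)
    intro q hq
    exact (Finset.mem_filter.mp hq).2
  refine Many_mono le_rfl ?_ h1
  have h2 : ∑ q ∈ I, ind (Is (ct n (M * m) q.1, ct n (M * m) q.2) V m M F) = (J.card : ℝ) :=
    w_sum_ind _ _
  have h3 : (k : ℝ) < J.card + 1 := by
    have : c / 4 * (K : ℝ) ^ 2 < J.card := by
      rw [← h2]
      exact hlt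
    linarith
  have h4 : k < J.card + 1 := by exact_mod_cast h3
  omega

/-- the number of large clusters, lower bound -/
theorem many_lower (hAr : ArS) : ∃ c C : ℝ, 0 < c ∧ 0 < C ∧ ∀ n : ℕ, 1 ≤ n → ∀ V : ℝ, 1 ≤ V →
    V ≤ (n : ℝ) ^ (91 / 48 : ℝ) → ∀ k : ℕ, (k : ℝ) ≤ c * ((n : ℝ) ^ 2 * V ^ (-(96 / 91 : ℝ))) + 1 →
    Pr P (boxE n) (fun F => ¬ Many n V k F) ≤
      C * Real.exp (-(c * ((n : ℝ) ^ 2 * V ^ (-(96 / 91 : ℝ))))) := by
  obtain ⟨M, hM3, hM⟩ := crossing_small hAr (1 / 2) (by norm_num)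
  obtain ⟨c1, hc1, n0, hlow⟩ := max_lower1
  obtain ⟨c0, C0, hc0, hC0, har⟩ := hAr
  have hM0 : (0 : ℝ) < M := by exact_mod_cast (by omega : 0 < M)
  set B : ℝ := (1 / (c1 * c0)) ^ (48 / 91 : ℝ) with hB
  have hB0 : 0 < B := by positivity
  set D : ℝ := n0 + 2 + B with hD
  have hD0 : 0 < D := by positivity
  have hc11 : c1 ≤ 1 := (hlow n0 le_rfl).trans (Pr_le_one w_ok _ _)
  set e : ℝ := c1 / 8 / (3 * M * D) ^ 2 with he
  have he0 : 0 < e := by positivity
  refine ⟨e, Real.exp (e * (M * D) ^ 2), he0, Real.exp_pos _, ?_⟩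
  intro n hn V hV hVn k hk
  have hn0 : (0 : ℝ) < n := by exact_mod_cast hn
  have hV0 : 0 < V := by linarith
  set w : ℝ := V ^ (48 / 91 : ℝ) with hw
  have hw1 : 1 ≤ w := Real.one_le_rpow hV (by norm_num)
  have hw0 : 0 < w := by linarith
  set m : ℕ := max (n0 + 1) ⌈B * w⌉₊ with hm
  have hm1 : 1 ≤ m := le_trans (by omega) (le_max_left _ _)
  have hmn0 : n0 ≤ m := le_trans (by omega) (le_max_left _ _)
  have hm0 : (0 : ℝ) < m := by exact_mod_cast hm1
  have hmB : B * w ≤ m := (Nat.le_ceil _).trans (by exact_mod_cast le_max_right _ _)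
  have hmD : (m : ℝ) ≤ D * w := by
    rw [hm, Nat.cast_max]
    apply max_le
    · push_cast
      rw [hD]
      nlinarith [Nat.cast_nonneg (α := ℝ) n0]
    · have := Nat.ceil_lt_add_one (a := B * w) (by positivity)
      rw [hD]
      nlinarith [Nat.cast_nonneg (α := ℝ) n0]
  have hΛ : (n : ℝ) ^ 2 * V ^ (-(96 / 91 : ℝ)) = (n / w) ^ 2 := by
    have h1 : w ^ 2 = V ^ (96 / 91 : ℝ) := by
      rw [hw, rpow_sq' hV0.le]
      norm_num
    rw [div_pow, h1, Real.rpow_neg hV0.le, ← div_eq_mul_inv]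
  rw [hΛ] at hk ⊢
  by_cases hmn : M * m ≤ n
  · set K : ℕ := (2 * n + 1) / (2 * (M * m) + 1) with hK
    have hMm1 : 1 ≤ M * m := Nat.mul_pos (by omega) hm1
    have hK2 : (2 * (M * m) + 1) * K ≤ 2 * n + 1 := by
      rw [mul_comm]
      exact Nat.div_mul_le_self _ _
    have hK3 : n ≤ 3 * (M * m) * K := by
      have hK1 : 1 ≤ K := by
        rw [hK, Nat.le_div_iff_mul_le (by omega)]
        omega
      have h1 : 2 * n + 1 < (K + 1) * (2 * (M * m) + 1) := by
        rw [hK]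
        exact Nat.lt_mul_of_div_lt (Nat.lt_succ_self _) (by omega)
      nlinarith
    have hVm : V ≤ c1 * ((m : ℝ) ^ 2 * ar m) := by
      have h4 : (m : ℝ) ^ 2 * ar m ≥ c0 * (m : ℝ) ^ (91 / 48 : ℝ) := by
        have h13 := (har m hm1).1
        have h14 : (m : ℝ) ^ (91 / 48 : ℝ) = (m : ℝ) ^ 2 * (m : ℝ) ^ (-(5 / 48 : ℝ)) := by
          rw [← Real.rpow_natCast (m : ℝ) 2, ← Real.rpow_add hm0]
          norm_num
        rw [h14]
        have : (0 : ℝ) ≤ (m : ℝ) ^ 2 := by positivity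
        nlinarith
      have h6 : (B * w) ^ (91 / 48 : ℝ) ≤ (m : ℝ) ^ (91 / 48 : ℝ) :=
        Real.rpow_le_rpow (by positivity) hmB (by norm_num)
      have h7 : (B * w) ^ (91 / 48 : ℝ) = 1 / (c1 * c0) * V := by
        rw [Real.mul_rpow hB0.le hw0.le, hw, hB, ← Real.rpow_mul (by positivity),
          ← Real.rpow_mul hV0.le]
        norm_num
      rw [h7] at h6
      calc V = c1 * c0 * (1 / (c1 * c0) * V) := by field_simp
        _ ≤ c1 * c0 * (m : ℝ) ^ (91 / 48 : ℝ) := mul_le_mul_of_nonneg_left h6 (by positivity)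
        _ = c1 * (c0 * (m : ℝ) ^ (91 / 48 : ℝ)) := by ring
        _ ≤ _ := mul_le_mul_of_nonneg_left h4 hc1.le
    have hp : ∀ q ∈ range K ×ˢ range K, c1 / 2 ≤ Pr P (boxE n)
        (Is (ct n (M * m) q.1, ct n (M * m) q.2) V m M) := by
      intro q hq
      rw [Finset.mem_product, Finset.mem_range, Finset.mem_range] at hq
      have hsub : bo (ct n (M * m) q.1, ct n (M * m) q.2) (M * m) ⊆ boxE n :=
        bo_sub_boxE (ct_ge n (M * m) q.1) (ct_le hK2 hq.1) (ct_ge n (M * m) q.2)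
          (ct_le hK2 hq.2)
      have h1 := pr_Is (V := V) (by omega : 1 ≤ M) hsub (hM (boxE n) _ m hm1)
      have h2 : c1 ≤ Pr P (boxE m) (Big V m) :=
        (hlow m hmn0).trans (Pr_mono w_ok fun F _ hF => big_le hVm hF)
      linarith
    have hle : (n / w) ^ 2 ≤ (3 * M * D) ^ 2 * (K : ℝ) ^ 2 := by
      rw [← mul_pow]
      apply pow_le_pow_left₀ (by positivity)
      rw [div_le_iff₀ hw0]
      have h7 : (n : ℝ) ≤ 3 * (M * m) * K := by exact_mod_cast hK3
      calc (n : ℝ) ≤ 3 * (M * m) * K := h7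
        _ ≤ 3 * (M * (D * w)) * K := by
          apply mul_le_mul_of_nonneg_right _ (Nat.cast_nonneg K)
          apply mul_le_mul_of_nonneg_left _ (by norm_num)
          exact mul_le_mul_of_nonneg_left hmD hM0.le
        _ = _ := by ring
    have he2 : e * (n / w) ^ 2 ≤ c1 / 2 / 4 * (K : ℝ) ^ 2 := by
      calc e * (n / w) ^ 2 ≤ e * ((3 * M * D) ^ 2 * (K : ℝ) ^ 2) :=
            mul_le_mul_of_nonneg_left hle he0.le
        _ = c1 / 2 / 4 * (K : ℝ) ^ 2 := by
            rw [he]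
            field_simp
            ring
    have hfin := isol_count hm1 (by omega : 1 ≤ M) hK2 (by positivity) hp (k := k) (by linarith)
    refine hfin.trans ?_
    calc Real.exp (-(c1 / 2 / 4 * (K : ℝ) ^ 2)) ≤ Real.exp (-(e * (n / w) ^ 2)) := by
          apply Real.exp_le_exp.mpr
          linarith
      _ = 1 * Real.exp (-(e * (n / w) ^ 2)) := (one_mul _).symm
      _ ≤ _ := by
          apply mul_le_mul_of_nonneg_right _ (Real.exp_pos _).le
          apply Real.one_le_exp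
          positivity
  · push Not at hmn
    refine (Pr_le_one w_ok _ _).trans ?_
    rw [← Real.exp_add]
    apply Real.one_le_exp
    have h1 : (n : ℝ) / w ≤ M * D := by
      rw [div_le_iff₀ hw0]
      have h2 : (n : ℝ) ≤ M * m := by exact_mod_cast hmn.le
      calc (n : ℝ) ≤ M * m := h2
        _ ≤ M * (D * w) := mul_le_mul_of_nonneg_left hmD hM0.le
        _ = _ := by ring
    have h3 : (n / w) ^ 2 ≤ (M * D) ^ 2 := pow_le_pow_left₀ (by positivity) h1 2
    have h4 := mul_le_mul_of_nonneg_left h3 he0.le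
    linarith

end Pool.Agent.Y244.PC
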