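import Pool.Agent.Y244.PC.Mom
import Pool.Agent.Y244.PC.Grid
import Pool.Agent.Y244.PC.Low
import Pool.Agent.Y244.PC.Conf

/-!
Both tails of the size of the largest cluster, both bounds, in finite volume.
-/

set_option autoImplicit false

namespace Pool.Agent.Y244.PC
open Finset H974 Pool.Agent.H160R2.CV Pool.Agent.H160R2.CV.Quad H362P

/-! ### extreme configurations -/

theorem card_boxE {n : ℕ} (hn : 1 ≤ n) : (boxE n).card ≤ 18 * n ^ 2 := by
  have h1 : boxE n ⊆ Finset.Icc (-(n : ℤ)) n ×ˢ (Finset.Icc (-(n : ℤ)) n ×ˢ Finset.univ) := by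
    unfold boxE RE
    exact Finset.filter_subset _ _
  refine (Finset.card_le_card h1).trans ?_
  rw [Finset.card_product, Finset.card_product, Int.card_Icc, Finset.card_univ, Fintype.card_bool]
  have : ((n : ℤ) + 1 - -(n : ℤ)).toNat = 2 * n + 1 := by omega
  rw [this]
  nlinarith

theorem single_prob {S G : Finset Edg} (hG : G ⊆ S) {A : Finset Edg → Prop} (hA : A G) :
    (1 / 2 : ℝ) ^ S.card ≤ Pr P S A := by
  unfold Pr Ex
  have h1 : (1 / 2 : ℝ) ^ S.card =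
      (∏ e ∈ G, P e) * (∏ e ∈ S \ G, (1 - P e)) * ind (A G) := by
    rw [ind_of hA, mul_one]
    unfold P
    have e1 : (1 - 1 / 2 : ℝ) = 1 / 2 := by norm_num
    rw [e1, Finset.prod_const, Finset.prod_const, ← pow_add]
    congr 1
    rw [Finset.card_sdiff_of_subset hG]
    have := Finset.card_le_card hG
    omega
  rw [h1]
  apply Finset.single_le_sum (f := fun F => (∏ e ∈ F, P e) * (∏ e ∈ S \ F, (1 - P e)) * ind (A F))
  · intro F _
    apply mul_nonneg _ (ind_nonneg _)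
    apply mul_nonneg
    · exact Finset.prod_nonneg fun e _ => (w_ok e).1
    · exact Finset.prod_nonneg fun e _ => by linarith [(w_ok e).2]
  · exact Finset.mem_powerset.mpr hG

theorem extreme_prob {n : ℕ} (hn : 1 ≤ n) {G : Finset Edg} (hG : G ⊆ boxE n)
    {A : Finset Edg → Prop} (hA : A G) : Real.exp (-(18 * (n : ℝ) ^ 2)) ≤ Pr P (boxE n) A := by
  refine le_trans ?_ (single_prob hG hA)
  have h1 : (1 / 2 : ℝ) ^ (18 * n ^ 2) ≤ (1 / 2 : ℝ) ^ (boxE n).card :=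
    pow_le_pow_of_le_one (by norm_num) (by norm_num) (card_boxE hn)
  refine le_trans ?_ h1
  have h2 : Real.exp (-(18 * (n : ℝ) ^ 2)) = Real.exp (-1) ^ (18 * n ^ 2) := by
    rw [← Real.exp_nat_mul]
    congr 1
    push_cast
    ring
  rw [h2]
  apply pow_le_pow_left₀ (Real.exp_pos _).le
  have h3 : Real.exp (-1) = 1 / Real.exp 1 := by rw [Real.exp_neg, one_div]
  rw [h3]
  apply one_div_le_one_div_of_le (by norm_num)
  have := Real.add_one_le_exp (1 : ℝ)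
  linarith

theorem full_row {n : ℕ} {y : ℤ} (hy : -(n : ℤ) ≤ y ∧ y ≤ n) (k : ℕ) (hk : k ≤ 2 * n) :
    Reach (↑(boxE n) ∩ ↑(boxE n)) (-(n : ℤ), y) (-(n : ℤ) + k, y) := by
  induction k with
  | zero =>
    rw [Nat.cast_zero, add_zero]
    exact Reach.refl _ _
  | succ k ih =>
    refine (ih (by omega)).trans (Adj.reach ⟨(-(n : ℤ) + k, y, true), ?_, ?_⟩)
    · rw [Set.inter_self, Finset.mem_coe]
      unfold boxE
      rw [mem_RE_true]
      push_cast at *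
      omega
    · left
      refine ⟨rfl, ?_⟩
      rw [tgt_true]
      push_cast
      rw [add_assoc]

theorem full_col {n : ℕ} (k : ℕ) (hk : k ≤ 2 * n) :
    Reach (↑(boxE n) ∩ ↑(boxE n)) (-(n : ℤ), -(n : ℤ)) (-(n : ℤ), -(n : ℤ) + k) := by
  induction k with
  | zero =>
    rw [Nat.cast_zero, add_zero]
    exact Reach.refl _ _
  | succ k ih =>
    refine (ih (by omega)).trans (Adj.reach ⟨(-(n : ℤ), -(n : ℤ) + k, false), ?_, ?_⟩)
    · rw [Set.inter_self, Finset.mem_coe]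
      unfold boxE
      rw [mem_RE_false]
      push_cast at *
      omega
    · left
      refine ⟨rfl, ?_⟩
      rw [tgt_false]
      push_cast
      rw [add_assoc]

theorem full_big {n : ℕ} {N : ℝ} (hN : N ≤ (2 * (n : ℝ) + 1) ^ 2) : Big N n (boxE n) := by
  refine ⟨(-(n : ℤ), -(n : ℤ)), ?_, bx n, ?_, ?_⟩
  · rw [w_mem_bx]
    simp only
    omega
  · rw [w_card_bx]
    exact hN
  · rintro ⟨x, y⟩ hu
    rw [w_mem_bx] at hu
    simp only at hu
    have h1 := full_col (n := n) (y + n).toNat (by omega)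
    have h2 := full_row (n := n) hu.2 (x + n).toNat (by omega)
    have e1 : -(n : ℤ) + ((y + n).toNat : ℤ) = y := by omega
    have e2 : -(n : ℤ) + ((x + n).toNat : ℤ) = x := by omega
    rw [e1] at h1
    rw [e2] at h2
    exact h1.trans h2

theorem empty_small {n : ℕ} {N : ℝ} (hN : 1 < N) : ¬ Big N n (∅ : Finset Edg) := by
  rintro ⟨v, hv, T, hT, hr⟩
  have h1 : T ⊆ {v} := by
    intro u hu
    have h2 := hr u hu
    rw [Finset.mem_singleton]
    have h3 : ∀ w, Reach (((∅ : Finset Edg) : Set Edg) ∩ ↑(boxE n)) v w → w = v := by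
      intro w hw
      induction hw with
      | refl => rfl
      | tail _ hs _ =>
        obtain ⟨e, ⟨he, -⟩, -⟩ := hs
        simp at he
    exact h3 u h2
  have h2 : (T.card : ℝ) ≤ 1 := by exact_mod_cast Finset.card_le_card h1
  linarith

theorem big_one (n : ℕ) (F : Finset Edg) : Big 1 n F :=
  ⟨(0, 0), by rw [w_mem_bx]; simp, {(0, 0)}, by simp, fun u hu => by
    rw [Finset.mem_singleton] at hu
    rw [hu]
    exact Reach.refl _ _⟩

theorem big_le {N N' : ℝ} (h : N' ≤ N) {n : ℕ} {F : Finset Edg} (hb : Big N n F) :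
    Big N' n F := by
  obtain ⟨v, hv, T, hT, hr⟩ := hb
  exact ⟨v, hv, T, h.trans hT, hr⟩

/-- exponentials and powers -/
theorem exp_le_pow {c : ℝ} (hc : 0 < c) (hc1 : c < 1) {K : ℕ} {y : ℝ} (h : (K : ℝ) ≤ y) :
    Real.exp (-(-Real.log c * y)) ≤ c ^ K := by
  have h1 : c ^ K = Real.exp (K * Real.log c) := by
    rw [mul_comm, Real.exp_mul, Real.exp_log hc, Real.rpow_natCast]
  rw [h1]
  apply Real.exp_le_exp.mpr
  have h2 : Real.log c < 0 := Real.log_neg hc hc1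
  nlinarith

theorem rpow_sq' {y s : ℝ} (hy : 0 ≤ y) : (y ^ s) ^ 2 = y ^ (2 * s) := by
  rw [← Real.rpow_natCast (y ^ s) 2, ← Real.rpow_mul hy]
  congr 1
  push_cast
  ring

/-! ### upper tail, lower bound -/

theorem upper_tail_lower (hAr : ArSharp) : ∃ C : ℝ, 0 < C ∧ ∀ n : ℕ, 1 ≤ n → ∀ x : ℝ,
    1 ≤ x → x * (n : ℝ) ^ (91 / 48 : ℝ) ≤ (2 * (n : ℝ) + 1) ^ 2 →
    Real.exp (-(C * x ^ (96 / 5 : ℝ))) ≤
      Pr P (boxE n) (Big (x * (n : ℝ) ^ (91 / 48 : ℝ)) n) := by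
  obtain ⟨a, c, ha, hc, hc1, hg⟩ := grid_prob
  obtain ⟨c0, C0, hc0, hC0, har⟩ := hAr
  set a1 : ℝ := a * c0 * (6 : ℝ) ^ (-(91 / 48 : ℝ)) with ha1
  have ha10 : 0 < a1 := by positivity
  set B : ℝ := (1 / a1) ^ (48 / 5 : ℝ) + 1 with hB
  have hB0 : 0 < B := by positivity
  have hlog : 0 < -Real.log c := by
    have := Real.log_neg hc hc1
    linarith
  refine ⟨-Real.log c * B ^ 2 + 162 * B ^ 2, by positivity, fun n hn x hx hxn => ?_⟩
  have hn0 : (0 : ℝ) < n := by exact_mod_cast hn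
  have hx0 : 0 < x := by linarith
  set K : ℕ := ⌈(x / a1) ^ (48 / 5 : ℝ)⌉₊ with hK
  have hK1 : 1 ≤ K := by
    rw [hK, Nat.one_le_ceil_iff]
    positivity
  have hKx : (x / a1) ^ (48 / 5 : ℝ) ≤ K := Nat.le_ceil _
  have hxp : (1 : ℝ) ≤ x ^ (48 / 5 : ℝ) := Real.one_le_rpow hx (by norm_num)
  have hKB : (K : ℝ) ≤ B * x ^ (48 / 5 : ℝ) := by
    have h1 : (K : ℝ) < (x / a1) ^ (48 / 5 : ℝ) + 1 := Nat.ceil_lt_add_one (by positivity)
    have h2 : (x / a1) ^ (48 / 5 : ℝ) = (1 / a1) ^ (48 / 5 : ℝ) * x ^ (48 / 5 : ℝ) := by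
      rw [← Real.mul_rpow (by positivity) hx0.le]
      congr 1
      ring
    rw [h2] at h1
    rw [hB]
    nlinarith
  have hxx : (x ^ (48 / 5 : ℝ)) ^ 2 = x ^ (96 / 5 : ℝ) := by
    rw [rpow_sq' hx0.le]
    norm_num
  have hK2 : ((K ^ 2 : ℕ) : ℝ) ≤ B ^ 2 * x ^ (96 / 5 : ℝ) := by
    rw [← hxx, ← mul_pow]
    push_cast
    exact pow_le_pow_left₀ (by positivity) hKB 2
  have hxq : (0 : ℝ) ≤ x ^ (96 / 5 : ℝ) := by positivity
  by_cases hcase : 2 * K + 1 ≤ n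
  · -- grid
    set m : ℕ := n / (2 * K + 1) with hm
    have hm1 : 1 ≤ m := by
      rw [hm, Nat.le_div_iff_mul_le (by omega)]
      omega
    have hm2 : m * (2 * K + 1) ≤ n := Nat.div_mul_le_self _ _
    have hm3 : n < (m + 1) * (2 * K + 1) := by
      rw [hm]
      exact Nat.lt_mul_of_div_lt (Nat.lt_succ_self _) (by omega)
    have h4 : 4 * m * K + 2 * m ≤ 2 * n := by nlinarith
    have h5 : 2 * n ≤ 8 * m + 12 * m * K := by nlinarith
    have h6 : n ≤ 6 * K * m := by nlinarith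
    have h7 := hg n m K hm1 hK1 h4 h5
    have hm0 : (0 : ℝ) < m := by exact_mod_cast hm1
    have hK0 : (0 : ℝ) < K := by exact_mod_cast hK1
    have h8 : x * (n : ℝ) ^ (91 / 48 : ℝ) ≤ (K : ℝ) ^ 2 * (a * ((m : ℝ) ^ 2 * ar m)) := by
      have h9 : x ≤ a1 * (K : ℝ) ^ (5 / 48 : ℝ) := by
        have h10 : ((x / a1) ^ (48 / 5 : ℝ)) ^ (5 / 48 : ℝ) ≤ (K : ℝ) ^ (5 / 48 : ℝ) :=
          Real.rpow_le_rpow (by positivity) hKx (by norm_num)
        rw [← Real.rpow_mul (by positivity)] at h10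
        norm_num at h10
        rwa [div_le_iff₀ ha10, mul_comm] at h10
      have h11 : (n : ℝ) ^ (91 / 48 : ℝ) ≤ (6 : ℝ) ^ (91 / 48 : ℝ) * (K : ℝ) ^ (91 / 48 : ℝ) *
          (m : ℝ) ^ (91 / 48 : ℝ) := by
        rw [← Real.mul_rpow (by positivity) (by positivity),
          ← Real.mul_rpow (by positivity) (by positivity)]
        apply Real.rpow_le_rpow hn0.le _ (by norm_num)
        exact_mod_cast h6
      have h12 : (m : ℝ) ^ 2 * ar m ≥ c0 * (m : ℝ) ^ (91 / 48 : ℝ) := by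
        have h13 := (har m hm1).1
        have h14 : (m : ℝ) ^ (91 / 48 : ℝ) = (m : ℝ) ^ 2 * (m : ℝ) ^ (-(5 / 48 : ℝ)) := by
          rw [← Real.rpow_natCast (m : ℝ) 2, ← Real.rpow_add hm0]
          norm_num
        rw [h14]
        have : (0 : ℝ) ≤ (m : ℝ) ^ 2 := by positivity
        nlinarith
      have h15 : (K : ℝ) ^ (5 / 48 : ℝ) * (K : ℝ) ^ (91 / 48 : ℝ) = (K : ℝ) ^ 2 := by
        rw [← Real.rpow_add hK0, ← Real.rpow_natCast (K : ℝ) 2]
        norm_num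
      have h16 : (6 : ℝ) ^ (-(91 / 48 : ℝ)) * (6 : ℝ) ^ (91 / 48 : ℝ) = 1 := by
        rw [← Real.rpow_add (by norm_num)]
        norm_num
      calc x * (n : ℝ) ^ (91 / 48 : ℝ)
          ≤ (a1 * (K : ℝ) ^ (5 / 48 : ℝ)) * ((6 : ℝ) ^ (91 / 48 : ℝ) * (K : ℝ) ^ (91 / 48 : ℝ) *
            (m : ℝ) ^ (91 / 48 : ℝ)) := mul_le_mul h9 h11 (by positivity) (by positivity)
        _ = (6 : ℝ) ^ (-(91 / 48 : ℝ)) * (6 : ℝ) ^ (91 / 48 : ℝ) *
            ((K : ℝ) ^ (5 / 48 : ℝ) * (K : ℝ) ^ (91 / 48 : ℝ)) *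
            (a * (c0 * (m : ℝ) ^ (91 / 48 : ℝ))) := by rw [ha1]; ring
        _ = (K : ℝ) ^ 2 * (a * (c0 * (m : ℝ) ^ (91 / 48 : ℝ))) := by rw [h16, h15, one_mul]
        _ ≤ _ := by
          apply mul_le_mul_of_nonneg_left _ (by positivity)
          exact mul_le_mul_of_nonneg_left h12 ha.le
    refine le_trans ?_ (h7.trans (Pr_mono w_ok fun F _ hF => big_le h8 hF))
    refine le_trans ?_ (exp_le_pow hc hc1 hK2)
    apply Real.exp_le_exp.mpr
    have : 0 ≤ 162 * B ^ 2 * x ^ (96 / 5 : ℝ) := by positivity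
    nlinarith
  · -- everything open
    push Not at hcase
    have h1 : (n : ℝ) ≤ 3 * (B * x ^ (48 / 5 : ℝ)) := by
      have : (n : ℝ) ≤ 3 * K := by exact_mod_cast (by omega : n ≤ 3 * K)
      linarith
    have h2 : (n : ℝ) ^ 2 ≤ 9 * (B ^ 2 * x ^ (96 / 5 : ℝ)) := by
      calc (n : ℝ) ^ 2 ≤ (3 * (B * x ^ (48 / 5 : ℝ))) ^ 2 := pow_le_pow_left₀ hn0.le h1 2
        _ = 9 * (B ^ 2 * x ^ (96 / 5 : ℝ)) := by rw [← hxx]; ring
    refine le_trans ?_ (extreme_prob hn (Finset.Subset.refl _) (full_big hxn))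
    apply Real.exp_le_exp.mpr
    have : 0 ≤ -Real.log c * B ^ 2 * x ^ (96 / 5 : ℝ) := by positivity
    nlinarith

/-! ### lower tail, lower bound -/

theorem lower_tail_lower (hAr : ArSharp) : ∃ C : ℝ, 0 < C ∧ ∀ n : ℕ, 1 ≤ n → ∀ x : ℝ,
    1 ≤ x → x ≤ (n : ℝ) ^ (91 / 48 : ℝ) →
    Real.exp (-(C * x ^ (96 / 91 : ℝ))) ≤
      Pr P (boxE n) (fun F => ¬ Big ((⌊(n : ℝ) ^ (91 / 48 : ℝ) / x⌋₊ : ℝ) + 1) n F) := by
  obtain ⟨a, c, ha, hc, hc1, hg⟩ := conf_prob
  obtain ⟨c0, C0, hc0, hC0, har⟩ := hAr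
  set b : ℝ := (a * C0) ^ (48 / 91 : ℝ) with hb
  have hb0 : 0 < b := by positivity
  set B : ℝ := 4 * b + 1 with hB
  have hB0 : 0 < B := by positivity
  have hlog : 0 < -Real.log c := by
    have := Real.log_neg hc hc1
    linarith
  refine ⟨-Real.log c * B ^ 2 + 162 * b ^ 2, by positivity, fun n hn x hx hxn => ?_⟩
  have hn0 : (0 : ℝ) < n := by exact_mod_cast hn
  have hx0 : 0 < x := by linarith
  have hxp : (1 : ℝ) ≤ x ^ (48 / 91 : ℝ) := Real.one_le_rpow hx (by norm_num)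
  have hxp0 : (0 : ℝ) < x ^ (48 / 91 : ℝ) := by positivity
  have hxx : (x ^ (48 / 91 : ℝ)) ^ 2 = x ^ (96 / 91 : ℝ) := by
    rw [rpow_sq' hx0.le]
    norm_num
  have hxq : (0 : ℝ) ≤ x ^ (96 / 91 : ℝ) := by positivity
  set N : ℝ := (n : ℝ) ^ (91 / 48 : ℝ) / x with hN
  have hN0 : 0 < N := by positivity
  have hN1 : 1 ≤ N := by
    rw [hN, le_div_iff₀ hx0]
    linarith
  set y : ℝ := n / (b * x ^ (48 / 91 : ℝ)) / 3 with hy
  have hy0 : 0 < y := by positivity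
  by_cases hcase : 1 ≤ y
  · set m : ℕ := ⌊y⌋₊ with hm
    have hm1 : 1 ≤ m := Nat.le_floor (by exact_mod_cast hcase)
    have hmy : (m : ℝ) ≤ y := Nat.floor_le hy0.le
    have hmy2 : y ≤ 2 * m := by
      have h1 := Nat.lt_floor_add_one y
      have h2 : (1 : ℝ) ≤ m := by exact_mod_cast hm1
      rw [← hm] at h1
      linarith
    have hm0 : (0 : ℝ) < m := by exact_mod_cast hm1
    set K : ℕ := (2 * n + 3 * m) / (3 * m) with hK
    have hK1 : 1 ≤ K := by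
      rw [hK, Nat.le_div_iff_mul_le (by omega)]
      omega
    have hK2 : 3 * m * K ≤ 2 * n + 3 * m := by
      rw [mul_comm]
      exact Nat.div_mul_le_self _ _
    have hK3 : 2 * n + 1 ≤ 3 * m * K := by
      have h1 : 2 * n + 3 * m < (K + 1) * (3 * m) := by
        rw [hK]
        exact Nat.lt_mul_of_div_lt (Nat.lt_succ_self _) (by omega)
      nlinarith
    have h7 := hg n m K hm1 hK1 hK3 hK2
    -- size of K
    have hKb : (K : ℝ) ≤ B * x ^ (48 / 91 : ℝ) := by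
      have h1 : (3 * (m : ℝ)) * K ≤ 2 * n + 3 * m := by exact_mod_cast hK2
      have h2 : (n : ℝ) = 3 * y * (b * x ^ (48 / 91 : ℝ)) := by
        rw [hy]
        field_simp
      have h3 : (3 * (m : ℝ)) * K ≤ (3 * m) * (4 * b * x ^ (48 / 91 : ℝ) + 1) := by
        have h4 : 0 ≤ b * x ^ (48 / 91 : ℝ) := by positivity
        nlinarith
      have h5 : (K : ℝ) ≤ 4 * b * x ^ (48 / 91 : ℝ) + 1 := le_of_mul_le_mul_left h3 (by positivity)
      rw [hB]
      nlinarith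
    have hK4 : ((K ^ 2 : ℕ) : ℝ) ≤ B ^ 2 * x ^ (96 / 91 : ℝ) := by
      rw [← hxx, ← mul_pow]
      push_cast
      exact pow_le_pow_left₀ (by positivity) hKb 2
    have h8 : a * (((3 * m : ℕ) : ℝ) ^ 2 * ar (3 * m)) ≤ N := by
      have h3m : (0 : ℝ) < ((3 * m : ℕ) : ℝ) := by positivity
      have h9 := (har (3 * m) (by omega)).2
      have h10 : ((3 * m : ℕ) : ℝ) ^ (91 / 48 : ℝ) =
          ((3 * m : ℕ) : ℝ) ^ 2 * ((3 * m : ℕ) : ℝ) ^ (-(5 / 48 : ℝ)) := by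
        rw [← Real.rpow_natCast ((3 * m : ℕ) : ℝ) 2, ← Real.rpow_add h3m]
        norm_num
      have h11 : ((3 * m : ℕ) : ℝ) ≤ n / (b * x ^ (48 / 91 : ℝ)) := by
        push_cast
        have : n / (b * x ^ (48 / 91 : ℝ)) = 3 * y := by rw [hy]; ring
        rw [this]
        linarith
      have h12 : ((3 * m : ℕ) : ℝ) ^ (91 / 48 : ℝ) ≤ N / (a * C0) := by
        calc ((3 * m : ℕ) : ℝ) ^ (91 / 48 : ℝ) ≤ (n / (b * x ^ (48 / 91 : ℝ))) ^ (91 / 48 : ℝ) :=
              Real.rpow_le_rpow h3m.le h11 (by norm_num)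
          _ = N / (a * C0) := by
              rw [Real.div_rpow hn0.le (by positivity), Real.mul_rpow hb0.le (by positivity), hb,
                ← Real.rpow_mul (by positivity), ← Real.rpow_mul hx0.le, hN]
              norm_num
              field_simp
      calc a * (((3 * m : ℕ) : ℝ) ^ 2 * ar (3 * m))
          ≤ a * (((3 * m : ℕ) : ℝ) ^ 2 * (C0 * ((3 * m : ℕ) : ℝ) ^ (-(5 / 48 : ℝ)))) := by
            apply mul_le_mul_of_nonneg_left _ ha.le
            exact mul_le_mul_of_nonneg_left h9 (by positivity)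
        _ = a * C0 * ((3 * m : ℕ) : ℝ) ^ (91 / 48 : ℝ) := by rw [h10]; ring
        _ ≤ a * C0 * (N / (a * C0)) := mul_le_mul_of_nonneg_left h12 (by positivity)
        _ = N := by field_simp
    refine le_trans ?_ (h7.trans (Pr_mono w_ok fun F _ hF hB' => hF (big_le ?_ hB')))
    · refine le_trans ?_ (exp_le_pow hc hc1 hK4)
      apply Real.exp_le_exp.mpr
      have : 0 ≤ 162 * b ^ 2 * x ^ (96 / 91 : ℝ) := by positivity
      nlinarith
    · exact h8.trans (Nat.lt_floor_add_one N).le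
  · push Not at hcase
    have h1 : (n : ℝ) ≤ 3 * (b * x ^ (48 / 91 : ℝ)) := by
      have h2 : (n : ℝ) = 3 * y * (b * x ^ (48 / 91 : ℝ)) := by
        rw [hy]
        field_simp
      have h4 : 0 ≤ b * x ^ (48 / 91 : ℝ) := by positivity
      nlinarith
    have h2 : (n : ℝ) ^ 2 ≤ 9 * (b ^ 2 * x ^ (96 / 91 : ℝ)) := by
      calc (n : ℝ) ^ 2 ≤ (3 * (b * x ^ (48 / 91 : ℝ))) ^ 2 := pow_le_pow_left₀ hn0.le h1 2
        _ = 9 * (b ^ 2 * x ^ (96 / 91 : ℝ)) := by rw [← hxx]; ring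
    have h3 : 1 < ((⌊N⌋₊ : ℝ) + 1) := by
      have : 1 ≤ ⌊N⌋₊ := Nat.le_floor (by exact_mod_cast hN1)
      have : (1 : ℝ) ≤ ⌊N⌋₊ := by exact_mod_cast this
      linarith
    refine le_trans ?_ (extreme_prob hn (Finset.empty_subset _)
      (A := fun F => ¬ Big ((⌊N⌋₊ : ℝ) + 1) n F) (empty_small h3))
    apply Real.exp_le_exp.mpr
    have : 0 ≤ -Real.log c * B ^ 2 * x ^ (96 / 91 : ℝ) := by positivity
    nlinarith

/-! ### lower tail, upper bound -/

theorem lower_tail_upper (hAr : ArSharp) : ∃ c C : ℝ, 0 < c ∧ 0 < C ∧ ∀ n : ℕ, 1 ≤ n → ∀ x : ℝ,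
    1 ≤ x → Pr P (boxE n) (fun F => ¬ Big ((⌊(n : ℝ) ^ (91 / 48 : ℝ) / x⌋₊ : ℝ) + 1) n F) ≤
      C * Real.exp (-(c * x ^ (96 / 91 : ℝ))) := by
  obtain ⟨c1, hc1, n0, hlow⟩ := max_lower1
  obtain ⟨c0, C0, hc0, hC0, har⟩ := hAr
  set B : ℝ := (2 / (c1 * c0)) ^ (48 / 91 : ℝ) with hB
  have hB0 : 0 < B := by positivity
  set D : ℝ := n0 + 2 + B with hD
  have hD0 : 0 < D := by positivity
  refine ⟨min (c1 / (9 * D ^ 2)) (1 / D ^ 2), Real.exp 1, by positivity, Real.exp_pos _,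
    fun n hn x hx => ?_⟩
  set c : ℝ := min (c1 / (9 * D ^ 2)) (1 / D ^ 2) with hc
  have hn0 : (0 : ℝ) < n := by exact_mod_cast hn
  have hx0 : 0 < x := by linarith
  have hxp : (1 : ℝ) ≤ x ^ (48 / 91 : ℝ) := Real.one_le_rpow hx (by norm_num)
  have hxp0 : (0 : ℝ) < x ^ (48 / 91 : ℝ) := by positivity
  have hxx : (x ^ (48 / 91 : ℝ)) ^ 2 = x ^ (96 / 91 : ℝ) := by
    rw [rpow_sq' hx0.le]
    norm_num
  have hxq : (0 : ℝ) ≤ x ^ (96 / 91 : ℝ) := by positivity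
  set N : ℝ := (n : ℝ) ^ (91 / 48 : ℝ) / x with hN
  have hN0 : 0 < N := by positivity
  have hexp : 0 < Real.exp 1 * Real.exp (-(c * x ^ (96 / 91 : ℝ))) := by positivity
  by_cases hN1 : N < 1
  · -- impossible event
    have h1 : ⌊N⌋₊ = 0 := Nat.floor_eq_zero.mpr hN1
    have h2 : Pr P (boxE n) (fun F => ¬ Big ((⌊N⌋₊ : ℝ) + 1) n F) = 0 := by
      rw [h1, Nat.cast_zero, zero_add, Pr_not, Pr_true _ (fun F _ => big_one n F), sub_self]
    rw [h2]
    exact hexp.le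
  push Not at hN1
  -- w = n x^(-48/91)
  set w : ℝ := n / x ^ (48 / 91 : ℝ) with hw
  have hw0 : 0 < w := by positivity
  have hwN : w ^ (91 / 48 : ℝ) = N := by
    rw [hw, Real.div_rpow hn0.le hxp0.le, ← Real.rpow_mul hx0.le, hN]
    norm_num
  have hw1 : 1 ≤ w := by
    by_contra hlt
    push Not at hlt
    have : w ^ (91 / 48 : ℝ) < 1 := Real.rpow_lt_one hw0.le hlt (by norm_num)
    linarith
  set m : ℕ := max (n0 + 1) ⌈B * w⌉₊ with hm
  have hm1 : 1 ≤ m := le_trans (by omega) (le_max_left _ _)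
  have hmn0 : n0 ≤ m := le_trans (by omega) (le_max_left _ _)
  have hm0 : (0 : ℝ) < m := by exact_mod_cast hm1
  have hmB : B * w ≤ m := (Nat.le_ceil _).trans (by exact_mod_cast le_max_right _ _)
  have hmD : (m : ℝ) ≤ D * w := by
    rw [hm, Nat.cast_max]
    apply max_le
    · push_cast
      rw [hD]
      nlinarith [Nat.cast_nonneg (α := ℝ) n0]
    · have := Nat.ceil_lt_add_one (a := B * w) (by positivity)
      rw [hD]
      nlinarith [Nat.cast_nonneg (α := ℝ) n0]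
  by_cases hmn : m ≤ n
  · set K : ℕ := (2 * n + 1) / (2 * m + 1) with hK
    have hK1 : 1 ≤ K := by
      rw [hK, Nat.le_div_iff_mul_le (by omega)]
      omega
    have hK2 : (2 * m + 1) * K ≤ 2 * n + 1 := by
      rw [mul_comm]
      exact Nat.div_mul_le_self _ _
    have hK3 : n ≤ 3 * m * K := by
      have h1 : 2 * n + 1 < (K + 1) * (2 * m + 1) := by
        rw [hK]
        exact Nat.lt_mul_of_div_lt (Nat.lt_succ_self _) (by omega)
      nlinarith
    have h1 := low_prob hK2 ((⌊N⌋₊ : ℝ) + 1)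
    have h2 : (⌊N⌋₊ : ℝ) + 1 ≤ c1 * ((m : ℝ) ^ 2 * ar m) := by
      have h3 : (⌊N⌋₊ : ℝ) + 1 ≤ 2 * N := by
        have := Nat.floor_le hN0.le
        linarith
      have h4 : (m : ℝ) ^ 2 * ar m ≥ c0 * (m : ℝ) ^ (91 / 48 : ℝ) := by
        have h13 := (har m hm1).1
        have h14 : (m : ℝ) ^ (91 / 48 : ℝ) = (m : ℝ) ^ 2 * (m : ℝ) ^ (-(5 / 48 : ℝ)) := by
          rw [← Real.rpow_natCast (m : ℝ) 2, ← Real.rpow_add hm0]
          norm_num
        rw [h14]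
        have : (0 : ℝ) ≤ (m : ℝ) ^ 2 := by positivity
        nlinarith
      have h5 : 2 * N ≤ c1 * c0 * (m : ℝ) ^ (91 / 48 : ℝ) := by
        have h6 : (B * w) ^ (91 / 48 : ℝ) ≤ (m : ℝ) ^ (91 / 48 : ℝ) :=
          Real.rpow_le_rpow (by positivity) hmB (by norm_num)
        have h7 : (B * w) ^ (91 / 48 : ℝ) = 2 / (c1 * c0) * N := by
          rw [Real.mul_rpow hB0.le hw0.le, hwN, hB, ← Real.rpow_mul (by positivity)]
          norm_num
        rw [h7] at h6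
        calc 2 * N = c1 * c0 * (2 / (c1 * c0) * N) := by field_simp
          _ ≤ _ := mul_le_mul_of_nonneg_left h6 (by positivity)
      calc (⌊N⌋₊ : ℝ) + 1 ≤ 2 * N := h3
        _ ≤ c1 * c0 * (m : ℝ) ^ (91 / 48 : ℝ) := h5
        _ = c1 * (c0 * (m : ℝ) ^ (91 / 48 : ℝ)) := by ring
        _ ≤ _ := mul_le_mul_of_nonneg_left h4 hc1.le
    have h3 : c1 ≤ Pr P (boxE m) (Big ((⌊N⌋₊ : ℝ) + 1) m) :=
      (hlow m hmn0).trans (Pr_mono w_ok fun F _ hF => big_le h2 hF)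
    have h4 : (1 - Pr P (boxE m) (Big ((⌊N⌋₊ : ℝ) + 1) m)) ^ (K ^ 2) ≤ (1 - c1) ^ (K ^ 2) := by
      apply pow_le_pow_left₀
      · linarith [Pr_le_one w_ok (boxE m) (Big ((⌊N⌋₊ : ℝ) + 1) m)]
      · linarith
    have hc11 : c1 ≤ 1 := h3.trans (Pr_le_one w_ok _ _)
    have h5 : (1 - c1) ^ (K ^ 2) ≤ Real.exp (-(c1 * (K : ℝ) ^ 2)) := by
      have h6 : 1 - c1 ≤ Real.exp (-c1) := by
        have := Real.add_one_le_exp (-c1)
        linarith
      calc (1 - c1) ^ (K ^ 2) ≤ Real.exp (-c1) ^ (K ^ 2) :=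
            pow_le_pow_left₀ (by linarith) h6 _
        _ = Real.exp (-(c1 * (K : ℝ) ^ 2)) := by
            rw [← Real.exp_nat_mul]
            congr 1
            push_cast
            ring
    have h6 : x ^ (48 / 91 : ℝ) ≤ 3 * D * K := by
      have h7 : (n : ℝ) ≤ 3 * m * K := by exact_mod_cast hK3
      have h8 : (n : ℝ) = w * x ^ (48 / 91 : ℝ) := by
        rw [hw]
        field_simp
      have h9 : w * x ^ (48 / 91 : ℝ) ≤ w * (3 * D * K) := by
        rw [← h8]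
        calc (n : ℝ) ≤ 3 * m * K := h7
          _ ≤ 3 * (D * w) * K := by
            apply mul_le_mul_of_nonneg_right _ (Nat.cast_nonneg K)
            linarith
          _ = _ := by ring
      exact le_of_mul_le_mul_left h9 hw0
    have h7 : x ^ (96 / 91 : ℝ) ≤ 9 * D ^ 2 * (K : ℝ) ^ 2 := by
      rw [← hxx]
      calc (x ^ (48 / 91 : ℝ)) ^ 2 ≤ (3 * D * K) ^ 2 := pow_le_pow_left₀ hxp0.le h6 2
        _ = _ := by ring
    have h8 : c * x ^ (96 / 91 : ℝ) ≤ c1 * (K : ℝ) ^ 2 := by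
      calc c * x ^ (96 / 91 : ℝ) ≤ c1 / (9 * D ^ 2) * x ^ (96 / 91 : ℝ) :=
            mul_le_mul_of_nonneg_right (min_le_left _ _) hxq
        _ ≤ c1 / (9 * D ^ 2) * (9 * D ^ 2 * (K : ℝ) ^ 2) :=
            mul_le_mul_of_nonneg_left h7 (by positivity)
        _ = c1 * (K : ℝ) ^ 2 := by field_simp
    refine (h1.trans (h4.trans h5)).trans ?_
    rw [← Real.exp_add]
    apply Real.exp_le_exp.mpr
    linarith
  · push Not at hmn
    refine (Pr_le_one w_ok _ _).trans ?_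
    have h1 : x ^ (48 / 91 : ℝ) ≤ D := by
      have h8 : (n : ℝ) = w * x ^ (48 / 91 : ℝ) := by
        rw [hw]
        field_simp
      have h9 : (n : ℝ) ≤ D * w := by
        have : (n : ℝ) ≤ m := by exact_mod_cast hmn.le
        linarith
      have h10 : w * x ^ (48 / 91 : ℝ) ≤ w * D := by
        rw [← h8, mul_comm]
        exact h9
      exact le_of_mul_le_mul_left h10 hw0
    have h2 : c * x ^ (96 / 91 : ℝ) ≤ 1 := by
      calc c * x ^ (96 / 91 : ℝ) ≤ 1 / D ^ 2 * x ^ (96 / 91 : ℝ) :=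
            mul_le_mul_of_nonneg_right (min_le_right _ _) hxq
        _ ≤ 1 / D ^ 2 * D ^ 2 := by
            apply mul_le_mul_of_nonneg_left _ (by positivity)
            rw [← hxx]
            exact pow_le_pow_left₀ hxp0.le h1 2
        _ = 1 := by field_simp
    rw [← Real.exp_add]
    apply Real.one_le_exp
    linarith

end Pool.Agent.Y244.PC
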