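import Pool.Agent.Y244.PC.Bkk
import Pool.Agent.Y244.PC.Conf
import Pool.Agent.Y244.PC.Tails

/-!
The number of large clusters of a box: upper bound.
-/

set_option autoImplicit false

namespace Pool.Agent.Y244.PC
open Finset H974 Pool.Agent.H160R2.CV Pool.Agent.H160R2.CV.Quad H362P Pool.Agent.H389R2.CD

/-- there are at least `k` clusters with at least `V` vertices in the box -/
def Many (n : ℕ) (V : ℝ) (k : ℕ) (F : Finset Edg) : Prop :=
  ∃ R : Finset Vtx, R ⊆ bx n ∧ R.card = k ∧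
    (∀ u ∈ R, ∀ v ∈ R, u ≠ v → ¬ Reach (↑F ∩ ↑(boxE n)) u v) ∧
    ∀ v ∈ R, ∃ T : Finset Vtx, V ≤ (T.card : ℝ) ∧ ∀ u ∈ T, Reach (↑F ∩ ↑(boxE n)) v u

theorem Many_mono {n : ℕ} {V V' : ℝ} (hV : V' ≤ V) {k k' : ℕ} (hk : k' ≤ k) {F : Finset Edg}
    (h : Many n V k F) : Many n V' k' F := by
  obtain ⟨R, h1, h2, h3, h4⟩ := h
  obtain ⟨R', hR', hc⟩ := Finset.exists_subset_card_eq (hk.trans h2.ge)
  refine ⟨R', hR'.trans h1, hc, fun u hu v hv => h3 u (hR' hu) v (hR' hv), fun v hv => ?_⟩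
  obtain ⟨T, hT, hr⟩ := h4 v (hR' hv)
  exact ⟨T, hV.trans hT, hr⟩

theorem Many_card {n : ℕ} {V : ℝ} {k : ℕ} {F : Finset Edg} (h : Many n V k F) :
    k ≤ (2 * n + 1) ^ 2 := by
  obtain ⟨R, h1, h2, -, -⟩ := h
  rw [← h2]
  have h3 := Finset.card_le_card h1
  have h4 := w_card_bx n
  have h5 : ((bx n).card : ℝ) = (((2 * n + 1) ^ 2 : ℕ) : ℝ) := by
    rw [h4]
    push_cast
    ring
  have h6 : (bx n).card = (2 * n + 1) ^ 2 := by exact_mod_cast h5
  omega

theorem Many_MD {n : ℕ} {V : ℝ} {k : ℕ} {F : Finset Edg} (hF : F ⊆ boxE n)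
    (h : Many n V k F) : MD (bx n) V k F := by
  classical
  obtain ⟨R, h1, h2, h3, h4⟩ := h
  have hFF : (↑F ∩ ↑(boxE n) : Set Edg) = ↑F :=
    Set.inter_eq_left.mpr (by exact_mod_cast hF)
  rw [hFF] at h3 h4
  refine ⟨R, fun v => F.filter (fun e => Reach (↑F) v (src e)), h1, h2, ?_, ?_⟩
  · intro v hv
    refine ⟨Finset.filter_subset _ _, ?_⟩
    obtain ⟨T, hT, hr⟩ := h4 v hv
    refine ⟨T, hT, fun u hu => ?_⟩
    have key : ∀ w, Reach (↑F) v w →
        Reach (↑(F.filter (fun e => Reach (↑F) v (src e)))) v w := by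
      intro w hw
      induction hw with
      | refl => exact Reach.refl _ _
      | @tail w w' hw hs ih =>
        refine ih.trans (Adj.reach ?_)
        have hw' : Reach (↑F) v w' := Relation.ReflTransGen.tail hw hs
        obtain ⟨e, he, hc⟩ := hs
        refine ⟨e, ?_, hc⟩
        rw [Finset.mem_coe, Finset.mem_filter]
        refine ⟨he, ?_⟩
        rcases hc with ⟨c1, -⟩ | ⟨c1, -⟩
        · rw [c1]; exact hw
        · rw [c1]; exact hw'
    exact key u (hr u hu)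
  · intro u hu v hv hne
    rw [Finset.disjoint_left]
    intro e h5 h6
    rw [Finset.mem_filter] at h5 h6
    exact h3 u hu v hv hne (h5.2.trans h6.2.symm)

theorem MD_sub {B B' : Finset Vtx} (h : B ⊆ B') {V : ℝ} {k : ℕ} {F : Finset Edg}
    (hF : MD B V k F) : MD B' V k F := by
  obtain ⟨R, K, h1, h2⟩ := hF
  exact ⟨R, K, h1.trans h, h2⟩

theorem reach_bo {z v : Vtx} {R : ℕ} {F : Set Edg} (h : ∀ w, Reach F v w → nv (w - z) ≤ R)
    {u : Vtx} (hu : Reach F v u) : Reach (F ∩ ↑(bo z R)) v u := by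
  have hin : ∀ w, Reach F v w → inR (z.1 - R) (z.1 + R) (z.2 - R) (z.2 + R) w := by
    intro w hw
    have := h w hw
    unfold nv at this
    simp only [Prod.fst_sub, Prod.snd_sub] at this
    unfold inR
    omega
  induction hu with
  | refl => exact Reach.refl _ _
  | @tail w w' hw hs ih =>
    refine ih.trans (Adj.reach ?_)
    have hw' : Reach F v w' := Relation.ReflTransGen.tail hw hs
    obtain ⟨e, he, hc⟩ := hs
    refine ⟨e, ⟨he, ?_⟩, hc⟩
    rw [Finset.mem_coe]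
    unfold bo
    rw [mem_RE_iff]
    rcases hc with ⟨c1, c2⟩ | ⟨c1, c2⟩
    · rw [c1, c2]; exact ⟨hin w hw, hin w' hw'⟩
    · rw [c1, c2]; exact ⟨hin w' hw', hin w hw⟩

theorem Cr_of_reach {F : Finset Edg} {z u w : Vtx} {r n : ℕ} (hu : nv (u - z) ≤ r) (hrn : r ≤ n)
    (hw : n ≤ nv (w - z)) (h : Reach (↑F) u w) : Cr z r n F := by
  have hu' : inR (z.1 - n) (z.1 + n) (z.2 - n) (z.2 + n) u := by
    unfold nv at hu
    simp only [Prod.fst_sub, Prod.snd_sub] at hu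
    unfold inR
    omega
  obtain ⟨w', k1, k2, k3⟩ := first_exit (a := z.1 - n) (b := z.1 + n) (c := z.2 - n)
    (d := z.2 + n) hu' h (by
      unfold nv at hw
      simp only [Prod.fst_sub, Prod.snd_sub] at hw
      omega)
  obtain ⟨u', hu'', hr⟩ := last_exit (a := z.1 - r) (b := z.1 + r) (c := z.2 - r) (d := z.2 + r)
    (x := u) (by
      unfold nv at hu
      simp only [Prod.fst_sub, Prod.snd_sub] at hu
      unfold inR
      omega) k3
  refine ⟨u', w', hu'', k1, k2, hr.mono ?_⟩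
  intro e he
  refine ⟨he.1.1, ?_⟩
  rw [Finset.coe_sdiff]
  exact ⟨he.1.2, he.2⟩

/-- the scale at which annuli are seldom crossed -/
theorem crossing_small (hAr : ArS) (ε : ℝ) (hε : 0 < ε) : ∃ M : ℕ, 3 ≤ M ∧ ∀ (S : Finset Edg)
    (z : Vtx) (s : ℕ), 1 ≤ s → Pr P S (Cr z s (M * s)) ≤ ε := by
  obtain ⟨C, hC, h⟩ := barm_le hAr
  obtain ⟨M, hM⟩ := exists_nat_ge (max 3 ((C / ε) ^ (48 / 5 : ℝ)))
  have hM3 : 3 ≤ M := by exact_mod_cast (le_max_left _ _).trans hM
  have hM4 : (C / ε) ^ (48 / 5 : ℝ) ≤ M := (le_max_right _ _).trans hM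
  refine ⟨M, hM3, fun S z s hs => ?_⟩
  refine (pr_Cr S z s (M * s)).trans ((h s (M * s) hs (Nat.mul_le_mul_right _ hM3)).trans ?_)
  have hs0 : (0 : ℝ) < s := by exact_mod_cast hs
  have hM0 : (0 : ℝ) < M := by exact_mod_cast (by omega : 0 < M)
  have e1 : (s : ℝ) / ((M * s : ℕ) : ℝ) = (M : ℝ)⁻¹ := by
    push_cast
    field_simp
  rw [e1, Real.inv_rpow hM0.le]
  have h2 : C / ε ≤ (M : ℝ) ^ ((5 : ℝ) / 48) := by
    have h3 := Real.rpow_le_rpow (by positivity) hM4 (by norm_num : (0 : ℝ) ≤ 5 / 48)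
    rw [← Real.rpow_mul (by positivity)] at h3
    norm_num at h3
    exact h3
  have h4 : 0 < (M : ℝ) ^ ((5 : ℝ) / 48) := by positivity
  rw [← div_eq_mul_inv, div_le_iff₀ h4]
  rw [div_le_iff₀ hε] at h2
  linarith

/-- a block seldom meets a large cluster -/
theorem block_prob (hAr : ArS) : ∃ L : ℝ, 0 < L ∧ ∀ (S : Finset Edg) (z : Vtx) (s : ℕ)
    (B : Finset Vtx), 1 ≤ s → (∀ v ∈ B, nv (v - z) ≤ s) → ∀ V : ℝ, L * (s : ℝ) ^ (91 / 48 : ℝ) ≤ V →
    Pr P S (MD B V 1) ≤ 1 / 16 := by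
  obtain ⟨M, hM3, hM⟩ := crossing_small hAr (1 / 32) (by norm_num)
  obtain ⟨C2, hC2, hmax⟩ := max_upper
  obtain ⟨c0, C0, hc0, hC0, har⟩ := hAr
  have hM0 : (0 : ℝ) < M := by exact_mod_cast (by omega : 0 < M)
  set l : ℝ := Real.sqrt (32 * C2) with hl
  have hl0 : 0 < l := Real.sqrt_pos.mpr (by positivity)
  have hl2 : l ^ 2 = 32 * C2 := Real.sq_sqrt (by positivity)
  refine ⟨l * (C0 * (M : ℝ) ^ (91 / 48 : ℝ)), by positivity, fun S z s B hs hB V hV => ?_⟩
  have hs0 : (0 : ℝ) < s := by exact_mod_cast hs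
  set R : ℕ := M * s with hR
  have hR1 : 1 ≤ R := by
    rw [hR]
    exact Nat.mul_pos (by omega) hs
  have hR0 : (0 : ℝ) < R := by exact_mod_cast hR1
  have hsR : s ≤ R := by
    rw [hR]
    exact Nat.le_mul_of_pos_left s (by omega)
  have hVR : l * ((R : ℝ) ^ 2 * ar R) ≤ V := by
    refine le_trans ?_ hV
    have h9 := (har R hR1).2
    have h10 : (R : ℝ) ^ (91 / 48 : ℝ) = (R : ℝ) ^ 2 * (R : ℝ) ^ (-(5 / 48 : ℝ)) := by
      rw [← Real.rpow_natCast (R : ℝ) 2, ← Real.rpow_add hR0]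
      norm_num
    have h11 : (R : ℝ) ^ (91 / 48 : ℝ) = (M : ℝ) ^ (91 / 48 : ℝ) * (s : ℝ) ^ (91 / 48 : ℝ) := by
      rw [hR, Nat.cast_mul, Real.mul_rpow hM0.le hs0.le]
    calc l * ((R : ℝ) ^ 2 * ar R) ≤ l * ((R : ℝ) ^ 2 * (C0 * (R : ℝ) ^ (-(5 / 48 : ℝ)))) := by
          apply mul_le_mul_of_nonneg_left _ hl0.le
          exact mul_le_mul_of_nonneg_left h9 (by positivity)
      _ = l * (C0 * (R : ℝ) ^ (91 / 48 : ℝ)) := by rw [h10]; ring
      _ = _ := by rw [h11]; ring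
  have h1 : Pr P S (MD B V 1) ≤ Pr P S (Cr z s R) + Pr P S (BigAt z V R) := by
    refine le_trans (Pr_mono w_ok ?_) (Pr_or_le w_ok S (Cr z s R) (BigAt z V R))
    intro F _ hF
    rw [MD_one] at hF
    obtain ⟨v, hv, T, hT, hr⟩ := hF
    by_cases hex : ∃ w, R ≤ nv (w - z) ∧ Reach (↑F) v w
    · obtain ⟨w, h2, h3⟩ := hex
      exact Or.inl (Cr_of_reach (hB v hv) hsR h2 h3)
    · right
      rw [BigAt_iff]
      refine ⟨v, (hB v hv).trans hsR, T, hT, fun u hu => ?_⟩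
      apply reach_bo _ (hr u hu)
      intro w hw
      by_contra hlt
      exact hex ⟨w, by omega, hw⟩
  have h2 : Pr P S (BigAt z V R) ≤ 1 / 32 := by
    calc Pr P S (BigAt z V R) ≤ Pr P (S ∪ bo z R) (BigAt z V R) :=
          Pr_mono_set w_ok Finset.subset_union_left (fun F G h _ hF => BigAt_mono h hF)
      _ = Pr P (boxE R) (Big V R) := pr_BigAt Finset.subset_union_right
      _ ≤ Pr P (boxE R) (Big (l * ((R : ℝ) ^ 2 * ar R)) R) :=
          Pr_mono w_ok (fun F _ hF => big_le hVR hF)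
      _ ≤ C2 / l ^ 2 := hmax R hR1 l hl0
      _ = 1 / 32 := by rw [hl2]; field_simp
  have h3 := hM S z s hs
  linarith

/-- blocks covering the box -/
theorem cover {n s : ℕ} (hs : 1 ≤ s) (hsn : s ≤ 2 * n) : ∃ (K : ℕ) (B : ℕ × ℕ → Finset Vtx)
    (z : ℕ × ℕ → Vtx),
    bx n ⊆ (range K ×ˢ range K).biUnion B ∧ (∀ q, ∀ v ∈ B q, nv (v - z q) ≤ s) ∧
    (K : ℝ) ≤ 4 * n / s := by
  classical
  set K : ℕ := (2 * n) / (2 * s + 1) + 1 with hK
  have hK1 : 2 * n + 1 ≤ (2 * s + 1) * K := by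
    have h1 : 2 * n < ((2 * n) / (2 * s + 1) + 1) * (2 * s + 1) :=
      Nat.lt_mul_of_div_lt (Nat.lt_succ_self _) (by omega)
    rw [hK]
    nlinarith
  refine ⟨K, fun q => (bx n).filter (fun v => nv (v - (ct n s q.1, ct n s q.2)) ≤ s),
    fun q => (ct n s q.1, ct n s q.2), ?_, ?_, ?_⟩
  · have key : ∀ a : ℤ, -(n : ℤ) ≤ a → a ≤ n → ∃ i < K, (a - ct n s i).natAbs ≤ s := by
      intro a ha1 ha2
      have hs' : (0 : ℤ) < 2 * s + 1 := by positivity
      obtain ⟨t, ht⟩ : ∃ t : ℕ, (t : ℤ) = (a + n) / (2 * s + 1) := by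
        have : 0 ≤ (a + n) / (2 * (s : ℤ) + 1) := Int.ediv_nonneg (by omega) hs'.le
        exact ⟨((a + n) / (2 * (s : ℤ) + 1)).toNat, Int.toNat_of_nonneg this⟩
      have h3 : (2 * (s : ℤ) + 1) * t ≤ a + n := by
        rw [ht]
        exact Int.mul_ediv_self_le hs'.ne'
      have h4 : a + n < (2 * (s : ℤ) + 1) * t + (2 * s + 1) := by
        rw [ht]
        have := Int.lt_ediv_add_one_mul_self (a + n) hs'
        linarith
      have hK' : 2 * (n : ℤ) + 1 ≤ (2 * s + 1) * K := by exact_mod_cast hK1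
      refine ⟨t, ?_, ?_⟩
      · have h5 : (2 * (s : ℤ) + 1) * t < (2 * s + 1) * K := by omega
        have h6 : (t : ℤ) < K := lt_of_mul_lt_mul_left h5 hs'.le
        exact_mod_cast h6
      · unfold ct
        omega
    intro v hv
    have hv' := w_mem_bx.mp hv
    obtain ⟨i, hi, hi2⟩ := key v.1 hv'.1.1 hv'.1.2
    obtain ⟨j, hj, hj2⟩ := key v.2 hv'.2.1 hv'.2.2
    rw [Finset.mem_biUnion]
    refine ⟨(i, j), ?_, ?_⟩
    · rw [Finset.mem_product, Finset.mem_range, Finset.mem_range]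
      exact ⟨hi, hj⟩
    · rw [Finset.mem_filter]
      refine ⟨hv, ?_⟩
      unfold nv
      simp only [Prod.fst_sub, Prod.snd_sub]
      exact max_le hi2 hj2
  · intro q v hv
    rw [Finset.mem_filter] at hv
    exact hv.2
  · have hs0 : (0 : ℝ) < s := by exact_mod_cast hs
    rw [le_div_iff₀ hs0]
    have h1 : (2 * n) / (2 * s + 1) * (2 * s + 1) ≤ 2 * n := Nat.div_mul_le_self _ _
    have h2 : K * s ≤ 4 * n := by
      rw [hK]
      nlinarith
    exact_mod_cast h2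

/-- the number of large clusters, upper bound -/
theorem many_upper (hAr : ArS) : ∃ D : ℝ, 1 ≤ D ∧ ∀ n : ℕ, 1 ≤ n → ∀ V : ℝ, 1 ≤ V →
    V ≤ (n : ℝ) ^ (91 / 48 : ℝ) → ∀ k : ℕ, D * ((n : ℝ) ^ 2 * V ^ (-(96 / 91 : ℝ))) ≤ k →
    Pr P (boxE n) (Many n V k) ≤ Real.exp (-k) := by
  obtain ⟨L0, hL00, hblock⟩ := block_prob hAr
  set L : ℝ := max L0 1 with hL
  have hL0 : 0 < L := lt_of_lt_of_le one_pos (le_max_right _ _)
  have hL1 : 1 ≤ L := le_max_right _ _
  have hLp : 1 ≤ L ^ (96 / 91 : ℝ) := Real.one_le_rpow hL1 (by norm_num)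
  refine ⟨64 * L ^ (96 / 91 : ℝ), by linarith, ?_⟩
  intro n hn V hV hVn k hk
  have hn0 : (0 : ℝ) < n := by exact_mod_cast hn
  have hn1 : (1 : ℝ) ≤ n := by exact_mod_cast hn
  have hV0 : 0 < V := by linarith
  by_cases hcase : V < L
  · -- trivial
    have h1 : ¬ k ≤ (2 * n + 1) ^ 2 := by
      intro h2
      have h3 : (k : ℝ) ≤ 9 * (n : ℝ) ^ 2 := by
        have : (k : ℝ) ≤ (((2 * n + 1) ^ 2 : ℕ) : ℝ) := by exact_mod_cast h2
        push_cast at this
        nlinarith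
      have h4 : L ^ (-(96 / 91 : ℝ)) ≤ V ^ (-(96 / 91 : ℝ)) :=
        Real.rpow_le_rpow_of_nonpos hV0 hcase.le (by norm_num)
      have h5 : 64 * L ^ (96 / 91 : ℝ) * ((n : ℝ) ^ 2 * L ^ (-(96 / 91 : ℝ))) ≤ k := by
        refine le_trans ?_ hk
        apply mul_le_mul_of_nonneg_left _ (by positivity)
        exact mul_le_mul_of_nonneg_left h4 (by positivity)
      have h6 : L ^ (96 / 91 : ℝ) * L ^ (-(96 / 91 : ℝ)) = 1 := by
        rw [← Real.rpow_add hL0]
        norm_num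
      have h7 : 64 * L ^ (96 / 91 : ℝ) * ((n : ℝ) ^ 2 * L ^ (-(96 / 91 : ℝ))) =
          64 * (n : ℝ) ^ 2 * (L ^ (96 / 91 : ℝ) * L ^ (-(96 / 91 : ℝ))) := by ring
      rw [h7, h6] at h5
      nlinarith
    have h2 : Pr P (boxE n) (Many n V k) = 0 := by
      have h := Pr_not (p := P) (boxE n) (fun F => ¬ Many n V k F)
      have h3 : Pr P (boxE n) (fun F => ¬ Many n V k F) = 1 :=
        Pr_true _ (fun F _ hF => h1 (Many_card hF))
      rw [h3, sub_self] at h
      rw [← h]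
      apply Pr_congr
      intro F _
      exact not_not.symm
    rw [h2]
    exact (Real.exp_pos _).le
  · push Not at hcase
    set y : ℝ := (V / L) ^ (48 / 91 : ℝ) with hy
    have hy1 : 1 ≤ y := Real.one_le_rpow (by rw [le_div_iff₀ hL0]; linarith) (by norm_num)
    have hy0 : 0 < y := by linarith
    set s : ℕ := ⌊y⌋₊ with hs
    have hs1 : 1 ≤ s := Nat.le_floor (by exact_mod_cast hy1)
    have hsy : (s : ℝ) ≤ y := Nat.floor_le hy0.le
    have hs0 : (0 : ℝ) < s := by exact_mod_cast hs1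
    have hys : y ≤ 2 * s := by
      have h1 := Nat.lt_floor_add_one y
      have h2 : (1 : ℝ) ≤ s := by exact_mod_cast hs1
      rw [← hs] at h1
      linarith
    have hyn : y ≤ n := by
      calc y ≤ V ^ (48 / 91 : ℝ) := by
            apply Real.rpow_le_rpow (by positivity) _ (by norm_num)
            rw [div_le_iff₀ hL0]
            nlinarith
        _ ≤ ((n : ℝ) ^ (91 / 48 : ℝ)) ^ (48 / 91 : ℝ) :=
            Real.rpow_le_rpow hV0.le hVn (by norm_num)
        _ = n := by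
            rw [← Real.rpow_mul hn0.le]
            norm_num
    have hsn : s ≤ 2 * n := by
      have : (s : ℝ) ≤ n := hsy.trans hyn
      have : s ≤ n := by exact_mod_cast this
      omega
    obtain ⟨K, B, z, hcov, hB, hK⟩ := cover hs1 hsn
    have hLV : L0 * (s : ℝ) ^ (91 / 48 : ℝ) ≤ V := by
      calc L0 * (s : ℝ) ^ (91 / 48 : ℝ) ≤ L * y ^ (91 / 48 : ℝ) := by
            apply mul_le_mul (le_max_left _ _) _ (by positivity) hL0.le
            exact Real.rpow_le_rpow hs0.le hsy (by norm_num)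
        _ = V := by
            rw [hy, ← Real.rpow_mul (by positivity)]
            norm_num
            field_simp
    have hun := MD_union (S := boxE n) (V := V) (q := 1 / 16) (by norm_num) B
      (range K ×ˢ range K) (fun q _ => hblock (boxE n) (z q) s (B q) hs1 (hB q) V hLV) k
    have hcardI : (range K ×ˢ range K).card = K ^ 2 := by
      rw [Finset.card_product, Finset.card_range, pow_two]
    rw [hcardI] at hun
    have hKk : K ^ 2 ≤ k := by
      have h1 : (K : ℝ) ≤ 8 * (n / y) := by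
        refine hK.trans ?_
        rw [div_le_iff₀ hs0]
        have : 8 * ((n : ℝ) / y) * s = 4 * n * (2 * s / y) := by field_simp; ring
        rw [this]
        have h2 : 1 ≤ 2 * (s : ℝ) / y := by rw [le_div_iff₀ hy0]; linarith
        nlinarith
      have h2 : (K : ℝ) ^ 2 ≤ 64 * ((n : ℝ) ^ 2 / y ^ 2) := by
        calc (K : ℝ) ^ 2 ≤ (8 * (n / y)) ^ 2 := pow_le_pow_left₀ (by positivity) h1 2
          _ = 64 * ((n : ℝ) ^ 2 / y ^ 2) := by ring
      have h3 : (n : ℝ) ^ 2 / y ^ 2 = L ^ (96 / 91 : ℝ) * ((n : ℝ) ^ 2 * V ^ (-(96 / 91 : ℝ))) := by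
        have h4 : y ^ 2 = V ^ (96 / 91 : ℝ) / L ^ (96 / 91 : ℝ) := by
          rw [hy, rpow_sq' (by positivity), ← Real.div_rpow hV0.le hL0.le]
          norm_num
        rw [h4, Real.rpow_neg hV0.le]
        have h5 : 0 < V ^ (96 / 91 : ℝ) := by positivity
        have h6 : 0 < L ^ (96 / 91 : ℝ) := by positivity
        field_simp
      have h7 : (K : ℝ) ^ 2 ≤ k := by
        calc (K : ℝ) ^ 2 ≤ 64 * ((n : ℝ) ^ 2 / y ^ 2) := h2
          _ = 64 * L ^ (96 / 91 : ℝ) * ((n : ℝ) ^ 2 * V ^ (-(96 / 91 : ℝ))) := by rw [h3]; ring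
          _ ≤ k := hk
      exact_mod_cast h7
    calc Pr P (boxE n) (Many n V k) ≤ Pr P (boxE n) (MD ((range K ×ˢ range K).biUnion B) V k) :=
          Pr_mono w_ok (fun F hF h => MD_sub hcov (Many_MD hF h))
      _ ≤ 2 ^ (K ^ 2) * (2 * (1 / 16)) ^ k := hun
      _ ≤ 2 ^ k * (1 / 8) ^ k := by
          apply mul_le_mul (pow_le_pow_right₀ (by norm_num) hKk) _ (by positivity) (by positivity)
          norm_num
      _ = (1 / 4) ^ k := by rw [← mul_pow]; norm_num
      _ ≤ Real.exp (-1) ^ k := by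
          apply pow_le_pow_left₀ (by norm_num)
          have h3 : Real.exp (-1) = 1 / Real.exp 1 := by rw [Real.exp_neg, one_div]
          rw [h3]
          apply one_div_le_one_div_of_le (Real.exp_pos _)
          have := Real.exp_one_lt_d9
          linarith
      _ = Real.exp (-k) := by
          rw [← Real.exp_nat_mul]
          congr 1
          ring

end Pool.Agent.Y244.PC
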