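import Pool.Agent.H362P.Fin
import Pool.Agent.Y244.PC.Loc

/-!
High moments of the largest cluster by adding points one by one.
-/

set_option autoImplicit false

namespace Pool.Agent.Y244.PC
open Finset H974 Pool.Agent.H160R2.CV Pool.Agent.H160R2.CV.Quad H362P MeasureTheory
open Pool.Agent.H389R2.CD

/-- sums of connection probabilities -/
noncomputable def W (n : ℕ) : ℕ → Finset Vtx → ℝ
  | 0, X => PX X
  | k + 1, X => ∑ x ∈ bx n, W n k (insert x X)

/-- numbers of connected tuples -/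
noncomputable def U (n : ℕ) (F : Finset Edg) : ℕ → Finset Vtx → ℝ
  | 0, X => ind (Cn X ↑F)
  | k + 1, X => ∑ x ∈ bx n, U n F k (insert x X)

theorem PX_nonneg (X : Finset Vtx) : 0 ≤ PX X := measureReal_nonneg

theorem U_nonneg (n : ℕ) (F : Finset Edg) (k : ℕ) (X : Finset Vtx) : 0 ≤ U n F k X := by
  induction k generalizing X with
  | zero => exact ind_nonneg _
  | succ k ih => exact Finset.sum_nonneg fun x _ => ih _

theorem W_nonneg (n : ℕ) (k : ℕ) (X : Finset Vtx) : 0 ≤ W n k X := by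
  induction k generalizing X with
  | zero => exact PX_nonneg _
  | succ k ih => exact Finset.sum_nonneg fun x _ => ih _

theorem Ex_U_le (n : ℕ) (k : ℕ) (X : Finset Vtx) :
    Ex P (boxE n) (fun F => U n F k X) ≤ W n k X := by
  induction k generalizing X with
  | zero =>
    show Pr P (boxE n) (fun F => Cn X ↑F) ≤ PX X
    exact InfAux.lower (fun F => Cn X F) (fun F G h hF => Cn.mono h hF) n
  | succ k ih =>
    show Ex P (boxE n) (fun F => ∑ x ∈ bx n, U n F k (insert x X)) ≤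
      ∑ x ∈ bx n, W n k (insert x X)
    rw [Ex_sum]
    exact Finset.sum_le_sum fun x _ => ih _

theorem U_ge {n : ℕ} {F : Finset Edg} {T : Finset Vtx} (hT : T ⊆ bx n) (hc : Cn T ↑F) (k : ℕ)
    (X : Finset Vtx) (hX : X ⊆ T) : (T.card : ℝ) ^ k ≤ U n F k X := by
  induction k generalizing X with
  | zero =>
    show (T.card : ℝ) ^ 0 ≤ ind (Cn X ↑F)
    rw [pow_zero, ind_of]
    intro u hu v hv
    exact hc u (hX hu) v (hX hv)
  | succ k ih =>
    show (T.card : ℝ) ^ (k + 1) ≤ ∑ x ∈ bx n, U n F k (insert x X)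
    calc (T.card : ℝ) ^ (k + 1) = ∑ x ∈ T, (T.card : ℝ) ^ k := by
          rw [Finset.sum_const, nsmul_eq_mul, pow_succ, mul_comm]
      _ ≤ ∑ x ∈ T, U n F k (insert x X) :=
          Finset.sum_le_sum fun x hx => ih _ (Finset.insert_subset hx hX)
      _ ≤ _ := Finset.sum_le_sum_of_subset_of_nonneg hT (fun x _ _ => U_nonneg _ _ _ _)

theorem big_moment {n : ℕ} {N : ℝ} (hN : 0 ≤ N) (k : ℕ) :
    N ^ k * Pr P (boxE n) (Big N n) ≤ W n k ∅ := by
  refine le_trans ?_ (Ex_U_le n k ∅)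
  unfold Pr
  rw [← Ex_mul_left]
  apply Ex_mono w_ok
  intro F _
  by_cases hB : Big N n F
  · rw [ind_of hB, mul_one]
    obtain ⟨v, hv, T, hT, hr⟩ := hB
    have hsub : T ⊆ bx n := fun u hu => w_reach_bx hv (hr u hu)
    refine le_trans (pow_le_pow_left₀ hN hT k) (U_ge hsub ?_ k ∅ (Finset.empty_subset _))
    intro u hu w hw
    exact ((hr u hu).symm.trans (hr w hw)).mono Set.inter_subset_left
  · rw [ind_not_of hB, mul_zero]
    exact U_nonneg _ _ _ _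

/-! ### distances -/

theorem exists_near {X : Finset Vtx} (hX : X.Nonempty) (x : Vtx) : ∃ a, Near x X a := by
  obtain ⟨u, hu, hmin⟩ := Finset.exists_min_image X (fun u => sd x u) hX
  exact ⟨sd x u, ⟨u, hu, rfl⟩, by rintro d ⟨v, hv, rfl⟩; exact hmin v hv⟩

theorem exists_diam {X : Finset Vtx} (hX : X.Nonempty) : ∃ D, Diam X D := by
  obtain ⟨p, hp, hmax⟩ := Finset.exists_max_image (X ×ˢ X) (fun p => sd p.1 p.2)
    (hX.product hX)
  rw [Finset.mem_product] at hp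
  refine ⟨sd p.1 p.2, ⟨p.1, hp.1, p.2, hp.2, rfl⟩, ?_⟩
  rintro d ⟨v, hv, w, hw, rfl⟩
  exact hmax (v, w) (Finset.mem_product.mpr ⟨hv, hw⟩)

theorem fac_le {a : ℕ} (ha : 1 ≤ a) (D : ℕ) : fac a D ≤ (a : ℝ) ^ (-(5 / 48 : ℝ)) := by
  unfold fac
  have h1 : (1 : ℝ) ≤ a := by exact_mod_cast ha
  apply Real.rpow_le_rpow_of_nonpos (by linarith) _ (by norm_num)
  have h2 : (1 : ℝ) ≤ max 1 ((a : ℝ) / ((max D 1 : ℕ) : ℝ)) := le_max_left _ _
  nlinarith

/-- truncated power -/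
noncomputable def gR (R : ℝ) (k : ℕ) : ℝ := by
  classical
  exact if 1 ≤ k ∧ (k : ℝ) ≤ R then (k : ℝ) ^ (-(5 / 48 : ℝ)) else 0

theorem gR_nonneg (R : ℝ) (k : ℕ) : 0 ≤ gR R k := by
  unfold gR
  split_ifs
  · positivity
  · exact le_rfl

theorem gR_sum {R : ℝ} (hR : 0 < R) (M : ℕ) :
    ∑ k ∈ range M, ((k : ℝ) + 1) * gR R k ≤ 2 * R ^ (91 / 48 : ℝ) := by
  classical
  have h1 : ∑ k ∈ range M, ((k : ℝ) + 1) * gR R k =
      ∑ k ∈ (range M).filter (fun k : ℕ => 1 ≤ k ∧ (k : ℝ) ≤ R),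
        ((k : ℝ) + 1) * (k : ℝ) ^ (-(5 / 48 : ℝ)) := by
    rw [Finset.sum_filter]
    apply Finset.sum_congr rfl
    intro k _
    unfold gR
    split_ifs with h
    · rfl
    · rw [mul_zero]
  rw [h1]
  have hcard : ((((range M).filter (fun k : ℕ => 1 ≤ k ∧ (k : ℝ) ≤ R)).card : ℕ) : ℝ) ≤ R := by
    have h2 : (range M).filter (fun k : ℕ => 1 ≤ k ∧ (k : ℝ) ≤ R) ⊆ Finset.Icc 1 ⌊R⌋₊ := by
      intro k hk
      rw [Finset.mem_filter] at hk
      rw [Finset.mem_Icc]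
      exact ⟨hk.2.1, Nat.le_floor hk.2.2⟩
    have h3 := Finset.card_le_card h2
    rw [Nat.card_Icc, Nat.add_sub_cancel] at h3
    calc ((((range M).filter (fun k : ℕ => 1 ≤ k ∧ (k : ℝ) ≤ R)).card : ℕ) : ℝ) ≤ (⌊R⌋₊ : ℝ) := by
          exact_mod_cast h3
      _ ≤ R := Nat.floor_le hR.le
  have hterm : ∀ k ∈ (range M).filter (fun k : ℕ => 1 ≤ k ∧ (k : ℝ) ≤ R),
      ((k : ℝ) + 1) * (k : ℝ) ^ (-(5 / 48 : ℝ)) ≤ 2 * R ^ (43 / 48 : ℝ) := by
    intro k hk
    rw [Finset.mem_filter] at hk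
    have hk1 : (1 : ℝ) ≤ k := by exact_mod_cast hk.2.1
    have hk0 : (0 : ℝ) < k := by linarith
    have e1 : (k : ℝ) * (k : ℝ) ^ (-(5 / 48 : ℝ)) = (k : ℝ) ^ (43 / 48 : ℝ) := by
      rw [mul_comm, ← Real.rpow_add_one hk0.ne']
      congr 1
      norm_num
    have h4 : (k : ℝ) ^ (43 / 48 : ℝ) ≤ R ^ (43 / 48 : ℝ) :=
      Real.rpow_le_rpow hk0.le hk.2.2 (by norm_num)
    have h5 : (0 : ℝ) ≤ (k : ℝ) ^ (-(5 / 48 : ℝ)) := by positivity
    nlinarith
  calc ∑ k ∈ (range M).filter (fun k : ℕ => 1 ≤ k ∧ (k : ℝ) ≤ R),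
        ((k : ℝ) + 1) * (k : ℝ) ^ (-(5 / 48 : ℝ))
      ≤ ∑ k ∈ (range M).filter (fun k : ℕ => 1 ≤ k ∧ (k : ℝ) ≤ R), 2 * R ^ (43 / 48 : ℝ) :=
        Finset.sum_le_sum hterm
    _ = ((((range M).filter (fun k : ℕ => 1 ≤ k ∧ (k : ℝ) ≤ R)).card : ℕ) : ℝ) *
        (2 * R ^ (43 / 48 : ℝ)) := by rw [Finset.sum_const, nsmul_eq_mul]
    _ ≤ R * (2 * R ^ (43 / 48 : ℝ)) := mul_le_mul_of_nonneg_right hcard (by positivity)
    _ = 2 * R ^ (91 / 48 : ℝ) := by
        have : (91 / 48 : ℝ) = 43 / 48 + 1 := by norm_num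
        rw [this, Real.rpow_add_one hR.ne']
        ring

theorem near_sum {n : ℕ} (hn : 1 ≤ n) {X : Finset Vtx} (hX : X.Nonempty) (hXn : X ⊆ bx n)
    (d : Vtx → ℕ) (hd : ∀ x, x ∉ X → Near x X (d x)) :
    ∑ x ∈ bx n \ X, (d x : ℝ) ^ (-(5 / 48 : ℝ)) ≤
      25 * ((n : ℝ) ^ (91 / 48 : ℝ) * (X.card : ℝ) ^ (5 / 96 : ℝ)) := by
  classical
  set j : ℝ := (X.card : ℝ) with hj
  have hj1 : (1 : ℝ) ≤ j := by
    rw [hj]
    exact_mod_cast hX.card_pos
  have hj0 : 0 < j := by linarith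
  have hn1 : (1 : ℝ) ≤ n := by exact_mod_cast hn
  have hn0 : (0 : ℝ) < n := by linarith
  set s : ℝ := j ^ (1 / 2 : ℝ) with hs
  have hs0 : 0 < s := by positivity
  set R : ℝ := n / s with hR
  have hR0 : 0 < R := by positivity
  have hpt : ∀ x ∈ bx n \ X, (d x : ℝ) ^ (-(5 / 48 : ℝ)) ≤
      R ^ (-(5 / 48 : ℝ)) + ∑ u ∈ X, gR R (nv (x - u)) := by
    intro x hx
    rw [Finset.mem_sdiff] at hx
    obtain ⟨⟨u, hu, hdu⟩, -⟩ := hd x hx.2
    have hne : x ≠ u := by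
      rintro rfl
      exact hx.2 hu
    have hd1 : 1 ≤ d x := by
      rw [hdu]
      exact sd_pos hne
    have hsum0 : 0 ≤ ∑ u ∈ X, gR R (nv (x - u)) := Finset.sum_nonneg fun _ _ => gR_nonneg _ _
    by_cases hle : (d x : ℝ) ≤ R
    · have h1 : gR R (nv (x - u)) ≤ ∑ u ∈ X, gR R (nv (x - u)) :=
        Finset.single_le_sum (f := fun u => gR R (nv (x - u))) (fun _ _ => gR_nonneg _ _) hu
      have h2 : gR R (nv (x - u)) = (d x : ℝ) ^ (-(5 / 48 : ℝ)) := by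
        rw [← sd_eq, ← hdu]
        unfold gR
        rw [if_pos ⟨hd1, hle⟩]
      have h3 : (0 : ℝ) ≤ R ^ (-(5 / 48 : ℝ)) := by positivity
      linarith
    · have h4 : (d x : ℝ) ^ (-(5 / 48 : ℝ)) ≤ R ^ (-(5 / 48 : ℝ)) :=
        Real.rpow_le_rpow_of_nonpos hR0 (not_le.mp hle).le (by norm_num)
      linarith
  have hcardbx : ((bx n).card : ℝ) ≤ 9 * (n : ℝ) ^ 2 := by
    rw [w_card_bx]
    nlinarith
  -- powers
  have eA : (n : ℝ) ^ 2 * R ^ (-(5 / 48 : ℝ)) = (n : ℝ) ^ (91 / 48 : ℝ) * j ^ (5 / 96 : ℝ) := by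
    rw [hR, Real.div_rpow hn0.le hs0.le, hs, ← Real.rpow_mul hj0.le, ← Real.rpow_natCast (n : ℝ) 2,
      mul_div_assoc', ← Real.rpow_add hn0, div_eq_mul_inv, ← Real.rpow_neg hj0.le]
    norm_num
  have eB : j * R ^ (91 / 48 : ℝ) = (n : ℝ) ^ (91 / 48 : ℝ) * j ^ (5 / 96 : ℝ) := by
    rw [hR, Real.div_rpow hn0.le hs0.le, hs, ← Real.rpow_mul hj0.le, div_eq_mul_inv,
      ← Real.rpow_neg hj0.le, mul_left_comm]
    congr 1
    rw [mul_comm, ← Real.rpow_add_one hj0.ne']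
    norm_num
  calc ∑ x ∈ bx n \ X, (d x : ℝ) ^ (-(5 / 48 : ℝ))
      ≤ ∑ x ∈ bx n \ X, (R ^ (-(5 / 48 : ℝ)) + ∑ u ∈ X, gR R (nv (x - u))) :=
        Finset.sum_le_sum hpt
    _ ≤ ∑ x ∈ bx n, (R ^ (-(5 / 48 : ℝ)) + ∑ u ∈ X, gR R (nv (x - u))) := by
        apply Finset.sum_le_sum_of_subset_of_nonneg Finset.sdiff_subset
        intro x _ _
        have : 0 ≤ ∑ u ∈ X, gR R (nv (x - u)) := Finset.sum_nonneg fun _ _ => gR_nonneg _ _
        positivity
    _ = (bx n).card * R ^ (-(5 / 48 : ℝ)) + ∑ u ∈ X, ∑ x ∈ bx n, gR R (nv (x - u)) := by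
        rw [Finset.sum_add_distrib, Finset.sum_const, nsmul_eq_mul, Finset.sum_comm]
    _ ≤ 9 * (n : ℝ) ^ 2 * R ^ (-(5 / 48 : ℝ)) + ∑ u ∈ X, 16 * R ^ (91 / 48 : ℝ) := by
        apply add_le_add
        · exact mul_le_mul_of_nonneg_right hcardbx (by positivity)
        · apply Finset.sum_le_sum
          intro u hu
          refine (sum_bx_shift n u (hXn hu) (gR R) (gR_nonneg R)).trans ?_
          have := gR_sum hR0 (2 * n + 1)
          linarith
    _ = 9 * ((n : ℝ) ^ 2 * R ^ (-(5 / 48 : ℝ))) + 16 * (j * R ^ (91 / 48 : ℝ)) := by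
        rw [Finset.sum_const, nsmul_eq_mul, ← hj]
        ring
    _ = 25 * ((n : ℝ) ^ (91 / 48 : ℝ) * j ^ (5 / 96 : ℝ)) := by
        rw [eA, eB]
        ring

/-- adding a point, summed over the box -/
theorem step_sum (hAr : ArS) : ∃ C : ℝ, 0 < C ∧ ∀ n : ℕ, 1 ≤ n → ∀ X : Finset Vtx,
    X.Nonempty → X ⊆ bx n → ∑ x ∈ bx n, PX (insert x X) ≤
      C * ((n : ℝ) ^ (91 / 48 : ℝ) * (X.card : ℝ) ^ (5 / 96 : ℝ)) * PX X := by
  classical
  obtain ⟨c, C, hc, hC, h⟩ := add_point hAr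
  refine ⟨9 + 25 * C, by positivity, fun n hn X hX hXn => ?_⟩
  have hn1 : (1 : ℝ) ≤ n := by exact_mod_cast hn
  have hn0 : (0 : ℝ) < n := by linarith
  obtain ⟨D, hD⟩ := exists_diam hX
  choose d hd using exists_near hX
  have hP := PX_nonneg X
  set j : ℝ := (X.card : ℝ) with hj
  have hj1 : (1 : ℝ) ≤ j := by
    rw [hj]
    exact_mod_cast hX.card_pos
  have hj0 : 0 < j := by linarith
  have hj9 : j ≤ 9 * (n : ℝ) ^ 2 := by
    calc j ≤ ((bx n).card : ℝ) := by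
          rw [hj]
          exact_mod_cast Finset.card_le_card hXn
      _ ≤ 9 * (n : ℝ) ^ 2 := by
          rw [w_card_bx]
          nlinarith
  have h1 : ∑ x ∈ bx n, PX (insert x X) =
      ∑ x ∈ bx n \ X, PX (insert x X) + ∑ x ∈ X, PX (insert x X) :=
    (Finset.sum_sdiff hXn).symm
  have h2 : ∑ x ∈ X, PX (insert x X) = j * PX X := by
    rw [Finset.sum_congr rfl (fun x hx => by rw [Finset.insert_eq_of_mem hx]), Finset.sum_const,
      nsmul_eq_mul]
  have h3 : ∑ x ∈ bx n \ X, PX (insert x X) ≤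
      C * (25 * ((n : ℝ) ^ (91 / 48 : ℝ) * j ^ (5 / 96 : ℝ))) * PX X := by
    calc ∑ x ∈ bx n \ X, PX (insert x X)
        ≤ ∑ x ∈ bx n \ X, C * (d x : ℝ) ^ (-(5 / 48 : ℝ)) * PX X := by
          apply Finset.sum_le_sum
          intro x hx
          rw [Finset.mem_sdiff] at hx
          have h4 := (h X x (d x) D hx.2 (hd x) hD).2
          obtain ⟨⟨u, hu, hdu⟩, -⟩ := hd x
          have hd1 : 1 ≤ d x := by
            rw [hdu]
            apply sd_pos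
            rintro rfl
            exact hx.2 hu
          refine h4.trans ?_
          apply mul_le_mul_of_nonneg_right _ hP
          exact mul_le_mul_of_nonneg_left (fac_le hd1 D) hC.le
      _ = C * (∑ x ∈ bx n \ X, (d x : ℝ) ^ (-(5 / 48 : ℝ))) * PX X := by
          rw [Finset.mul_sum, Finset.sum_mul]
      _ ≤ _ := by
          apply mul_le_mul_of_nonneg_right _ hP
          apply mul_le_mul_of_nonneg_left _ hC.le
          exact near_sum hn hX hXn d (fun x _ => hd x)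
  have h5 : j ≤ 9 * ((n : ℝ) ^ (91 / 48 : ℝ) * j ^ (5 / 96 : ℝ)) := by
    have e1 : j = j ^ (91 / 96 : ℝ) * j ^ (5 / 96 : ℝ) := by
      rw [← Real.rpow_add hj0]
      norm_num
    have e2 : j ^ (91 / 96 : ℝ) ≤ 9 * (n : ℝ) ^ (91 / 48 : ℝ) := by
      calc j ^ (91 / 96 : ℝ) ≤ (9 * (n : ℝ) ^ 2) ^ (91 / 96 : ℝ) :=
            Real.rpow_le_rpow hj0.le hj9 (by norm_num)
        _ = 9 ^ (91 / 96 : ℝ) * (n : ℝ) ^ (91 / 48 : ℝ) := by
            rw [Real.mul_rpow (by norm_num) (by positivity), ← Real.rpow_natCast (n : ℝ) 2,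
              ← Real.rpow_mul hn0.le]
            norm_num
        _ ≤ 9 ^ (1 : ℝ) * (n : ℝ) ^ (91 / 48 : ℝ) := by
            apply mul_le_mul_of_nonneg_right _ (by positivity)
            exact Real.rpow_le_rpow_of_exponent_le (by norm_num) (by norm_num)
        _ = _ := by rw [Real.rpow_one]
    calc j = j ^ (91 / 96 : ℝ) * j ^ (5 / 96 : ℝ) := e1
      _ ≤ 9 * (n : ℝ) ^ (91 / 48 : ℝ) * j ^ (5 / 96 : ℝ) :=
          mul_le_mul_of_nonneg_right e2 (Real.rpow_nonneg hj0.le _)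
      _ = _ := mul_assoc _ _ _
  rw [h1, h2]
  have h6 : j * PX X ≤ 9 * ((n : ℝ) ^ (91 / 48 : ℝ) * j ^ (5 / 96 : ℝ)) * PX X :=
    mul_le_mul_of_nonneg_right h5 hP
  calc _ ≤ C * (25 * ((n : ℝ) ^ (91 / 48 : ℝ) * j ^ (5 / 96 : ℝ))) * PX X +
        9 * ((n : ℝ) ^ (91 / 48 : ℝ) * j ^ (5 / 96 : ℝ)) * PX X := add_le_add h3 h6
    _ = _ := by ring

theorem W_bound {C : ℝ} (hC : 0 < C) {n : ℕ} (hn : 1 ≤ n) (h : ∀ X : Finset Vtx,
    X.Nonempty → X ⊆ bx n → ∑ x ∈ bx n, PX (insert x X) ≤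
      C * ((n : ℝ) ^ (91 / 48 : ℝ) * (X.card : ℝ) ^ (5 / 96 : ℝ)) * PX X) (k : ℕ) :
    ∀ (X : Finset Vtx) (J : ℕ), X.Nonempty → X ⊆ bx n → X.card + k ≤ J →
    W n k X ≤ (C * ((n : ℝ) ^ (91 / 48 : ℝ) * (J : ℝ) ^ (5 / 96 : ℝ))) ^ k * PX X := by
  induction k with
  | zero =>
    intro X J _ _ _
    rw [pow_zero, one_mul]
    exact le_rfl
  | succ k ih =>
    intro X J hX hXn hJ
    have hn0 : (0 : ℝ) < n := by exact_mod_cast hn
    set B : ℝ := C * ((n : ℝ) ^ (91 / 48 : ℝ) * (J : ℝ) ^ (5 / 96 : ℝ)) with hB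
    have hB0 : 0 ≤ B := by positivity
    show ∑ x ∈ bx n, W n k (insert x X) ≤ B ^ (k + 1) * PX X
    calc ∑ x ∈ bx n, W n k (insert x X) ≤ ∑ x ∈ bx n, B ^ k * PX (insert x X) := by
          apply Finset.sum_le_sum
          intro x hx
          apply ih _ J (Finset.insert_nonempty _ _) (Finset.insert_subset hx hXn)
          have := Finset.card_insert_le x X
          omega
      _ = B ^ k * ∑ x ∈ bx n, PX (insert x X) := by rw [Finset.mul_sum]
      _ ≤ B ^ k * (B * PX X) := by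
          apply mul_le_mul_of_nonneg_left _ (by positivity)
          refine (h X hX hXn).trans ?_
          apply mul_le_mul_of_nonneg_right _ (PX_nonneg X)
          rw [hB]
          apply mul_le_mul_of_nonneg_left _ hC.le
          apply mul_le_mul_of_nonneg_left _ (by positivity)
          apply Real.rpow_le_rpow (by positivity) _ (by norm_num)
          exact_mod_cast (by omega : X.card ≤ J)
      _ = B ^ (k + 1) * PX X := by ring

/-- the sum of the two-point function -/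
theorem pair_sum (hAr : ArS) : ∃ C : ℝ, 0 < C ∧ ∀ n : ℕ, 1 ≤ n →
    ∑ x ∈ bx n, ∑ y ∈ bx n, PX (insert y (insert x ∅)) ≤ C * (n : ℝ) ^ (91 / 24 : ℝ) := by
  classical
  obtain ⟨c, C, hc, hC, h⟩ := two_point hAr
  refine ⟨9 * (1 + 96 * C), by positivity, fun n hn => ?_⟩
  have hn1 : (1 : ℝ) ≤ n := by exact_mod_cast hn
  have hn0 : (0 : ℝ) < n := by linarith
  set f : ℕ → ℝ := fun k => if 1 ≤ k then (k : ℝ) ^ (-(5 / 24 : ℝ)) else 0 with hf
  have hf0 : ∀ k, 0 ≤ f k := by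
    intro k
    rw [hf]
    simp only
    split_ifs
    · positivity
    · exact le_rfl
  have hfs : ∑ k ∈ range (2 * n + 1), ((k : ℝ) + 1) * f k ≤ 12 * (n : ℝ) ^ (43 / 24 : ℝ) := by
    have hterm : ∀ k ∈ range (2 * n + 1), ((k : ℝ) + 1) * f k ≤ 4 * (n : ℝ) ^ (19 / 24 : ℝ) := by
      intro k hk
      rw [Finset.mem_range] at hk
      rw [hf]
      simp only
      split_ifs with h1
      · have hk1 : (1 : ℝ) ≤ k := by exact_mod_cast h1
        have hk0 : (0 : ℝ) < k := by linarith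
        have hk2 : (k : ℝ) ≤ 2 * n := by exact_mod_cast (by omega : k ≤ 2 * n)
        have e1 : (k : ℝ) * (k : ℝ) ^ (-(5 / 24 : ℝ)) = (k : ℝ) ^ (19 / 24 : ℝ) := by
          rw [mul_comm, ← Real.rpow_add_one hk0.ne']
          congr 1
          norm_num
        have h4 : (k : ℝ) ^ (19 / 24 : ℝ) ≤ 2 * (n : ℝ) ^ (19 / 24 : ℝ) := by
          calc (k : ℝ) ^ (19 / 24 : ℝ) ≤ (2 * (n : ℝ)) ^ (19 / 24 : ℝ) :=
                Real.rpow_le_rpow hk0.le hk2 (by norm_num)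
            _ = 2 ^ (19 / 24 : ℝ) * (n : ℝ) ^ (19 / 24 : ℝ) :=
                Real.mul_rpow (by norm_num) hn0.le
            _ ≤ 2 ^ (1 : ℝ) * (n : ℝ) ^ (19 / 24 : ℝ) := by
                apply mul_le_mul_of_nonneg_right _ (by positivity)
                exact Real.rpow_le_rpow_of_exponent_le (by norm_num) (by norm_num)
            _ = _ := by rw [Real.rpow_one]
        have h5 : (0 : ℝ) ≤ (k : ℝ) ^ (-(5 / 24 : ℝ)) := by positivity
        nlinarith
      · rw [mul_zero]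
        positivity
    calc ∑ k ∈ range (2 * n + 1), ((k : ℝ) + 1) * f k
        ≤ ∑ k ∈ range (2 * n + 1), 4 * (n : ℝ) ^ (19 / 24 : ℝ) := Finset.sum_le_sum hterm
      _ = (2 * (n : ℝ) + 1) * (4 * (n : ℝ) ^ (19 / 24 : ℝ)) := by
          rw [Finset.sum_const, Finset.card_range, nsmul_eq_mul]
          push_cast
          ring
      _ ≤ (3 * (n : ℝ)) * (4 * (n : ℝ) ^ (19 / 24 : ℝ)) := by
          apply mul_le_mul_of_nonneg_right _ (by positivity)
          linarith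
      _ = 12 * (n : ℝ) ^ (43 / 24 : ℝ) := by
          have : (43 / 24 : ℝ) = 19 / 24 + 1 := by norm_num
          rw [this, Real.rpow_add_one hn0.ne']
          ring
  have hinner : ∀ x ∈ bx n, ∑ y ∈ bx n, PX (insert y (insert x ∅)) ≤
      (1 + 96 * C) * (n : ℝ) ^ (43 / 24 : ℝ) := by
    intro x hx
    have hpt : ∀ y ∈ bx n, PX (insert y (insert x ∅)) ≤
        (if y = x then 1 else 0) + C * f (nv (y - x)) := by
      intro y _
      by_cases hxy : y = x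
      · rw [if_pos hxy, hxy, Finset.insert_idem]
        have h1 : PX (insert x ∅) = 1 := PX_singleton x
        rw [h1]
        have := hf0 (nv (x - x))
        nlinarith
      · rw [if_neg hxy, zero_add]
        have h1 := (h y x hxy).2
        have h2 : 1 ≤ sd y x := sd_pos hxy
        rw [hf]
        simp only
        rw [← sd_eq, if_pos h2]
        exact h1
    calc ∑ y ∈ bx n, PX (insert y (insert x ∅))
        ≤ ∑ y ∈ bx n, ((if y = x then 1 else 0) + C * f (nv (y - x))) := Finset.sum_le_sum hpt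
      _ = (∑ y ∈ bx n, if y = x then (1 : ℝ) else 0) + C * ∑ y ∈ bx n, f (nv (y - x)) := by
          rw [Finset.sum_add_distrib, Finset.mul_sum]
      _ ≤ 1 + C * (8 * (12 * (n : ℝ) ^ (43 / 24 : ℝ))) := by
          apply add_le_add
          · rw [Finset.sum_ite_eq' (bx n) x (fun _ => (1 : ℝ)), if_pos hx]
          · apply mul_le_mul_of_nonneg_left _ hC.le
            refine (sum_bx_shift n x hx f hf0).trans ?_
            linarith
      _ ≤ _ := by
          have : (1 : ℝ) ≤ (n : ℝ) ^ (43 / 24 : ℝ) := Real.one_le_rpow hn1 (by norm_num)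
          nlinarith
  calc ∑ x ∈ bx n, ∑ y ∈ bx n, PX (insert y (insert x ∅))
      ≤ ∑ x ∈ bx n, (1 + 96 * C) * (n : ℝ) ^ (43 / 24 : ℝ) := Finset.sum_le_sum hinner
    _ = (2 * (n : ℝ) + 1) ^ 2 * ((1 + 96 * C) * (n : ℝ) ^ (43 / 24 : ℝ)) := by
        rw [Finset.sum_const, nsmul_eq_mul, w_card_bx]
    _ ≤ 9 * (n : ℝ) ^ 2 * ((1 + 96 * C) * (n : ℝ) ^ (43 / 24 : ℝ)) := by
        apply mul_le_mul_of_nonneg_right _ (by positivity)
        nlinarith
    _ = 9 * (1 + 96 * C) * (n : ℝ) ^ (91 / 24 : ℝ) := by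
        have e : (n : ℝ) ^ (91 / 24 : ℝ) = (n : ℝ) ^ 2 * (n : ℝ) ^ (43 / 24 : ℝ) := by
          rw [← Real.rpow_natCast (n : ℝ) 2, ← Real.rpow_add hn0]
          norm_num
        rw [e]
        ring

theorem W_empty (hAr : ArS) : ∃ C : ℝ, 0 < C ∧ ∀ n : ℕ, 1 ≤ n → ∀ k : ℕ,
    W n (k + 2) ∅ ≤ C * (n : ℝ) ^ (91 / 24 : ℝ) *
      (C * ((n : ℝ) ^ (91 / 48 : ℝ) * ((k + 2 : ℕ) : ℝ) ^ (5 / 96 : ℝ))) ^ k := by
  classical
  obtain ⟨C1, hC1, h1⟩ := step_sum hAr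
  obtain ⟨C2, hC2, h2⟩ := pair_sum hAr
  refine ⟨max C1 C2, lt_max_of_lt_left hC1, fun n hn k => ?_⟩
  have hn0 : (0 : ℝ) < n := by exact_mod_cast hn
  set B : ℝ := C1 * ((n : ℝ) ^ (91 / 48 : ℝ) * ((k + 2 : ℕ) : ℝ) ^ (5 / 96 : ℝ)) with hB
  have hB0 : 0 ≤ B := by positivity
  have hBm : B ≤ max C1 C2 * ((n : ℝ) ^ (91 / 48 : ℝ) * ((k + 2 : ℕ) : ℝ) ^ (5 / 96 : ℝ)) :=
    mul_le_mul_of_nonneg_right (le_max_left _ _) (by positivity)
  show ∑ x ∈ bx n, ∑ y ∈ bx n, W n k (insert y (insert x ∅)) ≤ _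
  calc ∑ x ∈ bx n, ∑ y ∈ bx n, W n k (insert y (insert x ∅))
      ≤ ∑ x ∈ bx n, ∑ y ∈ bx n, B ^ k * PX (insert y (insert x ∅)) := by
        apply Finset.sum_le_sum
        intro x hx
        apply Finset.sum_le_sum
        intro y hy
        apply W_bound hC1 hn (h1 n hn) k _ (k + 2) (Finset.insert_nonempty _ _)
        · exact Finset.insert_subset hy (Finset.insert_subset hx (Finset.empty_subset _))
        · have e1 := Finset.card_insert_le y (insert x (∅ : Finset Vtx))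
          have e2 := Finset.card_insert_le x (∅ : Finset Vtx)
          rw [Finset.card_empty] at e2
          omega
    _ = B ^ k * ∑ x ∈ bx n, ∑ y ∈ bx n, PX (insert y (insert x ∅)) := by
        rw [Finset.mul_sum]
        apply Finset.sum_congr rfl
        intro x _
        rw [Finset.mul_sum]
    _ ≤ B ^ k * (C2 * (n : ℝ) ^ (91 / 24 : ℝ)) :=
        mul_le_mul_of_nonneg_left (h2 n hn) (by positivity)
    _ ≤ (max C1 C2 * ((n : ℝ) ^ (91 / 48 : ℝ) * ((k + 2 : ℕ) : ℝ) ^ (5 / 96 : ℝ))) ^ k *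
        (max C1 C2 * (n : ℝ) ^ (91 / 24 : ℝ)) := by
        apply mul_le_mul (pow_le_pow_left₀ hB0 hBm k)
          (mul_le_mul_of_nonneg_right (le_max_right _ _) (by positivity)) (by positivity)
          (by positivity)
    _ = _ := by ring

/-- the upper bound for the upper tail -/
theorem upper_tail_upper (hAr : ArS) : ∃ c C : ℝ, 0 < c ∧ 0 < C ∧ ∀ n : ℕ, 1 ≤ n → ∀ x : ℝ,
    1 ≤ x → Pr P (boxE n) (Big (x * (n : ℝ) ^ (91 / 48 : ℝ)) n) ≤
      C * Real.exp (-(c * x ^ (96 / 5 : ℝ))) := by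
  obtain ⟨C, hC, h⟩ := W_empty hAr
  set b : ℝ := 1 / (Real.exp 1 * C) with hb
  have he := Real.exp_pos 1
  have hb0 : 0 < b := by positivity
  refine ⟨b ^ (96 / 5 : ℝ), (C + 1) * Real.exp 3, by positivity, by positivity,
    fun n hn x hx => ?_⟩
  have hn0 : (0 : ℝ) < n := by exact_mod_cast hn
  have hx0 : 0 < x := by linarith
  set t : ℝ := (b * x) ^ (96 / 5 : ℝ) with ht
  have ht0 : 0 < t := by positivity
  have htx : b ^ (96 / 5 : ℝ) * x ^ (96 / 5 : ℝ) = t := by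
    rw [ht, Real.mul_rpow hb0.le hx0.le]
  rw [htx]
  by_cases h2 : t < 2
  · -- trivial bound
    refine (Pr_le_one w_ok _ _).trans ?_
    have h3 : (1 : ℝ) ≤ Real.exp 3 * Real.exp (-t) := by
      rw [← Real.exp_add]
      apply Real.one_le_exp
      linarith
    have h4 : 0 ≤ Real.exp 3 * Real.exp (-t) := by positivity
    nlinarith
  · push Not at h2
    obtain ⟨k, hk⟩ : ∃ k : ℕ, ⌊t⌋₊ = k + 2 := by
      have : 2 ≤ ⌊t⌋₊ := Nat.le_floor (by exact_mod_cast h2)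
      exact ⟨⌊t⌋₊ - 2, by omega⟩
    have hk1 : ((k + 2 : ℕ) : ℝ) ≤ t := by
      rw [← hk]
      exact Nat.floor_le ht0.le
    have hk2 : t < (k : ℝ) + 3 := by
      have := Nat.lt_floor_add_one t
      rw [hk] at this
      push_cast at this
      linarith
    set N : ℝ := x * (n : ℝ) ^ (91 / 48 : ℝ) with hN
    have hN0 : 0 < N := by positivity
    have h5 := (big_moment (n := n) hN0.le (k + 2)).trans (h n hn k)
    have h6 : ((k + 2 : ℕ) : ℝ) ^ (5 / 96 : ℝ) ≤ b * x := by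
      calc ((k + 2 : ℕ) : ℝ) ^ (5 / 96 : ℝ) ≤ t ^ (5 / 96 : ℝ) :=
            Real.rpow_le_rpow (by positivity) hk1 (by norm_num)
        _ = b * x := by
            rw [ht, ← Real.rpow_mul (by positivity)]
            norm_num
    have h7 : C * ((n : ℝ) ^ (91 / 48 : ℝ) * ((k + 2 : ℕ) : ℝ) ^ (5 / 96 : ℝ)) ≤
        N * Real.exp (-1) := by
      calc C * ((n : ℝ) ^ (91 / 48 : ℝ) * ((k + 2 : ℕ) : ℝ) ^ (5 / 96 : ℝ))
          ≤ C * ((n : ℝ) ^ (91 / 48 : ℝ) * (b * x)) := by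
            apply mul_le_mul_of_nonneg_left _ hC.le
            exact mul_le_mul_of_nonneg_left h6 (by positivity)
        _ = N * Real.exp (-1) := by
            rw [hN, hb, Real.exp_neg]
            field_simp
    have h8 : (n : ℝ) ^ (91 / 24 : ℝ) ≤ N ^ 2 := by
      rw [hN, mul_pow, ← Real.rpow_natCast ((n : ℝ) ^ (91 / 48 : ℝ)) 2, ← Real.rpow_mul hn0.le]
      norm_num
      have : (1 : ℝ) ≤ x ^ 2 := one_le_pow₀ hx
      have h9 : (0 : ℝ) ≤ (n : ℝ) ^ (91 / 24 : ℝ) := by positivity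
      nlinarith
    have h10 : C * (n : ℝ) ^ (91 / 24 : ℝ) *
        (C * ((n : ℝ) ^ (91 / 48 : ℝ) * ((k + 2 : ℕ) : ℝ) ^ (5 / 96 : ℝ))) ^ k ≤
        N ^ (k + 2) * (C * Real.exp (-1) ^ k) := by
      calc _ ≤ C * N ^ 2 * (N * Real.exp (-1)) ^ k := by
            apply mul_le_mul _ (pow_le_pow_left₀ (by positivity) h7 k) (by positivity)
              (by positivity)
            exact mul_le_mul_of_nonneg_left h8 hC.le
        _ = _ := by rw [mul_pow]; ring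
    have h11 : Pr P (boxE n) (Big N n) ≤ C * Real.exp (-1) ^ k := by
      have h12 : N ^ (k + 2) * Pr P (boxE n) (Big N n) ≤ N ^ (k + 2) * (C * Real.exp (-1) ^ k) :=
        h5.trans h10
      exact le_of_mul_le_mul_left h12 (by positivity)
    refine h11.trans ?_
    rw [← Real.exp_nat_mul, mul_assoc, ← Real.exp_add]
    have h13 : Real.exp ((k : ℝ) * -1) ≤ Real.exp (3 + -t) := by
      apply Real.exp_le_exp.mpr
      linarith
    have h14 : 0 ≤ Real.exp (3 + -t) := (Real.exp_pos _).le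
    nlinarith [Real.exp_pos ((k : ℝ) * -1)]

end Pool.Agent.Y244.PC
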