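import Pool.Agent.Y244.PC.ManyLaw

/-!
Numbers of large clusters and ranked cluster sizes of a box at criticality: final estimates.
-/

set_option autoImplicit false

namespace Pool.Agent.Y244.PC
open Finset H974 Pool.Agent.H160R2.CV MeasureTheory Pool.Agent.H389R2.CD

/-- the expected order of the number of clusters with at least `V` vertices -/
noncomputable def Lam (n : ℕ) (V : ℝ) : ℝ := (n : ℝ) ^ 2 * V ^ (-(96 / 91 : ℝ))

theorem Lam_pos {n : ℕ} (hn : 1 ≤ n) {V : ℝ} (hV : 1 ≤ V) : 0 < Lam n V := by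
  have : (0 : ℝ) < n := by exact_mod_cast hn
  unfold Lam
  positivity

theorem Lam_ge_one {n : ℕ} (hn : 1 ≤ n) {V : ℝ} (hV : 1 ≤ V)
    (hVn : V ≤ (n : ℝ) ^ (91 / 48 : ℝ)) : 1 ≤ Lam n V := by
  have hn0 : (0 : ℝ) < n := by exact_mod_cast hn
  have hV0 : 0 < V := by linarith
  unfold Lam
  have h1 : ((n : ℝ) ^ (91 / 48 : ℝ)) ^ (-(96 / 91 : ℝ)) ≤ V ^ (-(96 / 91 : ℝ)) :=
    Real.rpow_le_rpow_of_nonpos hV0 hVn (by norm_num)
  have h2 : ((n : ℝ) ^ (91 / 48 : ℝ)) ^ (-(96 / 91 : ℝ)) = ((n : ℝ) ^ 2)⁻¹ := by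
    rw [← Real.rpow_mul hn0.le, ← Real.rpow_natCast (n : ℝ) 2, ← Real.rpow_neg hn0.le]
    norm_num
  rw [h2] at h1
  have h3 : (0 : ℝ) < (n : ℝ) ^ 2 := by positivity
  calc (1 : ℝ) = (n : ℝ) ^ 2 * ((n : ℝ) ^ 2)⁻¹ := by field_simp
    _ ≤ _ := mul_le_mul_of_nonneg_left h1 h3.le

theorem cnt_lower_dev (hAr : ArS) : ∃ c C : ℝ, 0 < c ∧ 0 < C ∧ ∀ n : ℕ, 1 ≤ n → ∀ V : ℝ,
    1 ≤ V → V ≤ (n : ℝ) ^ (91 / 48 : ℝ) →
    (bondLaw hlf).real {ω | (cnt n V ω : ℝ) ≤ c * Lam n V} ≤ C * Real.exp (-(c * Lam n V)) := by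
  obtain ⟨c, C, hc, hC, h⟩ := many_lower hAr
  refine ⟨c, C, hc, hC, fun n hn V hV hVn => ?_⟩
  have hL : 0 ≤ c * Lam n V := mul_nonneg hc.le (Lam_pos hn hV).le
  have h1 := h n hn V hV hVn (⌊c * Lam n V⌋₊ + 1) (by
    push_cast
    have := Nat.floor_le hL
    unfold Lam at this
    unfold Lam
    linarith)
  refine le_trans ?_ h1
  rw [← law_cnt_lt]
  refine measureReal_mono ?_
  intro ω hω
  exact Nat.lt_succ_of_le (Nat.le_floor hω)

theorem cnt_upper_dev (hAr : ArS) : ∃ D : ℝ, 1 ≤ D ∧ ∀ n : ℕ, 1 ≤ n → ∀ V : ℝ,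
    1 ≤ V → V ≤ (n : ℝ) ^ (91 / 48 : ℝ) → ∀ t : ℝ, D ≤ t →
    (bondLaw hlf).real {ω | t * Lam n V ≤ (cnt n V ω : ℝ)} ≤ Real.exp (-(t * Lam n V)) := by
  obtain ⟨D, hD, h⟩ := many_upper hAr
  refine ⟨D, hD, fun n hn V hV hVn t ht => ?_⟩
  have hL := Lam_pos hn hV
  have h1 := h n hn V hV hVn ⌈t * Lam n V⌉₊ (by
    refine le_trans ?_ (Nat.le_ceil _)
    exact mul_le_mul_of_nonneg_right ht hL.le)
  rw [← law_cnt] at h1
  refine le_trans (measureReal_mono ?_) (h1.trans ?_)
  · intro ω hω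
    exact Nat.ceil_le.mpr hω
  · apply Real.exp_le_exp.mpr
    have := Nat.le_ceil (t * Lam n V)
    linarith

/-- expected order of the `k`-th largest cluster -/
noncomputable def Xk (n k : ℕ) : ℝ := (n : ℝ) ^ (91 / 48 : ℝ) * (k : ℝ) ^ (-(91 / 96 : ℝ))

theorem Xk_pos {n k : ℕ} (hn : 1 ≤ n) (hk : 1 ≤ k) : 0 < Xk n k := by
  have h1 : (0 : ℝ) < n := by exact_mod_cast hn
  have h2 : (0 : ℝ) < k := by exact_mod_cast hk
  unfold Xk
  positivity

theorem Xk_le {n k : ℕ} (hk : 1 ≤ k) : Xk n k ≤ (n : ℝ) ^ (91 / 48 : ℝ) := by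
  have h2 : (1 : ℝ) ≤ k := by exact_mod_cast hk
  unfold Xk
  have h3 : (k : ℝ) ^ (-(91 / 96 : ℝ)) ≤ 1 := Real.rpow_le_one_of_one_le_of_nonpos h2 (by norm_num)
  have h4 : 0 ≤ (n : ℝ) ^ (91 / 48 : ℝ) := by positivity
  nlinarith

theorem Lam_Xk {n k : ℕ} (hn : 1 ≤ n) (hk : 1 ≤ k) {a : ℝ} (ha : 0 < a) :
    Lam n (a * Xk n k) = a ^ (-(96 / 91 : ℝ)) * k := by
  have h1 : (0 : ℝ) < n := by exact_mod_cast hn
  have h2 : (0 : ℝ) < k := by exact_mod_cast hk
  unfold Lam Xk
  rw [Real.mul_rpow ha.le (by positivity), Real.mul_rpow (by positivity) (by positivity),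
    ← Real.rpow_mul h1.le, ← Real.rpow_mul h2.le]
  have e1 : (91 / 48 : ℝ) * -(96 / 91 : ℝ) = -((2 : ℕ) : ℝ) := by norm_num
  have e2 : (-(91 / 96 : ℝ)) * -(96 / 91 : ℝ) = 1 := by norm_num
  rw [e1, e2, Real.rpow_one, Real.rpow_neg h1.le, Real.rpow_natCast]
  field_simp

/-- `a * Xk n k` is at least one for `k ≤ a ^ (96/91) * n ^ 2` -/
theorem Xk_ge_one {n k : ℕ} (hn : 1 ≤ n) (hk : 1 ≤ k) {a : ℝ} (ha : 0 < a)
    (hkn : (k : ℝ) ≤ a ^ (96 / 91 : ℝ) * (n : ℝ) ^ 2) : 1 ≤ a * Xk n k := by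
  have h1 : (0 : ℝ) < n := by exact_mod_cast hn
  have h2 : (0 : ℝ) < k := by exact_mod_cast hk
  have h3 : (k : ℝ) ^ (91 / 96 : ℝ) ≤ a * (n : ℝ) ^ (91 / 48 : ℝ) := by
    calc (k : ℝ) ^ (91 / 96 : ℝ) ≤ (a ^ (96 / 91 : ℝ) * (n : ℝ) ^ 2) ^ (91 / 96 : ℝ) :=
          Real.rpow_le_rpow h2.le hkn (by norm_num)
      _ = a * (n : ℝ) ^ (91 / 48 : ℝ) := by
          rw [Real.mul_rpow (by positivity) (by positivity), ← Real.rpow_mul ha.le,
            ← Real.rpow_natCast (n : ℝ) 2, ← Real.rpow_mul h1.le]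
          norm_num
  unfold Xk
  rw [Real.rpow_neg h2.le]
  have h4 : 0 < (k : ℝ) ^ (91 / 96 : ℝ) := by positivity
  rw [← mul_assoc, ← div_eq_mul_inv, le_div_iff₀ h4, one_mul]
  exact h3

theorem rank_dev (hAr : ArS) : ∃ c C : ℝ, 0 < c ∧ c ≤ 1 ∧ 1 ≤ C ∧ ∀ n : ℕ, 1 ≤ n → ∀ k : ℕ,
    1 ≤ k → (k : ℝ) ≤ c * (n : ℝ) ^ 2 →
    (bondLaw hlf).real {ω | (rank n k ω : ℝ) < c * Xk n k} ≤ C * Real.exp (-k) ∧
    (bondLaw hlf).real {ω | C * Xk n k < (rank n k ω : ℝ)} ≤ C * Real.exp (-k) := by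
  obtain ⟨c1, C1, hc1, hC1, h1⟩ := many_lower hAr
  obtain ⟨D, hD, h2⟩ := many_upper hAr
  set a : ℝ := min 1 (c1 ^ (91 / 96 : ℝ)) with ha
  have ha0 : 0 < a := by positivity
  have ha1 : a ≤ 1 := min_le_left _ _
  have ha2 : a ≤ c1 ^ (91 / 96 : ℝ) := min_le_right _ _
  set A : ℝ := D ^ (91 / 96 : ℝ) with hA
  have hD0 : 0 < D := by linarith
  have hA1 : 1 ≤ A := Real.one_le_rpow hD (by norm_num)
  have hA0 : 0 < A := by linarith
  set c : ℝ := min a (a ^ (96 / 91 : ℝ)) with hc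
  have hc0 : 0 < c := by positivity
  have hca : c ≤ a := min_le_left _ _
  have hca2 : c ≤ a ^ (96 / 91 : ℝ) := min_le_right _ _
  set C : ℝ := max (max C1 A) (Real.exp D) with hC
  have hCC1 : C1 ≤ C := (le_max_left _ _).trans (le_max_left _ _)
  have hCA : A ≤ C := (le_max_right _ _).trans (le_max_left _ _)
  have hCe : Real.exp D ≤ C := le_max_right _ _
  refine ⟨c, C, hc0, hca.trans ha1, hA1.trans hCA, fun n hn k hk hkn => ?_⟩
  have hn0 : (0 : ℝ) < n := by exact_mod_cast hn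
  have hk0 : (0 : ℝ) < k := by exact_mod_cast hk
  have hk1 : (1 : ℝ) ≤ k := by exact_mod_cast hk
  have hX := Xk_pos hn hk
  have hn2 : (0 : ℝ) < (n : ℝ) ^ 2 := by positivity
  constructor
  · -- lower
    have hV1 : 1 ≤ a * Xk n k := by
      apply Xk_ge_one hn hk ha0
      exact hkn.trans (mul_le_mul_of_nonneg_right hca2 hn2.le)
    have hVn : a * Xk n k ≤ (n : ℝ) ^ (91 / 48 : ℝ) := by
      have := Xk_le (n := n) hk
      nlinarith
    have hΛ : (k : ℝ) ≤ c1 * Lam n (a * Xk n k) := by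
      rw [Lam_Xk hn hk ha0, Real.rpow_neg ha0.le]
      have h3 : a ^ (96 / 91 : ℝ) ≤ c1 := by
        calc a ^ (96 / 91 : ℝ) ≤ (c1 ^ (91 / 96 : ℝ)) ^ (96 / 91 : ℝ) :=
              Real.rpow_le_rpow ha0.le ha2 (by norm_num)
          _ = c1 := by
              rw [← Real.rpow_mul hc1.le]
              norm_num
      have h4 : 0 < a ^ (96 / 91 : ℝ) := by positivity
      have h5 : 1 ≤ c1 * (a ^ (96 / 91 : ℝ))⁻¹ := by
        rw [← div_eq_mul_inv, le_div_iff₀ h4, one_mul]
        exact h3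
      nlinarith
    have h3 := h1 n hn (a * Xk n k) hV1 hVn k (by
      unfold Lam at hΛ
      linarith)
    have h3' : Pr P (boxE n) (fun F => ¬ Many n (a * Xk n k) k F) ≤
        C1 * Real.exp (-(c1 * Lam n (a * Xk n k))) := h3
    rw [← law_cnt_lt] at h3'
    refine le_trans (measureReal_mono ?_) (h3'.trans ?_)
    · intro ω hω
      show cnt n (a * Xk n k) ω < k
      by_contra hge
      push Not at hge
      rw [← le_rank_real hk (by linarith)] at hge
      have h4 : (rank n k ω : ℝ) < c * Xk n k := hω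
      have h5 : c * Xk n k ≤ a * Xk n k := mul_le_mul_of_nonneg_right hca hX.le
      linarith
    · apply mul_le_mul hCC1 _ (Real.exp_pos _).le (hC1.le.trans hCC1)
      apply Real.exp_le_exp.mpr
      linarith
  · -- upper
    by_cases hkD : D ≤ k
    · have hV1 : 1 ≤ A * Xk n k := by
        have h3 : 1 ≤ 1 * Xk n k := by
          apply Xk_ge_one hn hk one_pos
          rw [Real.one_rpow, one_mul]
          have : c * (n : ℝ) ^ 2 ≤ 1 * (n : ℝ) ^ 2 :=
            mul_le_mul_of_nonneg_right (hca.trans ha1) hn2.le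
          linarith
        nlinarith
      have hVn : A * Xk n k ≤ (n : ℝ) ^ (91 / 48 : ℝ) := by
        unfold Xk
        rw [Real.rpow_neg hk0.le]
        have h4 : 0 < (k : ℝ) ^ (91 / 96 : ℝ) := by positivity
        have h5 : A ≤ (k : ℝ) ^ (91 / 96 : ℝ) := Real.rpow_le_rpow hD0.le hkD (by norm_num)
        have h6 : 0 ≤ (n : ℝ) ^ (91 / 48 : ℝ) := by positivity
        calc A * ((n : ℝ) ^ (91 / 48 : ℝ) * ((k : ℝ) ^ (91 / 96 : ℝ))⁻¹)
            = (n : ℝ) ^ (91 / 48 : ℝ) * (A / (k : ℝ) ^ (91 / 96 : ℝ)) := by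
              rw [div_eq_mul_inv]; ring
          _ ≤ (n : ℝ) ^ (91 / 48 : ℝ) * 1 := by
              apply mul_le_mul_of_nonneg_left _ h6
              rw [div_le_one h4]
              exact h5
          _ = _ := mul_one _
      have hΛ : D * Lam n (A * Xk n k) ≤ k := by
        rw [Lam_Xk hn hk hA0, hA, ← Real.rpow_mul hD0.le]
        have e1 : (91 / 96 : ℝ) * -(96 / 91 : ℝ) = -1 := by norm_num
        rw [e1, Real.rpow_neg_one]
        apply le_of_eq
        field_simp
      have h3 := h2 n hn (A * Xk n k) hV1 hVn k (by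
        unfold Lam at hΛ
        exact hΛ)
      rw [← law_cnt] at h3
      refine le_trans (measureReal_mono ?_) (h3.trans ?_)
      · intro ω hω
        show k ≤ cnt n (A * Xk n k) ω
        rw [← le_rank_real hk (by linarith)]
        have h4 : C * Xk n k < (rank n k ω : ℝ) := hω
        have h5 : A * Xk n k ≤ C * Xk n k := mul_le_mul_of_nonneg_right hCA hX.le
        linarith
      · have h6 := Real.exp_pos (-(k : ℝ))
        nlinarith [hA1.trans hCA]
    · push Not at hkD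
      refine measureReal_le_one.trans ?_
      have h3 : (1 : ℝ) ≤ Real.exp D * Real.exp (-k) := by
        rw [← Real.exp_add]
        apply Real.one_le_exp
        linarith
      have h4 := mul_le_mul_of_nonneg_right hCe (Real.exp_pos (-(k : ℝ))).le
      linarith

/-- all the ranks from `k0` on -/
def Good (c C : ℝ) (n k0 : ℕ) (ω : sqLattice.edgeSet → Bool) : Prop :=
  ∀ k : ℕ, k0 ≤ k → (k : ℝ) ≤ c * (n : ℝ) ^ 2 →
    c * Xk n k ≤ (rank n k ω : ℝ) ∧ (rank n k ω : ℝ) ≤ C * Xk n k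

theorem exp_half (j : ℕ) : Real.exp (-(j : ℝ)) ≤ (1 / 2 : ℝ) ^ j := by
  have h1 : Real.exp (-(j : ℝ)) = Real.exp (-1) ^ j := by
    rw [← Real.exp_nat_mul]
    congr 1
    ring
  rw [h1]
  apply pow_le_pow_left₀ (Real.exp_pos _).le
  have h3 : Real.exp (-1) = 1 / Real.exp 1 := by rw [Real.exp_neg, one_div]
  rw [h3]
  apply one_div_le_one_div_of_le (by norm_num)
  have := Real.add_one_le_exp (1 : ℝ)
  linarith

theorem rank_all (hAr : ArS) : ∃ c C : ℝ, 0 < c ∧ c ≤ 1 ∧ 1 ≤ C ∧ ∀ n : ℕ, 1 ≤ n → ∀ k0 : ℕ,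
    1 ≤ k0 → 1 - C * Real.exp (-k0) ≤ (bondLaw hlf).real {ω | Good c C n k0 ω} := by
  obtain ⟨c, C, hc, hc1, hC, h⟩ := rank_dev hAr
  refine ⟨c, 4 * C, hc, hc1, by linarith, fun n hn k0 hk0 => ?_⟩
  set N : ℕ := ⌊c * (n : ℝ) ^ 2⌋₊ with hN
  have hX : ∀ k, 1 ≤ k → 0 < Xk n k := fun k hk => Xk_pos hn hk
  set Bd : ℕ → Set (sqLattice.edgeSet → Bool) := fun k =>
    {ω | (rank n k ω : ℝ) < c * Xk n k} ∪ {ω | C * Xk n k < (rank n k ω : ℝ)} with hBd
  have hcov : (Set.univ : Set (sqLattice.edgeSet → Bool)) ⊆ {ω | Good c (4 * C) n k0 ω} ∪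
      ⋃ k ∈ Finset.Icc k0 N, Bd k := by
    intro ω _
    by_cases hg : Good c (4 * C) n k0 ω
    · exact Or.inl hg
    · right
      unfold Good at hg
      push Not at hg
      obtain ⟨k, h1, h2, h3⟩ := hg
      rw [Set.mem_iUnion₂]
      refine ⟨k, ?_, ?_⟩
      · rw [Finset.mem_Icc]
        exact ⟨h1, Nat.le_floor h2⟩
      · by_cases h4 : c * Xk n k ≤ (rank n k ω : ℝ)
        · right
          show C * Xk n k < (rank n k ω : ℝ)
          have h5 := h3 h4
          have h6 := hX k (by omega)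
          nlinarith
        · left
          exact not_le.mp h4
  have h1 : (1 : ℝ) ≤ (bondLaw hlf).real {ω | Good c (4 * C) n k0 ω} +
      ∑ k ∈ Finset.Icc k0 N, (bondLaw hlf).real (Bd k) := by
    calc (1 : ℝ) = (bondLaw hlf).real Set.univ := by simp
      _ ≤ (bondLaw hlf).real ({ω | Good c (4 * C) n k0 ω} ∪ ⋃ k ∈ Finset.Icc k0 N, Bd k) :=
          measureReal_mono hcov
      _ ≤ (bondLaw hlf).real {ω | Good c (4 * C) n k0 ω} +
          (bondLaw hlf).real (⋃ k ∈ Finset.Icc k0 N, Bd k) := measureReal_union_le _ _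
      _ ≤ _ := by
          gcongr
          exact measureReal_biUnion_finset_le _ _
  have h2 : ∑ k ∈ Finset.Icc k0 N, (bondLaw hlf).real (Bd k) ≤ 4 * C * Real.exp (-k0) := by
    calc ∑ k ∈ Finset.Icc k0 N, (bondLaw hlf).real (Bd k)
        ≤ ∑ k ∈ Finset.Icc k0 N, 2 * C * Real.exp (-(k : ℝ)) := by
          apply Finset.sum_le_sum
          intro k hk
          rw [Finset.mem_Icc] at hk
          have hkn : (k : ℝ) ≤ c * (n : ℝ) ^ 2 := by
            have : (k : ℝ) ≤ N := by exact_mod_cast hk.2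
            exact this.trans (Nat.floor_le (by positivity))
          obtain ⟨a1, a2⟩ := h n hn k (by omega) hkn
          refine (measureReal_union_le _ _).trans ?_
          linarith
      _ = ∑ j ∈ range (N + 1 - k0), 2 * C * Real.exp (-((k0 + j : ℕ) : ℝ)) := by
          have e : Finset.Icc k0 N = Finset.Ico k0 (N + 1) := by
            ext j
            rw [Finset.mem_Icc, Finset.mem_Ico]
            omega
          rw [e, Finset.sum_Ico_eq_sum_range]
      _ ≤ ∑ j ∈ range (N + 1 - k0), 2 * C * Real.exp (-k0) * (1 / 2 : ℝ) ^ j := by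
          apply Finset.sum_le_sum
          intro j _
          have e : Real.exp (-((k0 + j : ℕ) : ℝ)) = Real.exp (-k0) * Real.exp (-(j : ℝ)) := by
            rw [← Real.exp_add]
            congr 1
            push_cast
            ring
          rw [e]
          have h3 := exp_half j
          have h4 : 0 ≤ 2 * C * Real.exp (-k0) := by positivity
          calc 2 * C * (Real.exp (-k0) * Real.exp (-(j : ℝ)))
              = 2 * C * Real.exp (-k0) * Real.exp (-(j : ℝ)) := by ring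
            _ ≤ _ := mul_le_mul_of_nonneg_left h3 h4
      _ = 2 * C * Real.exp (-k0) * ∑ j ∈ range (N + 1 - k0), (1 / 2 : ℝ) ^ j := by
          rw [Finset.mul_sum]
      _ ≤ 2 * C * Real.exp (-k0) * 2 := by
          apply mul_le_mul_of_nonneg_left (sum_geometric_two_le _)
          positivity
      _ = 4 * C * Real.exp (-k0) := by ring
  linarith

/-- the size of the largest cluster is not much larger than its order -/
theorem max_not_large (hAr : ArS) (ε : ℝ) (hε : 0 < ε) : ∃ x : ℝ, 1 ≤ x ∧ ∀ n : ℕ, 1 ≤ n →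
    (bondLaw hlf).real {ω | x * (n : ℝ) ^ (91 / 48 : ℝ) ≤ (rank n 1 ω : ℝ)} ≤ ε := by
  obtain ⟨c, C, hc, hC, h⟩ := upper_tail_upper hAr
  have hx : ∃ x : ℝ, 1 ≤ x ∧ C * Real.exp (-(c * x ^ (96 / 5 : ℝ))) ≤ ε := by
    refine ⟨max 1 (C / (ε * c)), le_max_left _ _, ?_⟩
    set x : ℝ := max 1 (C / (ε * c)) with hx
    have hx1 : 1 ≤ x := le_max_left _ _
    have h1 : x ≤ x ^ (96 / 5 : ℝ) := by
      calc x = x ^ (1 : ℝ) := (Real.rpow_one x).symm
        _ ≤ _ := Real.rpow_le_rpow_of_exponent_le hx1 (by norm_num)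
    have h2 : C / (ε * c) ≤ x ^ (96 / 5 : ℝ) := (le_max_right _ _).trans h1
    have h3 : C / ε ≤ c * x ^ (96 / 5 : ℝ) := by
      rw [div_le_iff₀ (by positivity)] at h2
      rw [div_le_iff₀ hε]
      linarith
    have h4 : C / ε ≤ Real.exp (c * x ^ (96 / 5 : ℝ)) := by
      have := Real.add_one_le_exp (c * x ^ (96 / 5 : ℝ))
      linarith
    rw [Real.exp_neg, ← div_eq_mul_inv, div_le_iff₀ (Real.exp_pos _)]
    rw [div_le_iff₀ hε] at h4
    linarith
  obtain ⟨x, hx1, hx2⟩ := hx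
  refine ⟨x, hx1, fun n hn => ?_⟩
  have hn0 : (0 : ℝ) < n := by exact_mod_cast hn
  have hpos : 0 < x * (n : ℝ) ^ (91 / 48 : ℝ) := by positivity
  have h1 : {ω | x * (n : ℝ) ^ (91 / 48 : ℝ) ≤ (rank n 1 ω : ℝ)} =
      {ω | x * (n : ℝ) ^ (91 / 48 : ℝ) ≤ (maxCl n ω : ℝ)} := by
    ext ω
    exact rank_one n ω hpos
  rw [h1, maxCl_ge]
  exact (h n hn x hx1).trans hx2

/-- Zipf's law for all the ranks, with probability close to one -/
theorem rank_eps (hAr : ArS) (ε : ℝ) (hε : 0 < ε) : ∃ c C : ℝ, 0 < c ∧ 0 < C ∧ ∀ n : ℕ, 1 ≤ n →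
    1 - ε ≤ (bondLaw hlf).real {ω | Good c C n 1 ω} := by
  obtain ⟨c1, C1, hc1, hc11, hC1, h1⟩ := rank_all hAr
  obtain ⟨x, hx1, h2⟩ := max_not_large hAr (ε / 2) (by positivity)
  obtain ⟨k0, hk01, hk0⟩ : ∃ k0 : ℕ, 1 ≤ k0 ∧ C1 * Real.exp (-k0) ≤ ε / 2 := by
    obtain ⟨j, hj⟩ := exists_nat_ge (2 * C1 / ε)
    refine ⟨j + 1, by omega, ?_⟩
    have h3 : 2 * C1 / ε ≤ Real.exp ((j + 1 : ℕ) : ℝ) := by
      have := Real.add_one_le_exp ((j + 1 : ℕ) : ℝ)
      push_cast at this ⊢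
      linarith
    rw [Real.exp_neg, ← div_eq_mul_inv, div_le_iff₀ (Real.exp_pos _)]
    rw [div_le_iff₀ hε] at h3
    linarith
  have hk0r : (1 : ℝ) ≤ k0 := by exact_mod_cast hk01
  have hk0p : (0 : ℝ) < k0 := by linarith
  set κ : ℝ := (k0 : ℝ) ^ (91 / 96 : ℝ) with hκ
  have hκ1 : 1 ≤ κ := Real.one_le_rpow hk0r (by norm_num)
  have hκ0 : 0 < κ := by linarith
  refine ⟨min (c1 / κ) (c1 / k0), C1 + x * κ, by positivity, by positivity, fun n hn => ?_⟩
  set c : ℝ := min (c1 / κ) (c1 / k0) with hc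
  have hcκ : c ≤ c1 / κ := min_le_left _ _
  have hck : c ≤ c1 / k0 := min_le_right _ _
  have hcc1 : c ≤ c1 := hcκ.trans (div_le_self hc1.le hκ1)
  have hn0 : (0 : ℝ) < n := by exact_mod_cast hn
  have hn2 : (0 : ℝ) < (n : ℝ) ^ 2 := by positivity
  have hXk0 : Xk n k0 = (n : ℝ) ^ (91 / 48 : ℝ) / κ := by
    unfold Xk
    rw [Real.rpow_neg hk0p.le, ← hκ, ← div_eq_mul_inv]
  have hcov : {ω | Good c1 C1 n k0 ω} ⊆ {ω | Good c (C1 + x * κ) n 1 ω} ∪
      {ω | x * (n : ℝ) ^ (91 / 48 : ℝ) ≤ (rank n 1 ω : ℝ)} := by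
    intro ω hg
    by_cases hlarge : x * (n : ℝ) ^ (91 / 48 : ℝ) ≤ (rank n 1 ω : ℝ)
    · exact Or.inr hlarge
    · left
      push Not at hlarge
      intro k hk hkn
      have hX := Xk_pos hn hk
      have hk1 : (1 : ℝ) ≤ k := by exact_mod_cast hk
      rcases Nat.lt_or_ge k k0 with hlt | hge
      · -- small ranks
        have hk0n : (k0 : ℝ) ≤ c1 * (n : ℝ) ^ 2 := by
          have h3 : (1 : ℝ) ≤ c1 / k0 * (n : ℝ) ^ 2 := by
            have := mul_le_mul_of_nonneg_right hck hn2.le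
            linarith
          have h4 : c1 / k0 * (n : ℝ) ^ 2 = c1 * (n : ℝ) ^ 2 / k0 := by ring
          rw [h4, le_div_iff₀ hk0p] at h3
          linarith
        have h5 := (hg k0 le_rfl hk0n).1
        have h6 : (rank n k0 ω : ℝ) ≤ (rank n k ω : ℝ) := by
          exact_mod_cast rank_anti hk hlt.le ω
        have h7 : (rank n k ω : ℝ) ≤ (rank n 1 ω : ℝ) := by
          exact_mod_cast rank_anti le_rfl hk ω
        constructor
        · calc c * Xk n k ≤ c1 / κ * (n : ℝ) ^ (91 / 48 : ℝ) :=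
                mul_le_mul hcκ (Xk_le hk) hX.le (by positivity)
            _ = c1 * Xk n k0 := by rw [hXk0]; ring
            _ ≤ _ := h5.trans h6
        · have h8 : (n : ℝ) ^ (91 / 48 : ℝ) ≤ κ * Xk n k := by
            have h9 : (n : ℝ) ^ (91 / 48 : ℝ) = κ * Xk n k0 := by
              rw [hXk0]
              field_simp
            rw [h9]
            apply mul_le_mul_of_nonneg_left _ hκ0.le
            unfold Xk
            apply mul_le_mul_of_nonneg_left _ (by positivity)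
            apply Real.rpow_le_rpow_of_nonpos (by linarith) _ (by norm_num)
            exact_mod_cast hlt.le
          calc (rank n k ω : ℝ) ≤ x * (n : ℝ) ^ (91 / 48 : ℝ) := h7.trans hlarge.le
            _ ≤ x * (κ * Xk n k) := mul_le_mul_of_nonneg_left h8 (by linarith)
            _ ≤ (C1 + x * κ) * Xk n k := by
                have : 0 ≤ C1 * Xk n k := by positivity
                nlinarith
      · have hkn' : (k : ℝ) ≤ c1 * (n : ℝ) ^ 2 :=
          hkn.trans (mul_le_mul_of_nonneg_right hcc1 hn2.le)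
        obtain ⟨h5, h6⟩ := hg k hge hkn'
        constructor
        · exact (mul_le_mul_of_nonneg_right hcc1 hX.le).trans h5
        · refine h6.trans ?_
          have : 0 ≤ x * κ * Xk n k := by positivity
          nlinarith
  have h3 := h1 n hn k0 hk01
  have h4 : (bondLaw hlf).real {ω | Good c1 C1 n k0 ω} ≤
      (bondLaw hlf).real {ω | Good c (C1 + x * κ) n 1 ω} +
      (bondLaw hlf).real {ω | x * (n : ℝ) ^ (91 / 48 : ℝ) ≤ (rank n 1 ω : ℝ)} :=
    (measureReal_mono hcov).trans (measureReal_union_le _ _)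
  have h5 := h2 n hn
  linarith

/-! ### the mean -/

theorem cnt_integral (n : ℕ) (V : ℝ) : ∫ ω, (cnt n V ω : ℝ) ∂(bondLaw hlf) =
    ∑ j ∈ range ((2 * n + 1) ^ 2), (bondLaw hlf).real {ω | j + 1 ≤ cnt n V ω} := by
  have hm : ∀ j : ℕ, MeasurableSet {ω : sqLattice.edgeSet → Bool | j + 1 ≤ cnt n V ω} := by
    intro j
    have h1 : {ω : sqLattice.edgeSet → Bool | j + 1 ≤ cnt n V ω} =
        {ω | Many n V (j + 1) (FF (boxE n) ω)} := by
      ext ω
      exact cnt_iff n V (j + 1) ω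
    rw [h1]
    exact meas_event _ _
  have h1 : ∀ ω : sqLattice.edgeSet → Bool, (cnt n V ω : ℝ) =
      ∑ j ∈ range ((2 * n + 1) ^ 2),
        Set.indicator {ω : sqLattice.edgeSet → Bool | j + 1 ≤ cnt n V ω} (fun _ => (1 : ℝ)) ω := by
    intro ω
    have h2 : ∀ j ∈ range ((2 * n + 1) ^ 2),
        Set.indicator {ω : sqLattice.edgeSet → Bool | j + 1 ≤ cnt n V ω} (fun _ => (1 : ℝ)) ω =
        if j < cnt n V ω then 1 else 0 := by
      intro j _
      by_cases h : j + 1 ≤ cnt n V ω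
      · rw [Set.indicator_of_mem (show ω ∈ {ω | j + 1 ≤ cnt n V ω} from h), if_pos (by omega)]
      · rw [Set.indicator_of_notMem (show ω ∉ {ω | j + 1 ≤ cnt n V ω} from h), if_neg (by omega)]
    rw [Finset.sum_congr rfl h2, Finset.sum_ite, Finset.sum_const_zero, add_zero,
      Finset.sum_const, nsmul_eq_mul, mul_one]
    have h3 : (range ((2 * n + 1) ^ 2)).filter (fun j => j < cnt n V ω) = range (cnt n V ω) := by
      ext j
      rw [Finset.mem_filter, Finset.mem_range, Finset.mem_range]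
      have := cnt_le n V ω
      omega
    rw [h3, Finset.card_range]
  simp_rw [h1]
  rw [integral_finset_sum]
  · apply Finset.sum_congr rfl
    intro j _
    rw [integral_indicator_const _ (hm j)]
    simp
  · intro j _
    exact (integrable_const _).indicator (hm j)

theorem cnt_mean (hAr : ArS) : ∃ c C : ℝ, 0 < c ∧ 0 < C ∧ ∀ n : ℕ, 1 ≤ n → ∀ V : ℝ,
    1 ≤ V → V ≤ (n : ℝ) ^ (91 / 48 : ℝ) →
    c * Lam n V ≤ ∫ ω, (cnt n V ω : ℝ) ∂(bondLaw hlf) ∧
    ∫ ω, (cnt n V ω : ℝ) ∂(bondLaw hlf) ≤ C * Lam n V := by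
  obtain ⟨c1, C1, hc1, hC1, h1⟩ := cnt_lower_dev hAr
  obtain ⟨D, hD, h2⟩ := many_upper hAr
  obtain ⟨C3, hC3, h3⟩ := upper_tail_lower hAr
  set L0 : ℝ := max 1 (Real.log (2 * C1) / c1) with hL0
  have hL01 : 1 ≤ L0 := le_max_left _ _
  refine ⟨min (c1 / 2) (Real.exp (-C3) / L0), D + 2, by positivity, by linarith,
    fun n hn V hV hVn => ?_⟩
  have hL := Lam_pos hn hV
  have hL1 := Lam_ge_one hn hV hVn
  have hn0 : (0 : ℝ) < n := by exact_mod_cast hn
  have hn1 : (1 : ℝ) ≤ n := by exact_mod_cast hn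
  rw [cnt_integral]
  set N := (2 * n + 1) ^ 2 with hN
  constructor
  · by_cases hcase : Real.log (2 * C1) / c1 ≤ Lam n V
    · -- many clusters
      have h4 := h1 n hn V hV hVn
      have h5 : C1 * Real.exp (-(c1 * Lam n V)) ≤ 1 / 2 := by
        have h6 : Real.log (2 * C1) ≤ c1 * Lam n V := by
          rw [div_le_iff₀ hc1] at hcase
          linarith
        have h7 : Real.exp (-(c1 * Lam n V)) ≤ (2 * C1)⁻¹ := by
          rw [Real.exp_neg]
          apply inv_anti₀ (by positivity)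
          rw [← Real.log_le_iff_le_exp (by positivity)]
          exact h6
        calc C1 * Real.exp (-(c1 * Lam n V)) ≤ C1 * (2 * C1)⁻¹ :=
              mul_le_mul_of_nonneg_left h7 hC1.le
          _ = 1 / 2 := by field_simp
      have h8 : ∀ j ∈ range ⌈c1 * Lam n V⌉₊, (1 / 2 : ℝ) ≤
          (bondLaw hlf).real {ω | j + 1 ≤ cnt n V ω} := by
        intro j hj
        rw [Finset.mem_range, Nat.lt_ceil] at hj
        have hcov : (Set.univ : Set (sqLattice.edgeSet → Bool)) ⊆ {ω | j + 1 ≤ cnt n V ω} ∪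
            {ω | (cnt n V ω : ℝ) ≤ c1 * Lam n V} := by
          intro ω _
          by_cases h : (cnt n V ω : ℝ) ≤ c1 * Lam n V
          · exact Or.inr h
          · left
            push Not at h
            have : (j : ℝ) < cnt n V ω := hj.trans h
            have : j < cnt n V ω := by exact_mod_cast this
            exact this
        have h9 : (1 : ℝ) ≤ (bondLaw hlf).real {ω | j + 1 ≤ cnt n V ω} +
            (bondLaw hlf).real {ω | (cnt n V ω : ℝ) ≤ c1 * Lam n V} := by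
          calc (1 : ℝ) = (bondLaw hlf).real Set.univ := by simp
            _ ≤ _ := (measureReal_mono hcov).trans (measureReal_union_le _ _)
        linarith
      by_cases hNle : ⌈c1 * Lam n V⌉₊ ≤ N
      · calc min (c1 / 2) (Real.exp (-C3) / L0) * Lam n V ≤ c1 / 2 * Lam n V :=
              mul_le_mul_of_nonneg_right (min_le_left _ _) hL.le
          _ ≤ (⌈c1 * Lam n V⌉₊ : ℝ) * (1 / 2) := by
              have := Nat.le_ceil (c1 * Lam n V)
              linarith
          _ = ∑ j ∈ range ⌈c1 * Lam n V⌉₊, (1 / 2 : ℝ) := by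
              rw [Finset.sum_const, Finset.card_range, nsmul_eq_mul]
          _ ≤ ∑ j ∈ range ⌈c1 * Lam n V⌉₊, (bondLaw hlf).real {ω | j + 1 ≤ cnt n V ω} :=
              Finset.sum_le_sum h8
          _ ≤ _ := by
              apply Finset.sum_le_sum_of_subset_of_nonneg
              · exact Finset.range_subset_range.mpr hNle
              · intro j _ _
                exact measureReal_nonneg
      · -- impossible: the count is at most N
        exfalso
        push Not at hNle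
        have h9 := h8 N (Finset.mem_range.mpr hNle)
        have h10 : {ω : sqLattice.edgeSet → Bool | N + 1 ≤ cnt n V ω} = ∅ := by
          ext ω
          have := cnt_le n V ω
          simp only [Set.mem_ofPred_eq, Set.mem_empty_iff_false, iff_false]
          omega
        rw [h10] at h9
        simp at h9
        linarith
    · push Not at hcase
      have h4 : Real.exp (-C3) ≤ (bondLaw hlf).real {ω | 0 + 1 ≤ cnt n V ω} := by
        have h5 := h3 n hn 1 le_rfl (by
          rw [one_mul]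
          calc (n : ℝ) ^ (91 / 48 : ℝ) ≤ (n : ℝ) ^ (2 : ℝ) :=
                Real.rpow_le_rpow_of_exponent_le hn1 (by norm_num)
            _ = (n : ℝ) ^ 2 := Real.rpow_two _
            _ ≤ (2 * (n : ℝ) + 1) ^ 2 := by nlinarith)
        rw [Real.one_rpow, mul_one, one_mul] at h5
        refine h5.trans ?_
        rw [← maxCl_ge]
        refine measureReal_mono ?_
        intro ω hω
        show 0 + 1 ≤ cnt n V ω
        rw [zero_add, ← le_rank_real le_rfl (by linarith), rank_one n ω (by linarith)]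
        exact hVn.trans hω
      have h5 : Lam n V ≤ L0 := hcase.le.trans (le_max_right _ _)
      calc min (c1 / 2) (Real.exp (-C3) / L0) * Lam n V ≤ Real.exp (-C3) / L0 * L0 :=
            mul_le_mul (min_le_right _ _) h5 hL.le (by positivity)
        _ = Real.exp (-C3) := by field_simp
        _ ≤ (bondLaw hlf).real {ω | 0 + 1 ≤ cnt n V ω} := h4
        _ ≤ _ := by
            apply Finset.single_le_sum
              (f := fun j => (bondLaw hlf).real {ω | j + 1 ≤ cnt n V ω})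
            · intro j _
              exact measureReal_nonneg
            · rw [Finset.mem_range, hN]
              positivity
  · have hterm : ∀ j ∈ range N, (bondLaw hlf).real {ω | j + 1 ≤ cnt n V ω} ≤
        (if (j : ℝ) < D * Lam n V then (1 : ℝ) else 0) + (1 / 2 : ℝ) ^ (j + 1) := by
      intro j _
      split_ifs with h
      · have h4 : (bondLaw hlf).real {ω | j + 1 ≤ cnt n V ω} ≤ 1 := measureReal_le_one
        have h5 : (0 : ℝ) ≤ (1 / 2) ^ (j + 1) := by positivity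
        linarith
      · push Not at h
        rw [zero_add, law_cnt]
        have h4 := h2 n hn V hV hVn (j + 1) (by
          unfold Lam at h
          push_cast
          linarith)
        exact h4.trans (exp_half (j + 1))
    calc ∑ j ∈ range N, (bondLaw hlf).real {ω | j + 1 ≤ cnt n V ω}
        ≤ ∑ j ∈ range N, ((if (j : ℝ) < D * Lam n V then (1 : ℝ) else 0) + (1 / 2 : ℝ) ^ (j + 1)) :=
          Finset.sum_le_sum hterm
      _ = (∑ j ∈ range N, if (j : ℝ) < D * Lam n V then (1 : ℝ) else 0) +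
          1 / 2 * ∑ j ∈ range N, (1 / 2 : ℝ) ^ j := by
          rw [Finset.sum_add_distrib, Finset.mul_sum]
          congr 1
          apply Finset.sum_congr rfl
          intro j _
          ring
      _ ≤ (⌈D * Lam n V⌉₊ : ℝ) + 1 / 2 * 2 := by
          apply add_le_add
          · rw [Finset.sum_ite, Finset.sum_const_zero, add_zero, Finset.sum_const, nsmul_eq_mul,
              mul_one]
            have h4 : (range N).filter (fun j : ℕ => (j : ℝ) < D * Lam n V) ⊆
                range ⌈D * Lam n V⌉₊ := by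
              intro j hj
              rw [Finset.mem_filter] at hj
              rw [Finset.mem_range, Nat.lt_ceil]
              exact hj.2
            have h5 := Finset.card_le_card h4
            rw [Finset.card_range] at h5
            exact_mod_cast h5
          · apply mul_le_mul_of_nonneg_left (sum_geometric_two_le _) (by norm_num)
      _ ≤ (D * Lam n V + 1) + 1 := by
          have := Nat.ceil_lt_add_one (a := D * Lam n V) (by positivity)
          linarith
      _ ≤ (D + 2) * Lam n V := by nlinarith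


end Pool.Agent.Y244.PC
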